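import Pool.Agent.helper75.KL.Fin

/-! The action on the sphere at infinity, caps, and the domain `Om`. -/

namespace Pool.Agent.helper75.KL

theorem Sph.FC (y : Sph) : FC y.1 := ⟨by rw [y.2.1]; norm_num, y.2.2.le⟩

/-- The open round cap defined by `n`. -/
def cap (n : V) : Set Sph := {y | 0 < bil y.1 n}

theorem continuous_bil_left (n : V) : Continuous (fun y : V => bil y n) := by
  unfold bil; fun_prop

theorem isOpen_cap (n : V) : IsOpen (cap n) :=
  isOpen_lt continuous_const ((continuous_bil_left n).comp continuous_subtype_val)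

theorem continuousAt_kl {x : V} (hx : x 0 ≠ 0) : ContinuousAt kl x := by
  unfold kl
  exact ((continuous_apply 0).continuousAt.inv₀ hx).smul continuousAt_id

namespace KD

variable {S I : Type} (D : KD S I)

noncomputable instance sphAction : MulAction D.W Sph := MulAction.compHom Sph D.rho

theorem smul_val (w : D.W) (y : Sph) : (w • y).1 = kl (D.act w y.1) := rfl

theorem continuous_act (w : D.W) : Continuous (D.act w) := by
  unfold act
  exact Continuous.matrix_mulVec continuous_const continuous_id

theorem act_pos {x : V} (w : D.W) (hx : FC x) (hx0 : 0 < x 0) : 0 < (D.act w x) 0 := by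
  rcases lt_or_eq_of_le (D.act_FC w hx).1 with h | h
  · exact h
  · exfalso
    have h1 := D.bil_act w x x
    have h2 := bil_self_ge (D.act w x)
    rw [← h] at h2
    have h3 : bil x x = 0 := le_antisymm hx.2 (by linarith)
    have h4 : D.act w x = 0 := ne_zero_of_bil (by rw [h1, h3]) h.symm
    have h5 : x = 0 := by
      rw [← D.act_inv_act w x, h4]
      unfold act
      exact Matrix.mulVec_zero _
    rw [h5] at hx0
    simp at hx0

theorem act_sph_pos (w : D.W) (y : Sph) : 0 < (D.act w y.1) 0 :=
  D.act_pos w y.FC (by rw [y.2.1]; norm_num)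

instance : ContinuousConstSMul D.W Sph where
  continuous_const_smul w := by
    refine Continuous.subtype_mk ?_ _
    show Continuous (fun y : Sph => kl (D.act w y.1))
    refine continuous_iff_continuousAt.mpr (fun y => ?_)
    have h1 : ContinuousAt (fun y : Sph => D.act w y.1) y :=
      ((D.continuous_act w).comp continuous_subtype_val).continuousAt
    exact ContinuousAt.comp (g := kl) (continuousAt_kl (D.act_sph_pos w y).ne') h1

theorem bil_smul_pt (w : D.W) (y : Sph) (z : V) :
    bil (w • y).1 z = ((D.act w y.1) 0)⁻¹ * bil (D.act w y.1) z := by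
  rw [smul_val, kl, bil_smul_left]

theorem smul_mem_cap {w : D.W} {y : Sph} {z : V} :
    w • y ∈ cap z ↔ 0 < bil (D.act w y.1) z := by
  show 0 < bil (w • y).1 z ↔ _
  rw [bil_smul_pt]
  exact mul_pos_iff_of_pos_left (inv_pos.mpr (D.act_sph_pos w y))

/-- The union of the caps. -/
def U : Set Sph := {y | ∃ i, y ∈ cap (D.n i)}

/-- The domain: the points that can be moved into a cap. -/
def Om : Set Sph := {y | ∃ w : D.W, w • y ∈ D.U}

theorem isOpen_U : IsOpen D.U := by
  have : D.U = ⋃ i, cap (D.n i) := by ext y; simp [U]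
  rw [this]
  exact isOpen_iUnion (fun i => isOpen_cap _)

theorem isOpen_Om : IsOpen D.Om := by
  have : D.Om = ⋃ w : D.W, (fun y : Sph => w • y) ⁻¹' D.U := by ext y; simp [Om]
  rw [this]
  exact isOpen_iUnion (fun w => D.isOpen_U.preimage (continuous_const_smul w))

theorem smul_mem_Om (w : D.W) {y : Sph} (hy : y ∈ D.Om) : w • y ∈ D.Om := by
  obtain ⟨g, hg⟩ := hy
  exact ⟨g * w⁻¹, by rwa [mul_smul, inv_smul_smul]⟩

theorem U_sub_Om : D.U ⊆ D.Om := fun y hy => ⟨1, by rwa [one_smul]⟩

/-- The domain as a space. -/
abbrev OmT : Type := D.Om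

noncomputable instance omAction : MulAction D.W D.OmT where
  smul w y := ⟨w • y.1, D.smul_mem_Om w y.2⟩
  one_smul _ := Subtype.ext (one_smul _ _)
  mul_smul _ _ _ := Subtype.ext (mul_smul _ _ _)

theorem om_smul_val (w : D.W) (y : D.OmT) : (w • y).1 = w • y.1 := rfl

instance : ContinuousConstSMul D.W D.OmT where
  continuous_const_smul w :=
    Continuous.subtype_mk ((continuous_const_smul w).comp continuous_subtype_val) _

/-- Words for elements generated by a set of simple reflections. -/
theorem word_of_mem {T : Set S} {g : D.W} (hg : g ∈ Subgroup.closure (D.cs.simple '' T)) :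
    ∃ l : List S, (∀ s ∈ l, s ∈ T) ∧ (l.map D.cs.simple).prod = g := by
  induction hg using Subgroup.closure_induction with
  | mem x hx =>
    obtain ⟨s, hs, rfl⟩ := hx
    exact ⟨[s], by simpa using hs, by simp⟩
  | one => exact ⟨[], by simp, by simp⟩
  | mul x y _ _ h1 h2 =>
    obtain ⟨l1, a1, b1⟩ := h1
    obtain ⟨l2, a2, b2⟩ := h2
    refine ⟨l1 ++ l2, ?_, by rw [List.map_append, List.prod_append, b1, b2]⟩
    intro s hs
    rcases List.mem_append.mp hs with h | h
    · exact a1 s h
    · exact a2 s h
  | inv x _ h =>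
    obtain ⟨l, a, b⟩ := h
    refine ⟨l.reverse, fun s hs => a s (List.mem_reverse.mp hs), ?_⟩
    rw [← b, List.prod_inv_reverse, List.map_reverse, List.map_map]
    congr 2
    apply List.map_congr_left
    intro s _
    exact (D.cs.inv_simple s).symm

end KD

end Pool.Agent.helper75.KL
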