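import Pool.Agent.helper75.KL.Shell
import Pool.Agent.helper75.KL.Omega

/-! The stereographic chart from the point `(1;0,0,1,0)`; unions of caps. -/

namespace Pool.Agent.helper75.KL

namespace Chart

/-- the square of the length -/
def sq (p : Fin 3 → ℝ) : ℝ := p 0 * p 0 + p 1 * p 1 + p 2 * p 2

theorem sq_nonneg (p : Fin 3 → ℝ) : 0 ≤ sq p := by
  unfold sq
  nlinarith [mul_self_nonneg (p 0), mul_self_nonneg (p 1), mul_self_nonneg (p 2)]

/-- the light-like vector of a point of `ℝ³` -/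
def eta (p : Fin 3 → ℝ) : V := ![sq p + 1, 2 * p 0, 2 * p 1, sq p - 1, 2 * p 2]

theorem eta_zero (p : Fin 3 → ℝ) : eta p 0 = sq p + 1 := rfl

theorem eta_pos (p : Fin 3 → ℝ) : 0 < eta p 0 := by
  rw [eta_zero]; linarith [sq_nonneg p]

theorem bil_eta (p : Fin 3 → ℝ) : bil (eta p) (eta p) = 0 := by
  simp only [bil, eta, sq, Matrix.cons_val_zero, Matrix.cons_val_one, Matrix.cons_val]
  ring

/-- the chart -/
noncomputable def psi (p : Fin 3 → ℝ) : Sph :=
  ⟨kl (eta p), kl_zero (eta_pos p).ne', bil_kl (bil_eta p)⟩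

theorem psi_val (p : Fin 3 → ℝ) : (psi p).1 = (sq p + 1)⁻¹ • eta p := rfl

theorem psi_three (p : Fin 3 → ℝ) : 1 - (psi p).1 3 = 2 * (sq p + 1)⁻¹ := by
  have h := (eta_pos p).ne'
  rw [eta_zero] at h
  have e : (psi p).1 3 = (sq p + 1)⁻¹ * (sq p - 1) := rfl
  rw [e]
  field_simp
  ring

theorem psi_ne (p : Fin 3 → ℝ) : (psi p).1 3 ≠ 1 := by
  intro h
  have h1 := psi_three p
  rw [h, sub_self] at h1
  have h2 := inv_pos.2 (eta_pos p)
  rw [eta_zero] at h2
  linarith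

/-- the inverse of the chart -/
noncomputable def inv (y : {y : Sph // y.1 3 ≠ 1}) : Fin 3 → ℝ :=
  ![y.1.1 1 / (1 - y.1.1 3), y.1.1 2 / (1 - y.1.1 3), y.1.1 4 / (1 - y.1.1 3)]

theorem inv_psi (p : Fin 3 → ℝ) : inv ⟨psi p, psi_ne p⟩ = p := by
  have h := (eta_pos p).ne'
  rw [eta_zero] at h
  have e1 : (psi p).1 1 = (sq p + 1)⁻¹ * (2 * p 0) := rfl
  have e2 : (psi p).1 2 = (sq p + 1)⁻¹ * (2 * p 1) := rfl
  have e4 : (psi p).1 4 = (sq p + 1)⁻¹ * (2 * p 2) := rfl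
  have key : ∀ a : ℝ, (sq p + 1)⁻¹ * (2 * a) / (2 * (sq p + 1)⁻¹) = a := by
    intro a
    field_simp
  unfold inv
  simp only [psi_three, e1, e2, e4, key]
  funext i
  fin_cases i <;> rfl

theorem sph_eq (y : Sph) : y.1 1 * y.1 1 + y.1 2 * y.1 2 + y.1 3 * y.1 3 + y.1 4 * y.1 4 = 1 := by
  have h := y.2.2
  unfold bil at h
  rw [y.2.1] at h
  linarith

theorem psi_inv (y : {y : Sph // y.1 3 ≠ 1}) : psi (inv y) = y.1 := by
  have hd : (1 - y.1.1 3) ≠ 0 := sub_ne_zero.2 (Ne.symm y.2)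
  have hs := sph_eq y.1
  have hsq : sq (inv y) + 1 = 2 / (1 - y.1.1 3) := by
    have : sq (inv y) = (y.1.1 1 * y.1.1 1 + y.1.1 2 * y.1.1 2 + y.1.1 4 * y.1.1 4) /
        ((1 - y.1.1 3) * (1 - y.1.1 3)) := by
      simp only [sq, inv, Matrix.cons_val_zero, Matrix.cons_val_one, Matrix.cons_val]
      field_simp
    rw [this, div_add_one (mul_ne_zero hd hd), div_eq_div_iff (mul_ne_zero hd hd) hd]
    have : y.1.1 1 * y.1.1 1 + y.1.1 2 * y.1.1 2 + y.1.1 4 * y.1.1 4 =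
      1 - y.1.1 3 * y.1.1 3 := by linarith
    rw [this]
    ring
  apply Subtype.ext
  funext k
  have e : ∀ k, (psi (inv y)).1 k = (sq (inv y) + 1)⁻¹ * eta (inv y) k := fun _ => rfl
  rw [e, hsq, inv_div]
  have h2 : sq (inv y) = 2 / (1 - y.1.1 3) - 1 := by linarith
  fin_cases k
  · have : eta (inv y) 0 = sq (inv y) + 1 := rfl
    change _ * eta (inv y) 0 = y.1.1 0
    rw [this, hsq, y.1.2.1]
    field_simp
  · change _ * (2 * (y.1.1 1 / (1 - y.1.1 3))) = y.1.1 1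
    field_simp
  · change _ * (2 * (y.1.1 2 / (1 - y.1.1 3))) = y.1.1 2
    field_simp
  · change _ * (sq (inv y) - 1) = y.1.1 3
    rw [h2]
    field_simp
    ring
  · change _ * (2 * (y.1.1 4 / (1 - y.1.1 3))) = y.1.1 4
    field_simp

theorem continuous_psi : Continuous psi := by
  refine Continuous.subtype_mk ?_ _
  unfold kl
  have h1 : Continuous eta := by
    refine continuous_pi fun k => ?_
    unfold eta sq
    fin_cases k <;> simp <;> fun_prop
  refine Continuous.smul (Continuous.inv₀ ?_ fun p => (eta_pos p).ne') h1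
  exact (continuous_apply 0).comp h1

theorem continuous_inv : Continuous inv := by
  refine continuous_pi fun k => ?_
  have hc : ∀ j : Fin 5, Continuous fun y : {y : Sph // y.1 3 ≠ 1} => y.1.1 j := fun j =>
    (continuous_apply j).comp (continuous_subtype_val.comp continuous_subtype_val)
  have hd : ∀ y : {y : Sph // y.1 3 ≠ 1}, (1 - y.1.1 3) ≠ 0 := fun y =>
    sub_ne_zero.2 (Ne.symm y.2)
  have key : ∀ j : Fin 5, Continuous fun y : {y : Sph // y.1 3 ≠ 1} =>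
      y.1.1 j / (1 - y.1.1 3) := fun j =>
    (hc j).div (continuous_const.sub (hc 3)) hd
  fin_cases k
  · exact key 1
  · exact key 2
  · exact key 4

theorem isEmbedding_psi : Topology.IsEmbedding psi := by
  have h1 : Topology.IsEmbedding
      (fun p : Fin 3 → ℝ => (⟨psi p, psi_ne p⟩ : {y : Sph // y.1 3 ≠ 1})) :=
    Function.LeftInverse.isEmbedding (f := inv) inv_psi continuous_inv
      (continuous_psi.subtype_mk _)
  exact Topology.IsEmbedding.subtypeVal.comp h1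

theorem mem_cap_psi (p : Fin 3 → ℝ) (n : V) : psi p ∈ cap n ↔ 0 < bil (eta p) n := by
  change 0 < bil ((sq p + 1)⁻¹ • eta p) n ↔ _
  rw [bil_smul_left]
  have := inv_pos.2 (eta_pos p)
  rw [eta_zero] at this
  exact mul_pos_iff_of_pos_left this

theorem convex_pre {n : V} (hn : n 3 ≤ n 0) : Convex ℝ (psi ⁻¹' cap n) := by
  intro p hp q hq a b ha hb hab
  rw [Set.mem_preimage, mem_cap_psi] at *
  have hb' : b = 1 - a := by linarith
  have key : bil (eta (a • p + b • q)) n = a * bil (eta p) n + b * bil (eta q) n +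
      (n 0 - n 3) * (a * b) * sq (p - q) := by
    subst hb'
    simp only [bil, eta, sq, Matrix.cons_val_zero, Matrix.cons_val_one, Matrix.cons_val,
      Pi.add_apply, Pi.smul_apply, Pi.sub_apply, smul_eq_mul]
    ring
  rw [key]
  have h1 : 0 ≤ (n 0 - n 3) * (a * b) * sq (p - q) :=
    mul_nonneg (mul_nonneg (by linarith) (mul_nonneg ha hb)) (sq_nonneg _)
  rcases ha.lt_or_eq with ha' | ha'
  · have := mul_pos ha' hp
    have := mul_nonneg hb hq.le
    linarith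
  · have hb1 : b = 1 := by linarith
    rw [← ha', hb1] at h1 ⊢
    linarith

theorem exists_psi {n : V} (hn : n 3 ≤ n 0) {y : Sph} (hy : y ∈ cap n) : ∃ p, psi p = y := by
  have h3 : y.1 3 ≠ 1 := by
    intro h
    have hs := sph_eq y
    rw [h] at hs
    have a1 : y.1 1 = 0 := mul_self_eq_zero.1 (by
      nlinarith [mul_self_nonneg (y.1 1), mul_self_nonneg (y.1 2), mul_self_nonneg (y.1 4)])
    have a2 : y.1 2 = 0 := mul_self_eq_zero.1 (by
      nlinarith [mul_self_nonneg (y.1 1), mul_self_nonneg (y.1 2), mul_self_nonneg (y.1 4)])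
    have a4 : y.1 4 = 0 := mul_self_eq_zero.1 (by
      nlinarith [mul_self_nonneg (y.1 1), mul_self_nonneg (y.1 2), mul_self_nonneg (y.1 4)])
    have hy' : 0 < bil y.1 n := hy
    unfold bil at hy'
    rw [h, a1, a2, a4, y.2.1] at hy'
    linarith
  exact ⟨inv ⟨y, h3⟩, psi_inv ⟨y, h3⟩⟩

end Chart

open Chart

/-- Union of caps with a shelling: simply connected. -/
theorem chart_sc {N : ℕ} (n : Fin (N + 1) → V) (hc : ∀ i, n i 3 ≤ n i 0)
    (hne : ∀ k, (cap (n k)).Nonempty)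
    (par : Fin (N + 1) → Fin (N + 1)) (nxt : Fin (N + 1) → Fin (N + 1) → Fin (N + 1))
    (rk : Fin (N + 1) → Fin (N + 1) → ℕ)
    (hpar : ∀ k, k ≠ 0 → par k < k ∧ (cap (n (par k)) ∩ cap (n k)).Nonempty)
    (hnxt : ∀ j k, j < k → (cap (n j) ∩ cap (n k)).Nonempty → j ≠ par k →
      nxt j k < k ∧ (cap (n j) ∩ cap (n (nxt j k)) ∩ cap (n k)).Nonempty ∧
        rk (nxt j k) k < rk j k) :
    IsSimplyConnected {y : Sph | ∃ i, y ∈ cap (n i)} := by
  have h := shelling (fun k => psi ⁻¹' cap (n k))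
    (fun k => (isOpen_cap (n k)).preimage continuous_psi) (fun k => convex_pre (hc k))
    (fun k => by
      obtain ⟨y, hy⟩ := hne k
      obtain ⟨p, rfl⟩ := exists_psi (hc k) hy
      exact ⟨p, hy⟩) par nxt rk
    (fun k hk => by
      obtain ⟨h1, y, hy1, hy2⟩ := hpar k hk
      obtain ⟨p, rfl⟩ := exists_psi (hc k) hy2
      exact ⟨h1, p, hy1, hy2⟩)
    (fun j k hjk hne hp => by
      obtain ⟨p, hp1, hp2⟩ := hne
      obtain ⟨h1, ⟨y, ⟨hy1, hy2⟩, hy3⟩, h3⟩ := hnxt j k hjk ⟨psi p, hp1, hp2⟩ hp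
      obtain ⟨p, rfl⟩ := exists_psi (hc k) hy3
      exact ⟨h1, ⟨p, ⟨hy1, hy2⟩, hy3⟩, h3⟩)
  have h2 : {y : Sph | ∃ i, y ∈ cap (n i)} = psi '' (⋃ k, psi ⁻¹' cap (n k)) := by
    ext y
    simp only [Set.mem_ofPred_eq, Set.mem_image, Set.mem_iUnion, Set.mem_preimage]
    constructor
    · rintro ⟨i, hi⟩
      obtain ⟨p, rfl⟩ := exists_psi (hc i) hi
      exact ⟨p, ⟨i, hi⟩, rfl⟩
    · rintro ⟨p, ⟨i, hi⟩, rfl⟩
      exact ⟨i, hi⟩
  rw [h2]
  exact (isEmbedding_psi.isSimplyConnected_image).2 h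

/-- A chained union of caps is path-connected. -/
theorem chart_pc {ι : Type} (n : ι → V) (hc : ∀ i, n i 3 ≤ n i 0) (J : Set ι) (root : ι)
    (hroot : root ∈ J) (hne : (cap (n root)).Nonempty) (nxt : ι → ι) (rk : ι → ℕ)
    (hnxt : ∀ j ∈ J, j ≠ root → nxt j ∈ J ∧ (cap (n j) ∩ cap (n (nxt j))).Nonempty ∧
      rk (nxt j) < rk j) :
    IsPathConnected {y : Sph | ∃ i ∈ J, y ∈ cap (n i)} := by
  have h := chain_union (fun k => psi ⁻¹' cap (n k)) J root hroot
    (by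
      obtain ⟨y, hy⟩ := hne
      obtain ⟨p, rfl⟩ := exists_psi (hc root) hy
      exact ⟨p, hy⟩)
    (fun k _ => convex_pre (hc k)) nxt rk
    (fun j hj hjr => by
      obtain ⟨h1, ⟨y, hy1, hy2⟩, h3⟩ := hnxt j hj hjr
      obtain ⟨p, rfl⟩ := exists_psi (hc j) hy1
      exact ⟨h1, ⟨p, hy1, hy2⟩, h3⟩)
  have h2 : {y : Sph | ∃ i ∈ J, y ∈ cap (n i)} = psi '' (⋃ k ∈ J, psi ⁻¹' cap (n k)) := by
    ext y
    simp only [Set.mem_ofPred_eq, Set.mem_image, Set.mem_iUnion, Set.mem_preimage, exists_prop]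
    constructor
    · rintro ⟨i, hiJ, hi⟩
      obtain ⟨p, rfl⟩ := exists_psi (hc i) hi
      exact ⟨p, ⟨i, hiJ, hi⟩, rfl⟩
    · rintro ⟨p, ⟨i, hiJ, hi⟩, rfl⟩
      exact ⟨i, hiJ, hi⟩
  rw [h2]
  exact h.image continuous_psi

end Pool.Agent.helper75.KL
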