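import Pool.Agent.helper75.KL.Omega

/-! Proper discontinuity. -/

namespace Pool.Agent.helper75.KL

open Filter Topology

namespace KD

variable {S I : Type} (D : KD S I)

/-- The elements moving a point of a set into the set without enlarging its height. -/
theorem finite_small {w : D.W} {i : I} {c μ : ℝ} (hc : 0 < c) (hμ : 0 < μ) :
    {g : D.W | ∃ x : Sph, c ≤ bil (w • x).1 (D.n i) ∧ μ ≤ (D.act w x.1) 0 ∧
      (D.act g x.1) 0 ≤ 1}.Finite := by
  obtain ⟨K, hK, hb⟩ := height_bound (D.n i) hc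
  have hinj : Function.Injective (fun g : D.W => D.act (w * g⁻¹) e0) := by
    intro g g' h
    have h1 := D.act_e0_inj h
    exact inv_injective (mul_left_cancel h1)
  refine ((finite_int (K * μ⁻¹)).preimage hinj.injOn).subset ?_
  rintro g ⟨x, hx1, hx2, hx3⟩
  refine ⟨D.act_e0_int _, D.act_FC _ FC_e0, ?_⟩
  refine (hb (w • x).1 (w • x).2.1 (w • x).2.2 hx1 _ (D.act_FC _ FC_e0) (D.e0_tits_n i _)).trans ?_
  apply mul_le_mul_of_nonneg_left _ hK.le
  have hm : 0 < (D.act w x.1) 0 := lt_of_lt_of_le hμ hx2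
  have e1 : bil (D.act (w * g⁻¹) e0) (w • x).1 =
      ((D.act w x.1) 0)⁻¹ * bil (D.act w x.1) (D.act (w * g⁻¹) e0) := by
    rw [bil_comm, bil_smul_pt]
  have e2 : bil (D.act w x.1) (D.act (w * g⁻¹) e0) = -(D.act g x.1) 0 := by
    rw [act_mul, bil_act, ← bil_act_left, bil_e0]
  rw [e1, e2]
  have h0 : 0 ≤ (D.act g x.1) 0 := (D.act_sph_pos g x).le
  calc -(((D.act w x.1) 0)⁻¹ * -(D.act g x.1) 0) = ((D.act w x.1) 0)⁻¹ * (D.act g x.1) 0 := by ring
    _ ≤ μ⁻¹ * 1 := mul_le_mul (inv_anti₀ hμ hx2) hx3 h0 (inv_pos.mpr hμ).le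
    _ = μ⁻¹ := mul_one _

/-- Every point of `Om` has a neighbourhood moved off itself by all nontrivial elements of a
subgroup acting freely. -/
theorem disjoint_nbhd (K : Subgroup D.W)
    (hfree : ∀ g ∈ K, ∀ y ∈ D.Om, g • y = y → g = 1) {y : Sph} (hy : y ∈ D.Om) :
    ∃ N ∈ 𝓝 y, ∀ g ∈ K, (((fun x : Sph => g • x) '' N) ∩ N).Nonempty → g = 1 := by
  have hyO := hy
  obtain ⟨w, i, hi⟩ := hy
  have hc : 0 < bil (w • y).1 (D.n i) := hi
  have hμ : 0 < (D.act w y.1) 0 := D.act_sph_pos w y
  set c := bil (w • y).1 (D.n i) / 2 with hcdef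
  set μ := (D.act w y.1) 0 / 2 with hμdef
  have hc0 : 0 < c := by rw [hcdef]; linarith
  have hμ0 : 0 < μ := by rw [hμdef]; linarith
  set N0 : Set Sph := {x | c < bil (w • x).1 (D.n i) ∧ μ < (D.act w x.1) 0} with hN0
  have hc1 : Continuous (fun x : Sph => bil (w • x).1 (D.n i)) :=
    (continuous_bil_left _).comp (continuous_subtype_val.comp (continuous_const_smul w))
  have hc2 : Continuous (fun x : Sph => (D.act w x.1) 0) :=
    (continuous_apply 0).comp ((D.continuous_act w).comp continuous_subtype_val)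
  have hN0o : IsOpen N0 := (isOpen_lt continuous_const hc1).inter (isOpen_lt continuous_const hc2)
  have hyN0 : y ∈ N0 := ⟨by rw [hcdef]; linarith, by rw [hμdef]; linarith⟩
  set A : Set D.W := {g : D.W | ∃ x : Sph, c ≤ bil (w • x).1 (D.n i) ∧ μ ≤ (D.act w x.1) 0 ∧
      (D.act g x.1) 0 ≤ 1} with hA
  have hAf : A.Finite := D.finite_small hc0 hμ0
  have hBf : (A ∪ A⁻¹).Finite := hAf.union hAf.inv
  have hcov : ∀ g : D.W, ∀ x ∈ N0, g • x ∈ N0 → g ∈ A ∪ A⁻¹ := by
    intro g x hx hgx
    by_cases h : (D.act g x.1) 0 ≤ 1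
    · exact Or.inl ⟨x, hx.1.le, hx.2.le, h⟩
    · right
      push Not at h
      refine Set.mem_inv.mpr ⟨g • x, hgx.1.le, hgx.2.le, ?_⟩
      have e : D.act g⁻¹ (g • x).1 = ((D.act g x.1) 0)⁻¹ • x.1 := by
        rw [smul_val, kl, act_smul, act_inv_act]
      rw [e]
      simp only [Pi.smul_apply, smul_eq_mul, x.2.1, mul_one]
      exact inv_le_one_of_one_le₀ h.le
  have hsep : ∀ g : D.W, ∃ M ∈ 𝓝 y, g ∈ K → g ≠ 1 → ∀ x ∈ M, g • x ∉ M := by
    intro g
    by_cases hg : g ∈ K ∧ g ≠ 1
    · have hne : y ≠ g • y := fun h => hg.2 (hfree g hg.1 y hyO h.symm)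
      obtain ⟨U, V, hU, hV, hyU, hyV, hd⟩ := t2_separation hne
      refine ⟨U ∩ (fun x : Sph => g • x) ⁻¹' V, ?_, ?_⟩
      · exact Filter.inter_mem (hU.mem_nhds hyU)
          ((hV.preimage (continuous_const_smul g)).mem_nhds hyV)
      · intro _ _ x hx hgx
        exact Set.disjoint_left.mp hd hgx.1 hx.2
    · exact ⟨Set.univ, Filter.univ_mem, fun h1 h2 => absurd ⟨h1, h2⟩ hg⟩
  choose M hM hMs using hsep
  refine ⟨N0 ∩ ⋂ g ∈ A ∪ A⁻¹, M g, Filter.inter_mem (hN0o.mem_nhds hyN0)
    ((Filter.biInter_mem hBf).mpr (fun g _ => hM g)), ?_⟩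
  intro g hg hne
  obtain ⟨z, ⟨x, hx, rfl⟩, hz⟩ := hne
  by_contra h1
  have hgA := hcov g x hx.1 hz.1
  have hx2 := Set.mem_iInter₂.mp hx.2 g hgA
  have hz2 := Set.mem_iInter₂.mp hz.2 g hgA
  exact hMs g hg h1 x hx2 hz2

/-- Elements with a fixed point in `Om` are conjugate to products of walls through a point of
`Om`, which commute. -/
theorem fixed_conj {g : D.W} {y : Sph} (hy : y ∈ D.Om) (hg : g • y = y) :
    ∃ (u : D.W) (T : Set S), (∀ s ∈ T, ∀ t ∈ T, s ≠ t → D.com s t) ∧
      (∃ i, ∀ s ∈ T, bil (D.v s) (D.n i) = 0) ∧ (∀ s ∈ T, bil (D.act u y.1) (D.v s) = 0) ∧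
      u * g * u⁻¹ ∈ Subgroup.closure (D.cs.simple '' T) := by
  obtain ⟨w, i, hi⟩ := hy
  have hi' : 0 < bil (w • y).1 (D.n i) := hi
  obtain ⟨u', hu', hP⟩ := D.cap_to_P (w • y).2.1 (w • y).2.2 hi'
  have hwpos := D.act_sph_pos w y
  set u := u' * w with hu
  have hupos := D.act_sph_pos u y
  -- the point `act u y`
  have e1 : D.act u y.1 = (D.act w y.1 0) • D.act u' (w • y).1 := by
    rw [smul_val, kl, act_smul, smul_smul, mul_inv_cancel₀ hwpos.ne', one_smul, hu, act_mul]
  have hPu : D.act u y.1 ∈ D.P := by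
    rw [e1]
    exact ⟨hP.1.smul hwpos.le, fun s => by
      rw [bil_smul_left]; exact mul_nonpos_of_nonneg_of_nonpos hwpos.le (hP.2 s)⟩
  have hin : 0 < bil (D.act u y.1) (D.n i) := by
    rw [e1, bil_smul_left, bil_act_left, D.act_n ((D.Wi i).inv_mem hu')]
    exact mul_pos hwpos hi'
  have hgpos := D.act_sph_pos g y
  have e2 : D.act g y.1 = (D.act g y.1 0) • y.1 := by
    have h1 : kl (D.act g y.1) = y.1 := congrArg Subtype.val hg
    have h2 : (D.act g y.1 0) • kl (D.act g y.1) = D.act g y.1 := by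
      rw [kl, smul_smul, mul_inv_cancel₀ hgpos.ne', one_smul]
    rw [h1] at h2
    exact h2.symm
  have e3 : D.act (u * g * u⁻¹) (D.act u y.1) = (D.act g y.1 0) • D.act u y.1 := by
    rw [act_mul, act_inv_act, act_mul]
    conv_lhs => rw [e2]
    rw [act_smul]
  have hPu2 : (D.act g y.1 0) • D.act u y.1 ∈ D.P :=
    ⟨hPu.1.smul hgpos.le, fun s => by
      rw [bil_smul_left]; exact mul_nonpos_of_nonneg_of_nonpos hgpos.le (hPu.2 s)⟩
  obtain ⟨_, hmem⟩ := D.fund hPu hPu2 e3
  refine ⟨u, {s | bil (D.act u y.1) (D.v s) = 0}, ?_, ⟨i, ?_⟩, fun s hs => hs, hmem⟩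
  · intro s hs t ht hst
    have hs' : bil (u • y).1 (D.v s) = 0 := by
      rw [bil_smul_pt, (hs : bil (D.act u y.1) (D.v s) = 0), mul_zero]
    have ht' : bil (u • y).1 (D.v t) = 0 := by
      rw [bil_smul_pt, (ht : bil (D.act u y.1) (D.v t) = 0), mul_zero]
    have hi2 : 0 < bil (u • y).1 (D.n i) := by
      rw [bil_smul_pt]; exact mul_pos (inv_pos.mpr hupos) hin
    exact D.wall_com (u • y).2.1 (u • y).2.2 hs' ht' hi2 hst
  · intro s hs
    exact D.wall_inc hPu.1 hs hin

/-- A product of commuting walls of different colours on which all colour parities are trivial is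
trivial. -/
theorem commuting_trivial (col : S → Fin 3) (hcol : ∀ s t, D.com s t → col s ≠ col t)
    (z : D.W →* (Fin 3 → ℤˣ)) (hz : ∀ s, z (D.cs.simple s) = Pi.mulSingle (col s) (-1))
    {T : Set S} (hT : ∀ s ∈ T, ∀ t ∈ T, s ≠ t → D.com s t)
    {g : D.W} (hg : g ∈ Subgroup.closure (D.cs.simple '' T)) (h1 : z g = 1) : g = 1 := by
  classical
  obtain ⟨l, hl, rfl⟩ := D.word_of_mem hg
  clear hg
  obtain ⟨k, hk⟩ : ∃ k, k = l.length := ⟨_, rfl⟩
  induction k using Nat.strong_induction_on generalizing l with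
  | _ k ih =>
    -- any two letters commute
    have hcomm : ∀ l' : List S, (∀ s ∈ l', s ∈ T) → (l'.map D.cs.simple).Pairwise Commute := by
      intro l' hl'
      rw [List.pairwise_map]
      apply List.Pairwise.imp_of_mem (R := fun _ _ => True) _ (List.pairwise_of_forall (fun _ _ => trivial))
      intro a b ha hb _
      by_cases hab : a = b
      · rw [hab]
      · exact D.simple_comm (hT a (hl' a ha) b (hl' b hb) hab)
    by_cases hnd : l.Nodup
    · cases l with
      | nil => simp
      | cons s l' =>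
        exfalso
        rw [List.nodup_cons] at hnd
        have h2 := congrFun h1 (col s)
        rw [List.map_cons, List.prod_cons, map_mul, Pi.mul_apply, hz, Pi.mulSingle_eq_same] at h2
        have h3 : (z (l'.map D.cs.simple).prod) (col s) = 1 := by
          rw [map_list_prod, List.map_map]
          have h4 : ∀ l'' : List S, (∀ t ∈ l'', t ∈ T ∧ t ≠ s) →
              ((l''.map (z ∘ D.cs.simple)).prod : Fin 3 → ℤˣ) (col s) = 1 := by
            intro l''
            induction l'' with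
            | nil => intro _; simp
            | cons t l'' ih' =>
              intro h
              have ht := h t (by simp)
              rw [List.map_cons, List.prod_cons, Pi.mul_apply,
                ih' (fun t' ht' => h t' (List.mem_cons_of_mem _ ht')), mul_one]
              show z (D.cs.simple t) (col s) = 1
              rw [hz]
              apply Pi.mulSingle_eq_of_ne
              exact hcol s t (hT s (hl s (by simp)) t ht.1 (Ne.symm ht.2))
          refine h4 l' (fun t ht => ⟨hl t (List.mem_cons_of_mem _ ht), ?_⟩)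
          rintro rfl
          exact hnd.1 ht
        rw [h3, mul_one] at h2
        simp at h2
    · obtain ⟨s, hs⟩ := (List.exists_duplicate_iff_not_nodup).mpr hnd
      have hs2 : 2 ≤ l.count s := List.duplicate_iff_two_le_count.mp hs
      have hmem : s ∈ l := hs.mem
      have hp1 : l.Perm (s :: l.erase s) := List.perm_cons_erase hmem
      have hmem2 : s ∈ l.erase s := by
        rw [← List.one_le_count_iff, List.count_erase_self]
        omega
      have hp2 : (l.erase s).Perm (s :: (l.erase s).erase s) := List.perm_cons_erase hmem2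
      have hp : l.Perm (s :: s :: (l.erase s).erase s) := hp1.trans (hp2.cons s)
      have hprod : (l.map D.cs.simple).prod = (((l.erase s).erase s).map D.cs.simple).prod := by
        rw [List.Perm.prod_eq' (hp.map D.cs.simple) (hcomm l hl), List.map_cons, List.map_cons,
          List.prod_cons, List.prod_cons, ← mul_assoc, D.cs.simple_mul_simple_self, one_mul]
      have hlen := hp.length_eq
      simp only [List.length_cons] at hlen
      rw [hprod]
      refine ih _ (by omega) ((l.erase s).erase s) ?_ ?_ rfl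
      · intro t ht
        exact hl t (List.mem_of_mem_erase (List.mem_of_mem_erase ht))
      · rw [← hprod]; exact h1

end KD

end Pool.Agent.helper75.KL
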