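import Pool.Agent.helper75.KL.Data

/-! The covering property. -/

namespace Pool.Agent.helper75.KL

/-- Four nonnegative numbers with pairwise sums at most one and square sum one. -/
theorem four_aux {A B C D : ℝ} (hA : 0 ≤ A) (hB : 0 ≤ B) (hC : 0 ≤ C) (hD : 0 ≤ D)
    (hAB : A + B ≤ 1) (hAC : A + C ≤ 1) (hAD : A + D ≤ 1) (h : A * A + B * B + C * C + D * D = 1)
    (h2 : 1 / 2 < A) : A = 1 ∧ B = 0 ∧ C = 0 ∧ D = 0 := by
  have hA1 : A ≤ 1 := by linarith
  have b1 : B * B ≤ (1 - A) * (1 - A) := mul_le_mul (by linarith) (by linarith) hB (by linarith)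
  have c1 : C * C ≤ (1 - A) * (1 - A) := mul_le_mul (by linarith) (by linarith) hC (by linarith)
  have d1 : D * D ≤ (1 - A) * (1 - A) := mul_le_mul (by linarith) (by linarith) hD (by linarith)
  have hA' : A = 1 := by
    by_contra hne
    have hlt : A < 1 := lt_of_le_of_ne hA1 hne
    nlinarith [mul_pos (sub_pos.mpr h2) (sub_pos.mpr hlt)]
  subst hA'
  have : B * B + C * C + D * D = 0 := by linarith
  have b2 := mul_self_nonneg B
  have c2 := mul_self_nonneg C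
  have d2 := mul_self_nonneg D
  exact ⟨rfl, mul_self_eq_zero.mp (by linarith), mul_self_eq_zero.mp (by linarith),
    mul_self_eq_zero.mp (by linarith)⟩

theorem half_or {a b c d : ℝ} (h : a * a + b * b + c * c + d * d = 1)
    (ha : |a| ≤ 1 / 2) (hb : |b| ≤ 1 / 2) (hc : |c| ≤ 1 / 2) (hd : |d| ≤ 1 / 2) :
    (2 * a = 1 ∨ 2 * a = -1) := by
  have key : ∀ t : ℝ, |t| ≤ 1 / 2 → t * t ≤ 1 / 4 := by
    intro t ht
    have := abs_le.mp ht
    nlinarith [mul_nonneg (sub_nonneg.mpr this.2) (by linarith [this.1] : (0 : ℝ) ≤ 1 / 2 + t)]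
  have h1 : a * a = 1 / 4 := by
    linarith [key a ha, key b hb, key c hc, key d hd]
  have h2 : (2 * a - 1) * (2 * a + 1) = 0 := by linarith
  rcases mul_eq_zero.mp h2 with h3 | h3
  · left; linarith
  · right; linarith

/-- The ideal vertices of the 24-cell. -/
theorem verts {y : V} (h0 : y 0 = 1) (hy : bil y y = 0)
    (h12 : |y 1| + |y 2| ≤ 1) (h13 : |y 1| + |y 3| ≤ 1) (h14 : |y 1| + |y 4| ≤ 1)
    (h23 : |y 2| + |y 3| ≤ 1) (h24 : |y 2| + |y 4| ≤ 1) (h34 : |y 3| + |y 4| ≤ 1) :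
    ∃ m : Fin 24, ∀ k, 2 * y k = (uZ m k : ℝ) := by
  have hs : y 1 * y 1 + y 2 * y 2 + y 3 * y 3 + y 4 * y 4 = 1 := by
    unfold bil at hy; rw [h0] at hy; linarith
  have habs : |y 1| * |y 1| + |y 2| * |y 2| + |y 3| * |y 3| + |y 4| * |y 4| = 1 := by
    simp only [abs_mul_abs_self]; exact hs
  have n1 := abs_nonneg (y 1)
  have n2 := abs_nonneg (y 2)
  have n3 := abs_nonneg (y 3)
  have n4 := abs_nonneg (y 4)
  have fin : ∀ m : Fin 24, 2 * y 1 = (uZ m 1 : ℝ) → 2 * y 2 = (uZ m 2 : ℝ) →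
      2 * y 3 = (uZ m 3 : ℝ) → 2 * y 4 = (uZ m 4 : ℝ) → (uZ m 0 = 2) →
      ∃ m : Fin 24, ∀ k, 2 * y k = (uZ m k : ℝ) := by
    intro m e1 e2 e3 e4 e0
    refine ⟨m, fun k => ?_⟩
    fin_cases k
    · show 2 * y 0 = (uZ m 0 : ℝ)
      rw [e0, h0]; norm_num
    · exact e1
    · exact e2
    · exact e3
    · exact e4
  by_cases c1 : 1 / 2 < |y 1|
  · obtain ⟨e1, e2, e3, e4⟩ := four_aux n1 n2 n3 n4 h12 h13 h14 habs c1
    rw [abs_eq_zero] at e2 e3 e4
    rcases eq_or_eq_neg_of_abs_eq e1 with e | e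
    · apply fin 0 <;> simp [uZ, e, e2, e3, e4]
    · apply fin 1 <;> simp [uZ, e, e2, e3, e4]
  by_cases c2 : 1 / 2 < |y 2|
  · obtain ⟨e2, e1, e3, e4⟩ := four_aux n2 n1 n3 n4 (by linarith) h23 h24 (by linarith) c2
    rw [abs_eq_zero] at e1 e3 e4
    rcases eq_or_eq_neg_of_abs_eq e2 with e | e
    · apply fin 2 <;> simp [uZ, e, e1, e3, e4]
    · apply fin 3 <;> simp [uZ, e, e1, e3, e4]
  by_cases c3 : 1 / 2 < |y 3|
  · obtain ⟨e3, e1, e2, e4⟩ := four_aux n3 n1 n2 n4 (by linarith) (by linarith) h34 (by linarith) c3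
    rw [abs_eq_zero] at e1 e2 e4
    rcases eq_or_eq_neg_of_abs_eq e3 with e | e
    · apply fin 4 <;> simp [uZ, e, e1, e2, e4]
    · apply fin 5 <;> simp [uZ, e, e1, e2, e4]
  by_cases c4 : 1 / 2 < |y 4|
  · obtain ⟨e4, e1, e2, e3⟩ :=
      four_aux n4 n1 n2 n3 (by linarith) (by linarith) (by linarith) (by linarith) c4
    rw [abs_eq_zero] at e1 e2 e3
    rcases eq_or_eq_neg_of_abs_eq e4 with e | e
    · apply fin 6 <;> simp [uZ, e, e1, e2, e3]
    · apply fin 7 <;> simp [uZ, e, e1, e2, e3]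
  push Not at c1 c2 c3 c4
  rcases half_or hs c1 c2 c3 c4 with f1 | f1 <;>
  rcases half_or (a := y 2) (b := y 1) (c := y 3) (d := y 4) (by linarith) c2 c1 c3 c4
    with f2 | f2 <;>
  rcases half_or (a := y 3) (b := y 1) (c := y 2) (d := y 4) (by linarith) c3 c1 c2 c4
    with f3 | f3 <;>
  rcases half_or (a := y 4) (b := y 1) (c := y 2) (d := y 3) (by linarith) c4 c1 c2 c3
    with f4 | f4
  · apply fin 8 <;> simp [uZ, f1, f2, f3, f4]
  · apply fin 9 <;> simp [uZ, f1, f2, f3, f4]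
  · apply fin 10 <;> simp [uZ, f1, f2, f3, f4]
  · apply fin 11 <;> simp [uZ, f1, f2, f3, f4]
  · apply fin 12 <;> simp [uZ, f1, f2, f3, f4]
  · apply fin 13 <;> simp [uZ, f1, f2, f3, f4]
  · apply fin 14 <;> simp [uZ, f1, f2, f3, f4]
  · apply fin 15 <;> simp [uZ, f1, f2, f3, f4]
  · apply fin 16 <;> simp [uZ, f1, f2, f3, f4]
  · apply fin 17 <;> simp [uZ, f1, f2, f3, f4]
  · apply fin 18 <;> simp [uZ, f1, f2, f3, f4]
  · apply fin 19 <;> simp [uZ, f1, f2, f3, f4]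
  · apply fin 20 <;> simp [uZ, f1, f2, f3, f4]
  · apply fin 21 <;> simp [uZ, f1, f2, f3, f4]
  · apply fin 22 <;> simp [uZ, f1, f2, f3, f4]
  · apply fin 23 <;> simp [uZ, f1, f2, f3, f4]

/-- The covering property: a point of the sphere in the chamber lies in a cap or is a cusp. -/
theorem cover_data (y : V) (h0 : y 0 = 1) (hy : bil y y = 0)
    (hS : ∀ s, bil y (rv (vZ s)) ≤ 0) :
    (∃ i, 0 < bil y (rv (nZ i))) ∨
      ∃ s t, s ≠ t ∧ ¬ bilZ (vZ s) (vZ t) = 0 ∧ bil (rv (vZ s)) (rv (vZ t)) = -1 ∧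
        rv (vZ s) + rv (vZ t) = (2 : ℝ) • y := by
  by_cases hI : ∃ i, 0 < bil y (rv (nZ i))
  · left; exact hI
  right
  push Not at hI
  have S0 := hS 0
  have S1 := hS 1
  have S2 := hS 2
  have S3 := hS 3
  have S4 := hS 4
  have S5 := hS 5
  have S6 := hS 6
  have S7 := hS 7
  have S8 := hS 8
  have S9 := hS 9
  have S10 := hS 10
  have S11 := hS 11
  have S12 := hS 12
  have S13 := hS 13
  have R0 := hI 0
  have R1 := hI 1
  have R2 := hI 2
  have R5 := hI 5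
  have R6 := hI 6
  have R7 := hI 7
  have R9 := hI 9
  have R12 := hI 12
  have R14 := hI 14
  have R16 := hI 16
  simp [bil, rv, vZ, h0] at S0 S1 S2 S3 S4 S5 S6 S7 S8 S9 S10 S11 S12 S13
  simp [bil, rv, nZ, h0] at R0 R1 R2 R5 R6 R7 R9 R12 R14 R16
  have key : ∀ a b : ℝ, a + b ≤ 1 → a - b ≤ 1 → -a + b ≤ 1 → -a - b ≤ 1 → |a| + |b| ≤ 1 := by
    intro a b h1 h2 h3 h4
    rcases abs_cases a with ⟨e, _⟩ | ⟨e, _⟩ <;> rcases abs_cases b with ⟨f, _⟩ | ⟨f, _⟩ <;>
      rw [e, f] <;> linarith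
  obtain ⟨m, hm⟩ := verts h0 hy
    (key _ _ (by linarith) (by linarith) (by linarith) (by linarith))
    (key _ _ (by linarith) (by linarith) (by linarith) (by linarith))
    (key _ _ (by linarith) (by linarith) (by linarith) (by linarith))
    (key _ _ (by linarith) (by linarith) (by linarith) (by linarith))
    (key _ _ (by linarith) (by linarith) (by linarith) (by linarith))
    (key _ _ (by linarith) (by linarith) (by linarith) (by linarith))
  have hmy : (2 : ℝ) • y = rv (uZ m) := by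
    ext k
    simp only [Pi.smul_apply, smul_eq_mul, rv]
    exact hm k
  rcases z_vert m with ⟨i, hi⟩ | ⟨s, t, hst, hb, hk⟩
  · exfalso
    have h1 := hI i
    have h2 : (0 : ℝ) < bil (rv (uZ m)) (rv (nZ i)) := by rw [bil_rv]; exact_mod_cast hi
    rw [← hmy] at h2
    have h3 : bil ((2 : ℝ) • y) (rv (nZ i)) = 2 * bil y (rv (nZ i)) := by
      simp only [bil, Pi.smul_apply, smul_eq_mul]; ring
    rw [h3] at h2
    linarith
  · refine ⟨s, t, hst, by rw [hb]; norm_num, by rw [bil_rv, hb]; norm_num, ?_⟩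
    rw [hmy]
    ext k
    simp only [Pi.add_apply, rv]
    exact_mod_cast hk k

end Pool.Agent.helper75.KL
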