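import Pool.Agent.helper75.KL.Geo

/-! The data of the construction, the right-angled Coxeter group, its action. -/

namespace Pool.Agent.helper75.KL

/-- The data of the construction: unit space-like vectors `v s` (walls), space-like vectors `n i`
(caps of the domain), colours, signs. -/
structure KD (S I : Type) where
  v : S → V
  n : I → V
  com : S → S → Prop
  v0 : ∀ s, v s 0 = 1
  vint : ∀ s k, ∃ m : ℤ, v s k = m
  vv : ∀ s, bil (v s) (v s) = 1
  com_symm : ∀ s t, com s t → com t s
  com_ne : ∀ s t, com s t → s ≠ t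
  com_orth : ∀ s t, com s t → bil (v s) (v t) = 0
  ncom : ∀ s t, s ≠ t → ¬ com s t → FC (v s + v t)
  n0 : ∀ i, 0 ≤ n i 0
  nn : ∀ i, 0 < bil (n i) (n i)
  sep : ∀ s i, bil (v s) (n i) ≠ 0 → ∃ a b : ℝ, 0 < a ∧ 0 < b ∧ FC (a • v s + b • n i)
  cover : ∀ y : V, y 0 = 1 → bil y y = 0 → (∀ s, bil y (v s) ≤ 0) →
    (∃ i, 0 < bil y (n i)) ∨
      ∃ s t, s ≠ t ∧ ¬ com s t ∧ bil (v s) (v t) = -1 ∧ v s + v t = (2 : ℝ) • y

variable {S I : Type} (D : KD S I)

open Classical in
/-- The right-angled Coxeter matrix of a symmetric irreflexive relation. -/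
noncomputable def raMat (R : S → S → Prop) (hs : ∀ s t, R s t → R t s) (_hn : ∀ s t, R s t → s ≠ t) :
    CoxeterMatrix S where
  M := Matrix.of fun s t => if s = t then 1 else if R s t then 2 else 0
  isSymm := by
    ext s t
    simp only [Matrix.transpose_apply, Matrix.of_apply]
    by_cases h : s = t
    · simp [h]
    · rw [if_neg h, if_neg (Ne.symm h)]
      by_cases h2 : R s t
      · rw [if_pos h2, if_pos (hs _ _ h2)]
      · rw [if_neg h2, if_neg (fun h3 => h2 (hs _ _ h3))]
  diagonal := by intro s; simp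
  off_diagonal := by
    intro s t h
    simp only [Matrix.of_apply]
    rw [if_neg h]
    split_ifs <;> norm_num

theorem raMat_lift {R : S → S → Prop} {hs : ∀ s t, R s t → R t s} {hn : ∀ s t, R s t → s ≠ t}
    {G : Type*} [Monoid G] (f : S → G) (h1 : ∀ s, f s * f s = 1)
    (h2 : ∀ s t, R s t → f s * f t = f t * f s) : (raMat R hs hn).IsLiftable f := by
  classical
  intro s t
  show (f s * f t) ^ (if s = t then 1 else if R s t then 2 else 0) = 1
  by_cases h : s = t
  · rw [if_pos h, pow_one, h, h1]
  · rw [if_neg h]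
    by_cases h3 : R s t
    · rw [if_pos h3, pow_two]
      calc f s * f t * (f s * f t) = f s * (f t * f s) * f t := by simp only [mul_assoc]
        _ = f s * (f s * f t) * f t := by rw [h2 _ _ h3]
        _ = (f s * f s) * (f t * f t) := by simp only [mul_assoc]
        _ = 1 := by rw [h1, h1, one_mul]
    · rw [if_neg h3, pow_zero]

theorem raMat_comm {R : S → S → Prop} {hs : ∀ s t, R s t → R t s} {hn : ∀ s t, R s t → s ≠ t}
    {G : Type*} [Group G] (cs : CoxeterSystem (raMat R hs hn) G) {s t : S} (h : R s t) :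
    cs.simple s * cs.simple t = cs.simple t * cs.simple s := by
  classical
  have h1 := cs.simple_mul_simple_pow s t
  have h2 : (raMat R hs hn) s t = 2 := by
    show (if s = t then 1 else if R s t then 2 else 0) = 2
    rw [if_neg (hn _ _ h), if_pos h]
  rw [h2, pow_two] at h1
  have h3 := eq_inv_of_mul_eq_one_left h1
  rw [h3, mul_inv_rev, cs.inv_simple, cs.inv_simple]

namespace KD

/-- The Coxeter matrix of the wall group. -/
noncomputable def cm : CoxeterMatrix S := raMat D.com D.com_symm D.com_ne

/-- The wall group. -/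
abbrev W : Type := D.cm.Group

/-- The Coxeter system. -/
noncomputable abbrev cs : CoxeterSystem D.cm D.W := D.cm.toCoxeterSystem

theorem simple_comm {s t : S} (h : D.com s t) :
    D.cs.simple s * D.cs.simple t = D.cs.simple t * D.cs.simple s := raMat_comm D.cs h

theorem liftable : D.cm.IsLiftable (fun s => (⟨rm (D.v s), rm_mem_Lor (D.vv s)⟩ : Lor)) :=
  raMat_lift _ (fun s => Subtype.ext (rm_sq (D.vv s)))
    (fun s t h => Subtype.ext (rm_comm (D.com_orth s t h)))

/-- The linear representation. -/
noncomputable def rho : D.W →* Lor := D.cs.lift ⟨_, D.liftable⟩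

theorem rho_simple (s : S) : (D.rho (D.cs.simple s)).1 = rm (D.v s) := by
  rw [rho, CoxeterSystem.lift_apply_simple]

/-- The linear action. -/
noncomputable def act (w : D.W) (x : V) : V := (D.rho w).1.mulVec x

theorem act_one (x : V) : D.act 1 x = x := by
  unfold act; rw [map_one]; exact Matrix.one_mulVec x

theorem act_mul (g w : D.W) (x : V) : D.act (g * w) x = D.act g (D.act w x) := by
  unfold act; rw [map_mul, Matrix.mulVec_mulVec]; rfl

theorem act_simple (s : S) (x : V) :
    D.act (D.cs.simple s) x = x - (2 * bil x (D.v s)) • D.v s := by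
  unfold act; rw [rho_simple, rm_mulVec]

theorem bil_act (w : D.W) (x y : V) : bil (D.act w x) (D.act w y) = bil x y :=
  (D.rho w).2 x y

theorem act_inv_act (w : D.W) (x : V) : D.act w⁻¹ (D.act w x) = x := by
  rw [← act_mul, inv_mul_cancel, act_one]

theorem act_act_inv (w : D.W) (x : V) : D.act w (D.act w⁻¹ x) = x := by
  rw [← act_mul, mul_inv_cancel, act_one]

theorem bil_act_left (w : D.W) (x y : V) : bil (D.act w x) y = bil x (D.act w⁻¹ y) := by
  rw [← D.bil_act w x, act_act_inv]

theorem act_smul (w : D.W) (c : ℝ) (x : V) : D.act w (c • x) = c • D.act w x := by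
  unfold act; rw [Matrix.mulVec_smul]

theorem act_add (w : D.W) (x y : V) : D.act w (x + y) = D.act w x + D.act w y := by
  unfold act; rw [Matrix.mulVec_add]

theorem act_FC (w : D.W) {x : V} (hx : FC x) : FC (D.act w x) := by
  induction w using D.cs.simple_induction_left with
  | one => rwa [act_one]
  | mul_simple_left w s ih =>
    rw [act_mul]
    unfold act
    rw [rho_simple]
    exact rm_FC (D.vv s) (D.v0 s) ih

/-- The fundamental chamber (in the future cone). -/
def P : Set V := {x | FC x ∧ ∀ s, bil x (D.v s) ≤ 0}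

theorem e0_mem_P : e0 ∈ D.P := ⟨FC_e0, fun s => by rw [bil_e0_left, D.v0]; norm_num⟩

theorem bil_ncom {s t : S} (h : s ≠ t) (hc : ¬ D.com s t) : bil (D.v s) (D.v t) ≤ -1 := by
  have h1 := (D.ncom s t h hc).2
  rw [bil_add_left, bil_add_right, bil_add_right, D.vv, D.vv, bil_comm (D.v t) (D.v s)] at h1
  linarith

theorem bil_sep {s : S} {i : I} (h : bil (D.v s) (D.n i) ≠ 0) : bil (D.v s) (D.n i) < 0 := by
  obtain ⟨a, b, ha, hb, h1⟩ := D.sep s i h
  have h2 := h1.2
  rw [bil_add_left, bil_add_right, bil_add_right, bil_smul_smul, bil_smul_smul, bil_smul_smul,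
    bil_smul_smul, D.vv, bil_comm (D.n i) (D.v s)] at h2
  have h3 := D.nn i
  by_contra hc
  push Not at hc
  have h4 : 0 ≤ a * b * bil (D.v s) (D.n i) := mul_nonneg (mul_pos ha hb).le hc
  have h5 : 0 < a * a := mul_pos ha ha
  have h6 : 0 < b * b * bil (D.n i) (D.n i) := mul_pos (mul_pos hb hb) h3
  nlinarith

theorem bil_vn_le (s : S) (i : I) : bil (D.v s) (D.n i) ≤ 0 := by
  by_cases h : bil (D.v s) (D.n i) = 0
  · rw [h]
  · exact (D.bil_sep h).le

/-- Tits lemma. -/
theorem tits (w : D.W) (s : S) (h : ¬ D.cs.IsLeftDescent w s) {x : V} (hx : x ∈ D.P) :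
    bil (D.act w x) (D.v s) ≤ 0 := by
  obtain ⟨k, hk⟩ : ∃ k, k = D.cs.length w := ⟨_, rfl⟩
  induction k using Nat.strong_induction_on generalizing w s with
  | _ k ih =>
    by_cases hw : w = 1
    · rw [hw, act_one]; exact hx.2 s
    obtain ⟨t, ht⟩ := D.cs.exists_leftDescent_of_ne_one hw
    have hts : t ≠ s := by rintro rfl; exact h ht
    set w' := D.cs.simple t * w with hw'
    have hww : w = D.cs.simple t * w' := by
      rw [hw', ← mul_assoc, D.cs.simple_mul_simple_self, one_mul]
    have hl : D.cs.length w' + 1 = D.cs.length w := (D.cs.isLeftDescent_iff).mp ht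
    have hnt : ¬ D.cs.IsLeftDescent w' t := by
      rw [D.cs.not_isLeftDescent_iff, ← hww]; exact hl.symm
    have h1 : bil (D.act w' x) (D.v t) ≤ 0 := ih _ (by omega) w' t hnt rfl
    have e : bil (D.act w x) (D.v s) =
        bil (D.act w' x) (D.v s) - 2 * bil (D.act w' x) (D.v t) * bil (D.v t) (D.v s) := by
      conv_lhs => rw [hww, act_mul, act_simple, bil_sub_left, bil_smul_left]
    rw [e]
    by_cases hc : D.com s t
    · have hns : ¬ D.cs.IsLeftDescent w' s := by
        intro hd
        apply h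
        have e2 : D.cs.simple s * w = D.cs.simple t * (D.cs.simple s * w') := by
          calc D.cs.simple s * w = D.cs.simple s * (D.cs.simple t * w') := congrArg _ hww
            _ = (D.cs.simple s * D.cs.simple t) * w' := (mul_assoc _ _ _).symm
            _ = (D.cs.simple t * D.cs.simple s) * w' := by rw [D.simple_comm hc]
            _ = _ := mul_assoc _ _ _
        have h2 : D.cs.length (D.cs.simple s * w') + 1 = D.cs.length w' :=
          (D.cs.isLeftDescent_iff).mp hd
        have h3 := D.cs.length_mul_le (D.cs.simple t) (D.cs.simple s * w')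
        rw [D.cs.length_simple] at h3
        unfold CoxeterSystem.IsLeftDescent
        rw [e2]
        omega
      have h2 : bil (D.act w' x) (D.v s) ≤ 0 := ih _ (by omega) w' s hns rfl
      rw [D.com_orth t s (D.com_symm _ _ hc)]
      linarith
    · have hF := D.ncom s t (Ne.symm hts) hc
      have h2 := (D.act_FC w' hx.1).bil_le hF
      rw [bil_add_right] at h2
      have h3 := D.bil_ncom (Ne.symm hts) hc
      rw [bil_comm (D.v t) (D.v s)]
      nlinarith

theorem tits' (w : D.W) (s : S) (h : D.cs.IsLeftDescent w s) {x : V} (hx : x ∈ D.P) :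
    0 ≤ bil (D.act w x) (D.v s) := by
  have h1 : ¬ D.cs.IsLeftDescent (D.cs.simple s * w) s :=
    (D.cs.isLeftDescent_iff_not_isLeftDescent_mul).mp h
  have h2 := D.tits _ s h1 hx
  rw [act_mul, act_simple, bil_sub_left, bil_smul_left, D.vv] at h2
  linarith

/-- Translates of a chamber point on the negative side of `n i` stay there. -/
theorem tits_n (i : I) (w : D.W) {x : V} (hx : x ∈ D.P) (hi : bil x (D.n i) ≤ 0) :
    bil (D.act w x) (D.n i) ≤ 0 := by
  obtain ⟨k, hk⟩ : ∃ k, k = D.cs.length w := ⟨_, rfl⟩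
  induction k using Nat.strong_induction_on generalizing w with
  | _ k ih =>
    by_cases hw : w = 1
    · rw [hw, act_one]; exact hi
    obtain ⟨t, ht⟩ := D.cs.exists_leftDescent_of_ne_one hw
    set w' := D.cs.simple t * w with hw'
    have hww : w = D.cs.simple t * w' := by
      rw [hw', ← mul_assoc, D.cs.simple_mul_simple_self, one_mul]
    have hl : D.cs.length w' + 1 = D.cs.length w := (D.cs.isLeftDescent_iff).mp ht
    have hnt : ¬ D.cs.IsLeftDescent w' t := by
      rw [D.cs.not_isLeftDescent_iff, ← hww]; exact hl.symm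
    have h1 : bil (D.act w' x) (D.v t) ≤ 0 := D.tits w' t hnt hx
    have h2 := ih _ (by omega) w' rfl
    have h3 := D.bil_vn_le t i
    rw [hww, act_mul, act_simple, bil_sub_left, bil_smul_left]
    nlinarith [mul_nonneg_of_nonpos_of_nonpos h1 h3]

theorem e0_tits_n (i : I) (w : D.W) : bil (D.act w e0) (D.n i) ≤ 0 :=
  D.tits_n i w D.e0_mem_P (by rw [bil_e0_left]; linarith [D.n0 i])

/-- Strict fundamental domain. -/
theorem fund {w : D.W} {x x' : V} (hx : x ∈ D.P) (hx' : x' ∈ D.P) (h : D.act w x = x') :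
    x = x' ∧ w ∈ Subgroup.closure (D.cs.simple '' {s | bil x (D.v s) = 0}) := by
  obtain ⟨k, hk⟩ : ∃ k, k = D.cs.length w := ⟨_, rfl⟩
  induction k using Nat.strong_induction_on generalizing w with
  | _ k ih =>
    by_cases hw : w = 1
    · rw [hw, act_one] at h
      exact ⟨h, by rw [hw]; exact Subgroup.one_mem _⟩
    obtain ⟨t, ht⟩ := D.cs.exists_leftDescent_of_ne_one hw
    have h1 := D.tits' w t ht hx
    rw [h] at h1
    have h2 : bil x' (D.v t) = 0 := le_antisymm (hx'.2 t) h1
    have hl : D.cs.length (D.cs.simple t * w) + 1 = D.cs.length w := (D.cs.isLeftDescent_iff).mp ht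
    have h3 : D.act (D.cs.simple t * w) x = x' := by
      rw [act_mul, h, act_simple, h2, mul_zero, zero_smul, sub_zero]
    obtain ⟨h4, h5⟩ := ih _ (by omega) h3 rfl
    refine ⟨h4, ?_⟩
    have h6 : D.cs.simple t ∈ Subgroup.closure (D.cs.simple '' {s | bil x (D.v s) = 0}) :=
      Subgroup.subset_closure ⟨t, by show bil x (D.v t) = 0; rw [h4]; exact h2, rfl⟩
    have h7 := Subgroup.mul_mem _ h6 h5
    rwa [← mul_assoc, D.cs.simple_mul_simple_self, one_mul] at h7

/-- Walls through a point of cap `i` are orthogonal to `n i`. -/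
theorem wall_inc {x : V} (hx : FC x) {s : S} {i : I} (hs : bil x (D.v s) = 0)
    (hi : 0 < bil x (D.n i)) : bil (D.v s) (D.n i) = 0 := by
  by_contra h
  obtain ⟨a, b, ha, hb, h1⟩ := D.sep s i h
  have h2 := hx.bil_le h1
  rw [bil_add_right, bil_smul_right, bil_smul_right, hs, mul_zero, zero_add] at h2
  nlinarith [mul_pos hb hi]

/-- Walls through a boundary point of cap `i` commute. -/
theorem wall_com {x : V} (hx0 : x 0 = 1) (hxx : bil x x = 0) {s t : S} {i : I}
    (hs : bil x (D.v s) = 0) (ht : bil x (D.v t) = 0)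
    (hi : 0 < bil x (D.n i)) (hst : s ≠ t) : D.com s t := by
  by_contra hc
  have hF := D.ncom s t hst hc
  have hx : FC x := ⟨by rw [hx0]; norm_num, hxx.le⟩
  have h1 : bil x (D.v s + D.v t) = 0 := by rw [bil_add_right, hs, ht, add_zero]
  have h2 : bil (D.v s + D.v t) (D.v s + D.v t) = 0 := by
    apply le_antisymm hF.2
    by_contra h3
    push Not at h3
    have := hF.bil_neg h3 hx (by rw [hx0]; norm_num)
    rw [bil_comm] at this
    linarith
  have h3 : (2 : ℝ)⁻¹ • (D.v s + D.v t) = x := by
    apply null_eq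
    · rw [bil_smul_smul, h2, mul_zero]
    · exact hxx
    · simp only [Pi.smul_apply, Pi.add_apply, smul_eq_mul, D.v0]; norm_num
    · exact hx0
    · rw [bil_smul_left, bil_comm, h1, mul_zero]
  have h4 := D.bil_vn_le s i
  have h5 := D.bil_vn_le t i
  rw [← h3, bil_smul_left, bil_add_left] at hi
  linarith

end KD

end Pool.Agent.helper75.KL
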