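import Pool.Agent.helper75.KL.Cox

/-! The explicit data: 14 of the 24 walls of the ideal 24-cell, 21 caps, colours and signs,
and the certificates checked by evaluation. -/

namespace Pool.Agent.helper75.KL

set_option maxRecDepth 20000

/-- The Lorentz form on integer vectors. -/
def bilZ (x y : Fin 5 → ℤ) : ℤ := -(x 0 * y 0) + x 1 * y 1 + x 2 * y 2 + x 3 * y 3 + x 4 * y 4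

/-- The 14 walls (roots of D4, with 0-th coordinate one). -/

def vZ : Fin 14 → Fin 5 → ℤ := ![
  ![1, -1, -1, 0, 0],
  ![1, 1, -1, 0, 0],
  ![1, 1, 1, 0, 0],
  ![1, -1, 0, 1, 0],
  ![1, 1, 0, -1, 0],
  ![1, 1, 0, 1, 0],
  ![1, -1, 0, 0, -1],
  ![1, 1, 0, 0, -1],
  ![1, 1, 0, 0, 1],
  ![1, 0, -1, 1, 0],
  ![1, 0, 1, 1, 0],
  ![1, 0, -1, 0, -1],
  ![1, 0, 0, -1, -1],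
  ![1, 0, 0, 1, -1]]

/-- The 21 caps, in shelling order. -/

def nZ : Fin 21 → Fin 5 → ℤ := ![
  ![1, -1, 1, 0, 0],
  ![1, -1, 0, -1, 0],
  ![1, -1, 0, 0, 1],
  ![16, -17, 1, -1, 1],
  ![19, -10, 10, -10, 10],
  ![1, 0, 1, -1, 0],
  ![1, 0, 1, 0, 1],
  ![1, 0, 0, -1, 1],
  ![17, -1, 18, -1, 0],
  ![1, 0, 1, 0, -1],
  ![17, -9, 10, -9, -8],
  ![17, -1, 0, -18, 1],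
  ![1, 0, -1, -1, 0],
  ![18, -9, -9, -10, 10],
  ![1, 0, -1, 0, 1],
  ![18, -1, 0, 0, 19],
  ![1, 0, 0, 1, 1],
  ![17, -9, 9, 8, 10],
  ![16, -8, -8, 8, 10],
  ![16, 7, -9, -9, 9],
  ![16, 7, 9, -9, 9]]

/-- Colours. -/

def colZ : Fin 14 → Fin 3 := ![0, 0, 0, 1, 1, 1, 2, 2, 2, 2, 2, 1, 0, 0]

/-- Signs. -/

def epsZ : Fin 14 → ℤ := ![-1, 1, -1, 1, 1, -1, 1, 1, 1, -1, -1, -1, 1, -1]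

/-- Light-like witnesses. -/

def qZ : Fin 22 → Fin 5 → ℤ := ![
  ![7, -4, 4, 1, 4],
  ![11, -8, 4, -5, 4],
  ![11, -5, -4, 4, 8],
  ![11, -5, 4, 4, 8],
  ![11, -4, -4, -5, 8],
  ![11, -4, 4, -5, 8],
  ![11, -4, 8, -5, -4],
  ![11, -4, 8, -5, 4],
  ![15, -8, -4, -9, 8],
  ![15, -8, 8, -9, -4],
  ![15, 4, -8, -9, 8],
  ![15, 4, 8, -9, 8],
  ![19, -8, -8, -13, 8],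
  ![19, -8, 8, -13, 8],
  ![21, -20, 4, -3, 4],
  ![21, -4, -4, -3, 20],
  ![21, -4, 20, -3, -4],
  ![21, -4, 20, -3, 4],
  ![29, -4, 4, 5, 28],
  ![33, -8, -8, -31, 0],
  ![33, -8, 0, -31, 8],
  ![33, -8, 8, -31, 0]]

def parZ : Fin 21 → Fin 21 := ![0, 0, 0, 0, 0, 0, 0, 4, 0, 0, 0, 1, 1, 1, 7, 2, 2, 2, 2, 7, 5]

def nxtZ : Fin 21 → Fin 21 → Fin 21 := ![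
  ![0, 0, 0, 0, 0, 0, 0, 0, 0, 0, 0, 0, 0, 0, 0, 0, 0, 2, 0, 0, 0],
  ![0, 0, 0, 0, 0, 0, 0, 4, 0, 0, 0, 1, 1, 1, 0, 0, 0, 0, 0, 0, 0],
  ![0, 0, 0, 0, 0, 0, 0, 4, 0, 0, 0, 0, 0, 1, 7, 2, 2, 2, 2, 0, 0],
  ![0, 0, 0, 0, 0, 0, 0, 0, 0, 0, 0, 0, 0, 0, 0, 0, 0, 0, 0, 0, 0],
  ![0, 0, 0, 0, 0, 0, 0, 4, 0, 0, 0, 0, 0, 0, 0, 0, 0, 0, 0, 0, 0],
  ![0, 0, 0, 0, 0, 0, 0, 4, 0, 0, 0, 1, 0, 0, 0, 0, 0, 0, 0, 0, 5],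
  ![0, 0, 0, 0, 0, 0, 0, 4, 0, 0, 0, 0, 0, 0, 0, 2, 2, 2, 0, 0, 5],
  ![0, 0, 0, 0, 0, 0, 0, 0, 0, 0, 0, 1, 1, 1, 7, 2, 0, 0, 0, 7, 5],
  ![0, 0, 0, 0, 0, 0, 0, 0, 0, 0, 0, 0, 0, 0, 0, 0, 0, 0, 0, 0, 0],
  ![0, 0, 0, 0, 0, 0, 0, 0, 0, 0, 0, 0, 0, 0, 0, 0, 0, 0, 0, 0, 0],
  ![0, 0, 0, 0, 0, 0, 0, 0, 0, 0, 0, 0, 0, 0, 0, 0, 0, 0, 0, 0, 0],
  ![0, 0, 0, 0, 0, 0, 0, 0, 0, 0, 0, 0, 1, 0, 0, 0, 0, 0, 0, 0, 0],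
  ![0, 0, 0, 0, 0, 0, 0, 0, 0, 0, 0, 0, 0, 1, 7, 0, 0, 0, 0, 7, 0],
  ![0, 0, 0, 0, 0, 0, 0, 0, 0, 0, 0, 0, 0, 0, 7, 0, 0, 0, 0, 0, 0],
  ![0, 0, 0, 0, 0, 0, 0, 0, 0, 0, 0, 0, 0, 0, 0, 2, 2, 0, 2, 7, 0],
  ![0, 0, 0, 0, 0, 0, 0, 0, 0, 0, 0, 0, 0, 0, 0, 0, 2, 0, 0, 0, 0],
  ![0, 0, 0, 0, 0, 0, 0, 0, 0, 0, 0, 0, 0, 0, 0, 0, 0, 2, 2, 0, 0],
  ![0, 0, 0, 0, 0, 0, 0, 0, 0, 0, 0, 0, 0, 0, 0, 0, 0, 0, 0, 0, 0],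
  ![0, 0, 0, 0, 0, 0, 0, 0, 0, 0, 0, 0, 0, 0, 0, 0, 0, 0, 0, 0, 0],
  ![0, 0, 0, 0, 0, 0, 0, 0, 0, 0, 0, 0, 0, 0, 0, 0, 0, 0, 0, 0, 0],
  ![0, 0, 0, 0, 0, 0, 0, 0, 0, 0, 0, 0, 0, 0, 0, 0, 0, 0, 0, 0, 0]]

def rkZ : Fin 21 → Fin 21 → ℕ := ![
  ![0, 0, 0, 0, 0, 0, 0, 0, 0, 0, 0, 0, 0, 0, 0, 0, 0, 1, 0, 0, 0],
  ![0, 0, 1, 1, 1, 1, 0, 1, 0, 0, 1, 0, 0, 0, 0, 0, 0, 0, 0, 0, 0],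
  ![0, 0, 0, 1, 1, 0, 1, 1, 0, 0, 0, 0, 0, 1, 1, 0, 0, 0, 0, 0, 0],
  ![0, 0, 0, 0, 0, 0, 0, 0, 0, 0, 0, 0, 0, 0, 0, 0, 0, 0, 0, 0, 0],
  ![0, 0, 0, 0, 0, 1, 1, 0, 0, 0, 0, 0, 0, 0, 0, 0, 0, 0, 0, 0, 0],
  ![0, 0, 0, 0, 0, 0, 1, 1, 1, 1, 1, 1, 0, 0, 0, 0, 0, 0, 0, 0, 0],
  ![0, 0, 0, 0, 0, 0, 0, 1, 1, 0, 0, 0, 0, 0, 0, 1, 1, 1, 0, 0, 1],
  ![0, 0, 0, 0, 0, 0, 0, 0, 0, 0, 0, 1, 1, 1, 0, 1, 0, 0, 0, 0, 1],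
  ![0, 0, 0, 0, 0, 0, 0, 0, 0, 1, 0, 0, 0, 0, 0, 0, 0, 0, 0, 0, 0],
  ![0, 0, 0, 0, 0, 0, 0, 0, 0, 0, 1, 0, 0, 0, 0, 0, 0, 0, 0, 0, 0],
  ![0, 0, 0, 0, 0, 0, 0, 0, 0, 0, 0, 0, 0, 0, 0, 0, 0, 0, 0, 0, 0],
  ![0, 0, 0, 0, 0, 0, 0, 0, 0, 0, 0, 0, 1, 0, 0, 0, 0, 0, 0, 0, 0],
  ![0, 0, 0, 0, 0, 0, 0, 0, 0, 0, 0, 0, 0, 1, 1, 0, 0, 0, 0, 1, 0],
  ![0, 0, 0, 0, 0, 0, 0, 0, 0, 0, 0, 0, 0, 0, 1, 0, 0, 0, 0, 0, 0],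
  ![0, 0, 0, 0, 0, 0, 0, 0, 0, 0, 0, 0, 0, 0, 0, 1, 1, 0, 1, 1, 0],
  ![0, 0, 0, 0, 0, 0, 0, 0, 0, 0, 0, 0, 0, 0, 0, 0, 1, 0, 0, 0, 0],
  ![0, 0, 0, 0, 0, 0, 0, 0, 0, 0, 0, 0, 0, 0, 0, 0, 0, 1, 1, 0, 0],
  ![0, 0, 0, 0, 0, 0, 0, 0, 0, 0, 0, 0, 0, 0, 0, 0, 0, 0, 0, 0, 0],
  ![0, 0, 0, 0, 0, 0, 0, 0, 0, 0, 0, 0, 0, 0, 0, 0, 0, 0, 0, 0, 0],
  ![0, 0, 0, 0, 0, 0, 0, 0, 0, 0, 0, 0, 0, 0, 0, 0, 0, 0, 0, 0, 0],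
  ![0, 0, 0, 0, 0, 0, 0, 0, 0, 0, 0, 0, 0, 0, 0, 0, 0, 0, 0, 0, 0]]

def rootZ : Fin 14 → Fin 21 := ![1, 12, 5, 0, 5, 16, 0, 9, 6, 14, 0, 12, 1, 9]

def nxtSZ : Fin 14 → Fin 21 → Fin 21 := ![
  ![0, 1, 1, 1, 0, 0, 0, 0, 0, 0, 0, 0, 1, 1, 2, 0, 0, 0, 2, 0, 0],
  ![0, 0, 0, 0, 0, 0, 0, 0, 0, 0, 0, 0, 12, 0, 12, 0, 0, 0, 0, 12, 0],
  ![0, 0, 0, 0, 0, 5, 5, 0, 5, 5, 0, 0, 0, 0, 0, 0, 0, 0, 0, 0, 5],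
  ![0, 0, 0, 0, 0, 0, 0, 0, 0, 0, 0, 0, 0, 0, 0, 0, 2, 0, 2, 0, 0],
  ![0, 0, 0, 0, 0, 5, 0, 5, 0, 0, 0, 5, 7, 0, 0, 0, 0, 0, 0, 7, 5],
  ![0, 0, 0, 0, 0, 0, 0, 0, 0, 0, 0, 0, 0, 0, 0, 0, 16, 0, 0, 0, 0],
  ![0, 0, 0, 0, 0, 0, 0, 0, 0, 0, 0, 0, 0, 0, 0, 0, 0, 0, 0, 0, 0],
  ![0, 0, 0, 0, 0, 0, 0, 0, 0, 9, 0, 0, 0, 0, 0, 0, 0, 0, 0, 0, 0],
  ![0, 0, 0, 0, 0, 0, 6, 6, 0, 0, 0, 0, 0, 0, 7, 6, 6, 0, 0, 7, 6],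
  ![0, 0, 0, 0, 0, 0, 0, 0, 0, 0, 0, 0, 0, 0, 14, 0, 14, 0, 14, 0, 0],
  ![0, 0, 0, 0, 0, 0, 0, 0, 0, 0, 0, 0, 0, 0, 0, 0, 6, 0, 0, 0, 0],
  ![0, 0, 0, 0, 0, 0, 0, 0, 0, 0, 0, 0, 12, 0, 0, 0, 0, 0, 0, 0, 0],
  ![0, 1, 0, 0, 0, 1, 0, 0, 0, 5, 1, 1, 1, 0, 0, 0, 0, 0, 0, 0, 0],
  ![0, 0, 0, 0, 0, 0, 0, 0, 0, 9, 0, 0, 0, 0, 0, 0, 0, 0, 0, 0, 0]]

def rkSZ : Fin 14 → Fin 21 → ℕ := ![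
  ![0, 0, 1, 1, 0, 0, 0, 0, 0, 0, 0, 0, 1, 1, 2, 0, 0, 0, 2, 0, 0],
  ![0, 0, 0, 0, 0, 0, 0, 0, 0, 0, 0, 0, 0, 0, 1, 0, 0, 0, 0, 1, 0],
  ![0, 0, 0, 0, 0, 0, 1, 0, 1, 1, 0, 0, 0, 0, 0, 0, 0, 0, 0, 0, 1],
  ![0, 0, 1, 1, 0, 0, 0, 0, 0, 0, 0, 0, 0, 0, 0, 0, 2, 1, 2, 0, 0],
  ![0, 0, 0, 0, 0, 0, 0, 1, 0, 0, 0, 1, 2, 0, 0, 0, 0, 0, 0, 2, 1],
  ![0, 0, 0, 0, 0, 0, 0, 0, 0, 0, 0, 0, 0, 0, 0, 0, 0, 0, 0, 0, 0],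
  ![0, 1, 0, 1, 0, 0, 0, 0, 0, 1, 1, 0, 0, 0, 0, 0, 0, 0, 0, 0, 0],
  ![0, 0, 0, 0, 0, 0, 0, 0, 0, 0, 0, 0, 0, 0, 0, 0, 0, 0, 0, 0, 0],
  ![0, 0, 0, 0, 0, 0, 0, 1, 0, 0, 0, 0, 0, 0, 2, 1, 1, 0, 0, 2, 1],
  ![0, 0, 0, 0, 0, 0, 0, 0, 0, 0, 0, 0, 0, 0, 0, 0, 1, 0, 1, 0, 0],
  ![0, 0, 0, 0, 0, 0, 1, 0, 1, 1, 0, 0, 0, 0, 0, 0, 2, 1, 0, 0, 0],
  ![0, 0, 0, 0, 0, 0, 0, 0, 0, 0, 0, 0, 0, 0, 0, 0, 0, 0, 0, 0, 0],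
  ![0, 0, 0, 0, 0, 1, 0, 0, 0, 2, 1, 1, 1, 0, 0, 0, 0, 0, 0, 0, 0],
  ![0, 0, 0, 0, 0, 0, 0, 0, 0, 0, 0, 0, 0, 0, 0, 0, 0, 0, 0, 0, 0]]

def sgZ : Fin 8 → Fin 3 → ℤ := ![
  ![1, 1, 1],
  ![1, 1, -1],
  ![1, -1, 1],
  ![1, -1, -1],
  ![-1, 1, 1],
  ![-1, 1, -1],
  ![-1, -1, 1],
  ![-1, -1, -1]]

def srZ : Fin 8 → Fin 14 := ![5, 7, 10, 7, 1, 1, 1, 12]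

def spZ : Fin 8 → Fin 14 → Fin 14 := ![
  ![9, 0, 10, 0, 0, 5, 0, 0, 0, 5, 5, 0, 0, 10],
  ![6, 0, 7, 0, 0, 8, 13, 7, 2, 0, 0, 0, 0, 7],
  ![3, 0, 10, 10, 2, 0, 0, 0, 0, 3, 10, 0, 0, 10],
  ![6, 0, 7, 6, 2, 0, 13, 7, 2, 0, 0, 0, 0, 7],
  ![0, 1, 0, 0, 0, 9, 0, 0, 0, 1, 5, 1, 11, 0],
  ![0, 1, 0, 0, 0, 8, 12, 12, 1, 0, 0, 1, 11, 0],
  ![0, 1, 0, 9, 1, 0, 0, 0, 0, 1, 3, 0, 4, 0],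
  ![0, 4, 0, 6, 12, 0, 12, 12, 4, 0, 0, 0, 12, 0]]

def skZ : Fin 8 → Fin 14 → ℕ := ![
  ![2, 0, 2, 0, 0, 0, 0, 0, 0, 1, 1, 3, 0, 2],
  ![3, 0, 1, 0, 0, 3, 2, 0, 2, 0, 0, 4, 0, 1],
  ![2, 0, 1, 1, 2, 0, 0, 0, 0, 2, 0, 0, 0, 1],
  ![3, 0, 1, 3, 2, 0, 2, 0, 2, 0, 0, 0, 0, 1],
  ![0, 0, 0, 0, 0, 2, 0, 0, 0, 1, 3, 1, 2, 0],
  ![0, 0, 0, 0, 0, 2, 3, 3, 1, 0, 0, 1, 2, 0],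
  ![0, 0, 0, 2, 1, 0, 0, 0, 0, 1, 3, 0, 2, 0],
  ![0, 2, 0, 2, 1, 0, 1, 1, 2, 0, 0, 0, 0, 0]]

/-- Twice the 24 ideal vertices. -/

def uZ : Fin 24 → Fin 5 → ℤ := ![
  ![2, 2, 0, 0, 0],
  ![2, -2, 0, 0, 0],
  ![2, 0, 2, 0, 0],
  ![2, 0, -2, 0, 0],
  ![2, 0, 0, 2, 0],
  ![2, 0, 0, -2, 0],
  ![2, 0, 0, 0, 2],
  ![2, 0, 0, 0, -2],
  ![2, 1, 1, 1, 1],
  ![2, 1, 1, 1, -1],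
  ![2, 1, 1, -1, 1],
  ![2, 1, 1, -1, -1],
  ![2, 1, -1, 1, 1],
  ![2, 1, -1, 1, -1],
  ![2, 1, -1, -1, 1],
  ![2, 1, -1, -1, -1],
  ![2, -1, 1, 1, 1],
  ![2, -1, 1, 1, -1],
  ![2, -1, 1, -1, 1],
  ![2, -1, 1, -1, -1],
  ![2, -1, -1, 1, 1],
  ![2, -1, -1, 1, -1],
  ![2, -1, -1, -1, 1],
  ![2, -1, -1, -1, -1]]

/-- Integer vector as a real vector. -/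
def rv (x : Fin 5 → ℤ) : V := fun k => (x k : ℝ)

theorem bil_rv (x y : Fin 5 → ℤ) : bil (rv x) (rv y) = (bilZ x y : ℝ) := by
  unfold bil bilZ rv
  push_cast
  ring

theorem FC_rv {x : Fin 5 → ℤ} (h0 : 0 ≤ x 0) (h : bilZ x x ≤ 0) : FC (rv x) :=
  ⟨by unfold rv; exact_mod_cast h0, by rw [bil_rv]; exact_mod_cast h⟩

theorem z_v0 : ∀ s, vZ s 0 = 1 := by decide +kernel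
theorem z_vv : ∀ s, bilZ (vZ s) (vZ s) = 1 := by decide +kernel
theorem z_ncom : ∀ s t, s ≠ t → bilZ (vZ s) (vZ t) ≠ 0 →
    bilZ (fun k => vZ s k + vZ t k) (fun k => vZ s k + vZ t k) ≤ 0 := by decide +kernel
theorem z_n0 : ∀ i, 0 ≤ nZ i 0 := by decide +kernel
theorem z_nn : ∀ i, 0 < bilZ (nZ i) (nZ i) := by decide +kernel
theorem z_sep : ∀ s i, bilZ (vZ s) (nZ i) ≠ 0 → ∃ a b : Fin 8,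
    0 < (a : ℕ) ∧ 0 < (b : ℕ) ∧
    0 ≤ (a : ℕ) * vZ s 0 + (b : ℕ) * nZ i 0 ∧
    bilZ (fun k => (a : ℕ) * vZ s k + (b : ℕ) * nZ i k)
      (fun k => (a : ℕ) * vZ s k + (b : ℕ) * nZ i k) ≤ 0 := by decide +kernel
theorem z_col : ∀ s t, bilZ (vZ s) (vZ t) = 0 → colZ s ≠ colZ t := by decide +kernel
theorem z_eps : ∀ s, epsZ s = 1 ∨ epsZ s = -1 := by decide +kernel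
theorem z_chart : ∀ i, nZ i 3 ≤ nZ i 0 := by decide +kernel
/-- Each ideal vertex lies in a cap or is a cusp. -/
theorem z_vert : ∀ m, (∃ i, 0 < bilZ (uZ m) (nZ i)) ∨
    ∃ s t, s ≠ t ∧ bilZ (vZ s) (vZ t) = -1 ∧ ∀ k, vZ s k + vZ t k = uZ m k := by decide +kernel
theorem z_q : ∀ m, 0 < qZ m 0 ∧ bilZ (qZ m) (qZ m) = 0 := by decide +kernel
theorem z_par : ∀ k : Fin 21, k ≠ 0 → parZ k < k ∧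
    ∃ m, 0 < bilZ (qZ m) (nZ (parZ k)) ∧ 0 < bilZ (qZ m) (nZ k) := by decide +kernel
theorem z_nxt : ∀ j k : Fin 21, j < k → j ≠ parZ k →
    (nxtZ j k < k ∧ (∃ m, 0 < bilZ (qZ m) (nZ j) ∧ 0 < bilZ (qZ m) (nZ (nxtZ j k)) ∧
      0 < bilZ (qZ m) (nZ k)) ∧ rkZ (nxtZ j k) k < rkZ j k) ∨
    ∃ a b : Fin 8, 0 < (a : ℕ) ∧ 0 < (b : ℕ) ∧
      0 ≤ (a : ℕ) * nZ j 0 + (b : ℕ) * nZ k 0 ∧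
      bilZ (fun l => (a : ℕ) * nZ j l + (b : ℕ) * nZ k l)
      (fun l => (a : ℕ) * nZ j l + (b : ℕ) * nZ k l) ≤ 0 := by decide +kernel
theorem z_root : ∀ s, bilZ (vZ s) (nZ (rootZ s)) = 0 := by decide +kernel
theorem z_nxtS : ∀ s i, bilZ (vZ s) (nZ i) = 0 → i ≠ rootZ s →
    bilZ (vZ s) (nZ (nxtSZ s i)) = 0 ∧
    (∃ m, 0 < bilZ (qZ m) (nZ i) ∧ 0 < bilZ (qZ m) (nZ (nxtSZ s i))) ∧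
    rkSZ s (nxtSZ s i) < rkSZ s i := by decide +kernel
theorem z_state : ∀ c : Fin 8, ∀ s, sgZ c (colZ s) * epsZ s = -1 → s ≠ srZ c →
    (sgZ c (colZ (spZ c s)) * epsZ (spZ c s) = -1 ∧ bilZ (vZ s) (vZ (spZ c s)) = 0 ∧
    (∃ i, bilZ (vZ s) (nZ i) = 0 ∧ bilZ (vZ (spZ c s)) (nZ i) = 0) ∧
    skZ c (spZ c s) < skZ c s) := by decide +kernel
theorem z_special : bilZ (vZ 3) (vZ 13) = 0 ∧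
    ∀ i, bilZ (vZ 3) (nZ i) = 0 → bilZ (vZ 13) (nZ i) ≠ 0 := by decide +kernel

end Pool.Agent.helper75.KL
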