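import Mathlib

/-!
Definitions used in the statement about Kleinian subgroups of `SO(1,4)`:
the Lorentz form on `ℝ⁵`, the group `SO(1,4)`, the sphere at infinity `S³` of hyperbolic
4-space, the action on it, discrete subgroups, limit sets, and quotients.
-/

namespace Pool.Agent.helper75.KL

/-- The vector space `ℝ⁵`, with coordinates numbered `0, …, 4`. -/
abbrev V : Type := Fin 5 → ℝ

/-- The Lorentz form `-x₀y₀ + x₁y₁ + x₂y₂ + x₃y₃ + x₄y₄` on `ℝ⁵`. -/
def bil (x y : V) : ℝ := -(x 0 * y 0) + x 1 * y 1 + x 2 * y 2 + x 3 * y 3 + x 4 * y 4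

/-- The base point `e₀ = (1,0,0,0,0)` of hyperbolic space. -/
def e0 : V := ![1, 0, 0, 0, 0]

/-- The monoid of real `5 × 5` matrices preserving the Lorentz form. -/
def Lor : Submonoid (Matrix (Fin 5) (Fin 5) ℝ) where
  carrier := {A | ∀ x y : V, bil (A.mulVec x) (A.mulVec y) = bil x y}
  mul_mem' := by
    intro A B hA hB x y
    rw [← Matrix.mulVec_mulVec, ← Matrix.mulVec_mulVec]
    exact (hA _ _).trans (hB _ _)
  one_mem' := by
    intro x y
    simp

/-- The matrices of determinant one preserving the Lorentz form, as a subgroup of `SL(5,ℝ)`. -/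
def SO14sub : Subgroup (Matrix.SpecialLinearGroup (Fin 5) ℝ) where
  carrier := {A | (A : Matrix (Fin 5) (Fin 5) ℝ) ∈ Lor}
  mul_mem' := by
    intro A B hA hB
    have : ((A * B : Matrix.SpecialLinearGroup (Fin 5) ℝ) : Matrix (Fin 5) (Fin 5) ℝ) =
      (A : Matrix (Fin 5) (Fin 5) ℝ) * (B : Matrix (Fin 5) (Fin 5) ℝ) := rfl
    show _ ∈ Lor
    rw [this]
    exact Lor.mul_mem hA hB
  one_mem' := Lor.one_mem
  inv_mem' := by
    intro A hA x y
    have h := hA (((A⁻¹ : Matrix.SpecialLinearGroup (Fin 5) ℝ) :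
      Matrix (Fin 5) (Fin 5) ℝ).mulVec x)
      (((A⁻¹ : Matrix.SpecialLinearGroup (Fin 5) ℝ) : Matrix (Fin 5) (Fin 5) ℝ).mulVec y)
    have e : (A : Matrix (Fin 5) (Fin 5) ℝ) *
        ((A⁻¹ : Matrix.SpecialLinearGroup (Fin 5) ℝ) : Matrix (Fin 5) (Fin 5) ℝ) = 1 :=
      congrArg Subtype.val (mul_inv_cancel A)
    rw [Matrix.mulVec_mulVec, Matrix.mulVec_mulVec, e, Matrix.one_mulVec, Matrix.one_mulVec] at h
    exact h.symm

/-- The group `SO(1,4)`: real `5 × 5` matrices of determinant one preserving the Lorentz form. -/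
abbrev SO14 : Type := SO14sub

instance : Group SO14 := SO14sub.toGroup

/-- The topology of matrix entries. -/
instance : TopologicalSpace SO14 := instTopologicalSpaceSubtype

/-- The matrix of an element of `SO(1,4)`. -/
abbrev SO14.mat (A : SO14) : Matrix (Fin 5) (Fin 5) ℝ := A.1.1

/-- The sphere at infinity of hyperbolic 4-space: light-like lines, each represented by its
vector with `0`-th coordinate one.  It is the unit sphere `S³` of the hyperplane `y₀ = 1`. -/
abbrev Sph : Type := {y : V // y 0 = 1 ∧ bil y y = 0}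

/-- Scaling a vector to `0`-th coordinate one (the projective, or Klein, model). -/
noncomputable def kl (x : V) : V := (x 0)⁻¹ • x

theorem bil_smul_smul (a b : ℝ) (x y : V) : bil (a • x) (b • y) = a * b * bil x y := by
  simp only [bil, Pi.smul_apply, smul_eq_mul]; ring

theorem ne_zero_of_bil {x : V} (hx : bil x x = 0) (h0 : x 0 = 0) : x = 0 := by
  unfold bil at hx
  rw [h0] at hx
  have a1 := mul_self_nonneg (x 1)
  have a2 := mul_self_nonneg (x 2)
  have a3 := mul_self_nonneg (x 3)
  have a4 := mul_self_nonneg (x 4)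
  have b1 : x 1 = 0 := mul_self_eq_zero.mp (by linarith)
  have b2 : x 2 = 0 := mul_self_eq_zero.mp (by linarith)
  have b3 : x 3 = 0 := mul_self_eq_zero.mp (by linarith)
  have b4 : x 4 = 0 := mul_self_eq_zero.mp (by linarith)
  funext k
  fin_cases k
  · exact h0
  · exact b1
  · exact b2
  · exact b3
  · exact b4

theorem kl_smul {c : ℝ} (hc : c ≠ 0) (x : V) : kl (c • x) = kl x := by
  unfold kl
  rw [smul_smul, Pi.smul_apply, smul_eq_mul]
  congr 1
  rw [mul_inv]
  field_simp

theorem kl_mulVec_kl (A : Matrix (Fin 5) (Fin 5) ℝ) (x : V) (h : x 0 ≠ 0) :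
    kl (A.mulVec (kl x)) = kl (A.mulVec x) := by
  have e : kl x = (x 0)⁻¹ • x := rfl
  rw [e, Matrix.mulVec_smul]
  exact kl_smul (inv_ne_zero h) _

theorem bil_kl {x : V} (hx : bil x x = 0) : bil (kl x) (kl x) = 0 := by
  rw [kl, bil_smul_smul, hx, mul_zero]

theorem kl_zero {x : V} (h : x 0 ≠ 0) : kl x 0 = 1 := by
  simp [kl, h]

theorem Lor.inj {A : Matrix (Fin 5) (Fin 5) ℝ} (hA : A ∈ Lor) {x : V} (h : A.mulVec x = 0) :
    x = 0 := by
  have key : ∀ y : V, bil x y = 0 := by
    intro y
    rw [← hA x y, h]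
    simp [bil]
  have k0 := key (Pi.single 0 1)
  have k1 := key (Pi.single 1 1)
  have k2 := key (Pi.single 2 1)
  have k3 := key (Pi.single 3 1)
  have k4 := key (Pi.single 4 1)
  simp [bil] at k0 k1 k2 k3 k4
  funext k
  fin_cases k
  · exact k0
  · exact k1
  · exact k2
  · exact k3
  · exact k4

theorem Lor.mulVec_zero_ne {A : Matrix (Fin 5) (Fin 5) ℝ} (hA : A ∈ Lor) {y : V}
    (h0 : y 0 = 1) (hy : bil y y = 0) : (A.mulVec y) 0 ≠ 0 := by
  intro h
  have h1 : bil (A.mulVec y) (A.mulVec y) = 0 := (hA y y).trans hy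
  have h2 := Lor.inj hA (ne_zero_of_bil h1 h)
  rw [h2] at h0
  simp at h0

/-- The action of a Lorentz matrix on the sphere at infinity. -/
noncomputable instance : MulAction Lor Sph where
  smul A y := ⟨kl (A.1.mulVec y.1), kl_zero (Lor.mulVec_zero_ne A.2 y.2.1 y.2.2),
    bil_kl ((A.2 _ _).trans y.2.2)⟩
  one_smul y := by
    apply Subtype.ext
    show kl ((1 : Matrix (Fin 5) (Fin 5) ℝ).mulVec y.1) = y.1
    rw [Matrix.one_mulVec, kl, y.2.1, inv_one, one_smul]
  mul_smul A B y := by
    apply Subtype.ext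
    show kl ((A.1 * B.1).mulVec y.1) = kl (A.1.mulVec (kl (B.1.mulVec y.1)))
    rw [kl_mulVec_kl _ _ (Lor.mulVec_zero_ne B.2 y.2.1 y.2.2), Matrix.mulVec_mulVec]

/-- The inclusion of `SO(1,4)` in the monoid of Lorentz matrices. -/
def toLor : SO14 →* Lor where
  toFun A := ⟨A.mat, A.2⟩
  map_one' := rfl
  map_mul' _ _ := rfl

/-- The action of `SO(1,4)` on the sphere at infinity: apply the matrix and rescale. -/
noncomputable instance : MulAction SO14 Sph := MulAction.compHom Sph toLor

/-- The image of the base point of hyperbolic space under `A`, in the Klein ball model. -/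
noncomputable def orbPt (A : SO14) : V := kl (A.mat.mulVec e0)

/-- The limit set of a subgroup `H` of `SO(1,4)`: the points of the sphere at infinity in the
closure (in the closed ball model) of the orbit of the base point of hyperbolic space. -/
def limitSet (H : Subgroup SO14) : Set Sph := {y | y.1 ∈ closure {p : V | ∃ A ∈ H, p = orbPt A}}

/-- A Kleinian group: a discrete subgroup of `SO(1,4)` (for the topology of matrix entries). -/
def IsKleinian (H : Subgroup SO14) : Prop := DiscreteTopology H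

/-- Two points of `Ω` are equivalent if an element of `F` maps one to the other. -/
def orbSetoid (F : Subgroup SO14) (Ω : Set Sph) : Setoid Ω where
  r y y' := ∃ A ∈ F, A • (y' : Sph) = y
  iseqv := {
    refl := fun y => ⟨1, F.one_mem, one_smul _ _⟩
    symm := by
      rintro y y' ⟨A, hA, h⟩
      exact ⟨A⁻¹, F.inv_mem hA, by rw [← h, inv_smul_smul]⟩
    trans := by
      rintro y y' y'' ⟨A, hA, h⟩ ⟨B, hB, h'⟩
      exact ⟨A * B, F.mul_mem hA hB, by rw [mul_smul, h', h]⟩ }

/-- The quotient space `Ω/F` (with the quotient topology). -/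
abbrev QuotSp (F : Subgroup SO14) (Ω : Set Sph) : Type := Quotient (orbSetoid F Ω)

/-- `Ω` is a connected component of the domain of discontinuity of `G`. -/
def IsComponentOf (Ω : Set Sph) (G : Subgroup SO14) : Prop :=
  ∃ y ∈ (limitSet G)ᶜ, Ω = connectedComponentIn (limitSet G)ᶜ y

/-- The setting of the question: `F`, `G` are finitely generated Kleinian groups, `F` is normal
in `G` of infinite index and non-elementary, and `Ω` is a `G`-invariant component of the domain of
discontinuity of `G`. -/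
def Setting (F G : Subgroup SO14) (Ω : Set Sph) : Prop :=
  IsKleinian F ∧ IsKleinian G ∧ F.FG ∧ G.FG ∧ F ≤ G ∧ (F.subgroupOf G).Normal ∧
    (F.subgroupOf G).index = 0 ∧ (limitSet F).Infinite ∧ IsComponentOf Ω G ∧
    ∀ A ∈ G, ∀ y ∈ Ω, A • y ∈ Ω

end Pool.Agent.helper75.KL
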