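import Pool.Agent.helper75.KL.Cox

/-! Integrality, finiteness, and the structure of intersections of caps. -/

namespace Pool.Agent.helper75.KL

/-- Integer vectors. -/
def IsInt (x : V) : Prop := ∀ k, ∃ m : ℤ, x k = m

theorem IsInt_e0 : IsInt e0 := by
  intro k
  fin_cases k
  · exact ⟨1, by simp [e0]⟩
  · exact ⟨0, by simp [e0]⟩
  · exact ⟨0, by simp [e0]⟩
  · exact ⟨0, by simp [e0]⟩
  · exact ⟨0, by simp [e0]⟩

theorem IsInt.bil {x y : V} (hx : IsInt x) (hy : IsInt y) : ∃ m : ℤ, bil x y = m := by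
  obtain ⟨a0, h0⟩ := hx 0
  obtain ⟨a1, h1⟩ := hx 1
  obtain ⟨a2, h2⟩ := hx 2
  obtain ⟨a3, h3⟩ := hx 3
  obtain ⟨a4, h4⟩ := hx 4
  obtain ⟨b0, g0⟩ := hy 0
  obtain ⟨b1, g1⟩ := hy 1
  obtain ⟨b2, g2⟩ := hy 2
  obtain ⟨b3, g3⟩ := hy 3
  obtain ⟨b4, g4⟩ := hy 4
  refine ⟨-(a0 * b0) + a1 * b1 + a2 * b2 + a3 * b3 + a4 * b4, ?_⟩
  unfold KL.bil
  rw [h0, h1, h2, h3, h4, g0, g1, g2, g3, g4]
  push_cast
  ring

theorem FC.abs_le {x : V} (hx : FC x) (k : Fin 5) : |x k| ≤ x 0 := by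
  have h := hx.2
  unfold bil at h
  have a1 := mul_self_nonneg (x 1)
  have a2 := mul_self_nonneg (x 2)
  have a3 := mul_self_nonneg (x 3)
  have a4 := mul_self_nonneg (x 4)
  have key : ∀ t : ℝ, t * t ≤ x 0 * x 0 → |t| ≤ x 0 := fun t ht =>
    abs_le_of_sq_le_sq (by nlinarith) hx.1
  have k1 := key (x 1) (by linarith)
  have k2 := key (x 2) (by linarith)
  have k3 := key (x 3) (by linarith)
  have k4 := key (x 4) (by linarith)
  fin_cases k
  · exact (abs_of_nonneg hx.1).le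
  · exact k1
  · exact k2
  · exact k3
  · exact k4

theorem finite_int (R : ℝ) : {a : V | IsInt a ∧ FC a ∧ a 0 ≤ R}.Finite := by
  obtain ⟨N, hN⟩ := exists_nat_ge R
  have h : (Set.pi Set.univ (fun _ : Fin 5 => (fun m : ℤ => (m : ℝ)) '' Set.Icc (-(N : ℤ)) N)).Finite :=
    Set.Finite.pi (fun _ => (Set.finite_Icc _ _).image _)
  refine h.subset ?_
  rintro a ⟨h1, h2, h3⟩ k _
  obtain ⟨m, hm⟩ := h1 k
  refine ⟨m, ?_, hm.symm⟩
  have h4 := (h2.abs_le k).trans (h3.trans hN)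
  rw [hm] at h4
  have h5 : |m| ≤ (N : ℤ) := by exact_mod_cast h4
  exact abs_le.mp h5

/-- Uniform height bound. -/
theorem height_bound (n : V) {c : ℝ} (hc : 0 < c) :
    ∃ K : ℝ, 0 < K ∧ ∀ x : V, x 0 = 1 → bil x x = 0 → c ≤ bil x n →
      ∀ a : V, FC a → bil a n ≤ 0 → a 0 ≤ K * (-bil a x) := by
  set p := |bil n n| / c + |n 0| + 1 with hp
  have h1 : 0 ≤ |bil n n| / c := div_nonneg (abs_nonneg _) hc.le
  have h2 : 1 ≤ p - n 0 := by
    have := le_abs_self (n 0)
    rw [hp]; linarith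
  have hp0 : 0 < p := by have := abs_nonneg (n 0); rw [hp]; linarith
  have h3 : |bil n n| ≤ p * c := by
    have : |bil n n| = |bil n n| / c * c := by field_simp
    rw [this]
    apply mul_le_mul_of_nonneg_right _ hc.le
    have := abs_nonneg (n 0)
    rw [hp]; linarith
  set δ := min (p * c / (2 * (p - n 0))) (p - n 0) with hδ
  have hδ0 : 0 < δ := lt_min (div_pos (mul_pos hp0 hc) (by linarith)) (by linarith)
  have hδ1 : δ ≤ p - n 0 := min_le_right _ _
  have hδ2 : 2 * δ * (p - n 0) ≤ p * c := by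
    have : δ ≤ p * c / (2 * (p - n 0)) := min_le_left _ _
    rw [le_div_iff₀ (by linarith)] at this
    linarith
  refine ⟨p / δ, div_pos hp0 hδ0, ?_⟩
  intro x hx0 hxx hxn a ha han
  have hF : FC (p • x - n - δ • e0) := by
    constructor
    · have : (p • x - n - δ • e0) 0 = p - n 0 - δ := by
        simp [hx0, e0_zero]
      rw [this]; linarith
    · have e : bil (p • x - n - δ • e0) (p • x - n - δ • e0) =
          p * p * bil x x - 2 * p * bil x n + bil n n + 2 * δ * (p * x 0 - n 0) - δ * δ := by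
        simp only [bil_sub_left, bil_sub_right, bil_smul_left, bil_smul_right, bil_e0, bil_e0_left,
          bil_comm n x, e0_zero, Pi.sub_apply, Pi.smul_apply, smul_eq_mul]
        ring
      rw [e, hxx, hx0]
      have h4 := le_abs_self (bil n n)
      nlinarith [mul_le_mul_of_nonneg_left hxn hp0.le, mul_self_nonneg δ]
  have h5 := ha.bil_le hF
  rw [bil_sub_right, bil_sub_right, bil_smul_right, bil_smul_right, bil_e0] at h5
  rw [div_mul_eq_mul_div, le_div_iff₀ hδ0]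
  linarith

namespace KD

variable {S I : Type} (D : KD S I)

theorem act_e0_int (w : D.W) : IsInt (D.act w e0) := by
  induction w using D.cs.simple_induction_left with
  | one => rw [act_one]; exact IsInt_e0
  | mul_simple_left w s ih =>
    rw [act_mul, act_simple]
    intro k
    obtain ⟨a, ha⟩ := ih k
    obtain ⟨b, hb⟩ := ih.bil (D.vint s)
    obtain ⟨c, hc⟩ := D.vint s k
    refine ⟨a - 2 * b * c, ?_⟩
    simp only [Pi.sub_apply, Pi.smul_apply, smul_eq_mul, ha, hb, hc]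
    push_cast
    ring

theorem act_e0_inj {w w' : D.W} (h : D.act w e0 = D.act w' e0) : w = w' := by
  have h1 : D.act (w'⁻¹ * w) e0 = e0 := by rw [act_mul, h, act_inv_act]
  have h2 := (D.fund D.e0_mem_P D.e0_mem_P h1).2
  have h3 : {s | bil e0 (D.v s) = 0} = (∅ : Set S) := by
    ext s
    simp [bil_e0_left, D.v0]
  rw [h3, Set.image_empty, Subgroup.closure_empty, Subgroup.mem_bot] at h2
  exact (inv_mul_eq_one.mp h2).symm

theorem act_e0_one {w : D.W} (h : D.act w e0 = e0) : w = 1 :=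
  D.act_e0_inj (by rw [h, act_one])

/-- The stabiliser group of cap `i`. -/
noncomputable def Wi (i : I) : Subgroup D.W := Subgroup.closure (D.cs.simple '' {s | bil (D.v s) (D.n i) = 0})

theorem act_n {i : I} {w : D.W} (hw : w ∈ D.Wi i) : D.act w (D.n i) = D.n i := by
  induction hw using Subgroup.closure_induction with
  | mem x hx =>
    obtain ⟨s, hs, rfl⟩ := hx
    rw [act_simple, bil_comm, (hs : bil (D.v s) (D.n i) = 0), mul_zero, zero_smul, sub_zero]
  | one => exact D.act_one _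
  | mul x y _ _ h1 h2 => rw [act_mul, h2, h1]
  | inv x _ h =>
    conv_lhs => rw [← h]
    rw [act_inv_act]

/-- Existence of a minimal height element in a subgroup orbit. -/
theorem exists_min (H : Subgroup D.W) (x : V)
    (hfin : {a : V | ∃ u ∈ H, a = D.act u e0 ∧ -bil x a ≤ -bil x e0}.Finite) :
    ∃ u ∈ H, ∀ u' ∈ H, (D.act u x) 0 ≤ (D.act u' x) 0 := by
  have hne : {a : V | ∃ u ∈ H, a = D.act u e0 ∧ -bil x a ≤ -bil x e0}.Nonempty :=
    ⟨e0, 1, H.one_mem, (D.act_one _).symm, le_rfl⟩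
  obtain ⟨a, ⟨u, hu, rfl, ha⟩, hmin⟩ := Set.exists_min_image _ (fun a => -bil x a) hfin hne
  have key : ∀ u : D.W, (D.act u⁻¹ x) 0 = -bil x (D.act u e0) := by
    intro u
    have := D.bil_act_left u⁻¹ x e0
    rw [bil_e0, inv_inv] at this
    linarith
  refine ⟨u⁻¹, H.inv_mem hu, fun u' hu' => ?_⟩
  rw [key u, ← inv_inv u', key u'⁻¹]
  by_cases h : -bil x (D.act u'⁻¹ e0) ≤ -bil x e0
  · exact hmin _ ⟨u'⁻¹, H.inv_mem hu', rfl, h⟩
  · push Not at h
    exact ha.trans h.le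

theorem wall_of_min {x : V} {s : S} (h : x 0 ≤ (D.act (D.cs.simple s) x) 0) :
    bil x (D.v s) ≤ 0 := by
  rw [act_simple, Pi.sub_apply, Pi.smul_apply, D.v0, smul_eq_mul, mul_one] at h
  linarith

/-- Every point of cap `i` can be moved into the chamber by the stabiliser of the cap. -/
theorem cap_to_P {i : I} {x : V} (hx0 : x 0 = 1) (hxx : bil x x = 0) (hi : 0 < bil x (D.n i)) :
    ∃ u ∈ D.Wi i, D.act u x ∈ D.P := by
  have hFx : FC x := ⟨by rw [hx0]; norm_num, hxx.le⟩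
  obtain ⟨K, hK, hb⟩ := height_bound (D.n i) hi
  have hfin : {a : V | ∃ u ∈ D.Wi i, a = D.act u e0 ∧ -bil x a ≤ -bil x e0}.Finite := by
    refine (finite_int (K * (-bil x e0))).subset ?_
    rintro a ⟨u, hu, rfl, ha⟩
    refine ⟨D.act_e0_int u, D.act_FC u FC_e0, ?_⟩
    refine (hb x hx0 hxx le_rfl _ (D.act_FC u FC_e0) (D.e0_tits_n i u)).trans ?_
    rw [bil_comm _ x]
    exact mul_le_mul_of_nonneg_left ha hK.le
  obtain ⟨u, hu, hmin⟩ := D.exists_min (D.Wi i) x hfin
  refine ⟨u, hu, D.act_FC u hFx, fun s => ?_⟩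
  by_cases hs : bil (D.v s) (D.n i) = 0
  · apply D.wall_of_min
    rw [← act_mul]
    exact hmin _ ((D.Wi i).mul_mem (Subgroup.subset_closure ⟨s, hs, rfl⟩) hu)
  · obtain ⟨a, b, ha, hb', h1⟩ := D.sep s i hs
    have h2 := (D.act_FC u hFx).bil_le h1
    rw [bil_add_right, bil_smul_right, bil_smul_right] at h2
    have h3 : bil (D.act u x) (D.n i) = bil x (D.n i) := by
      rw [bil_act_left, D.act_n ((D.Wi i).inv_mem hu)]
    rw [h3] at h2
    have h4 : 0 < b * bil x (D.n i) := mul_pos hb' hi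
    by_contra h5
    push Not at h5
    have := mul_pos ha h5
    linarith

/-- Structure of intersections of translated caps. -/
theorem struct {i j : I} {w : D.W} {x : V} (hx0 : x 0 = 1) (hxx : bil x x = 0)
    (hi : 0 < bil x (D.n i)) (hj : 0 < bil (D.act w x) (D.n j)) :
    ∃ u ∈ D.Wi i, ∃ g ∈ D.Wi j, w = g * u ∧ D.act u x ∈ D.P ∧
      0 < bil (D.act u x) (D.n i) ∧ 0 < bil (D.act u x) (D.n j) := by
  have hFx : FC x := ⟨by rw [hx0]; norm_num, hxx.le⟩
  obtain ⟨u, hu, hPu⟩ := D.cap_to_P hx0 hxx hi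
  -- normalise `act w x`
  have hFw := D.act_FC w hFx
  have hw0 : 0 < (D.act w x) 0 := by
    rcases lt_or_eq_of_le hFw.1 with h | h
    · exact h
    · exfalso
      have h1 : D.act w x = 0 := ne_zero_of_bil (by rw [bil_act, hxx]) h.symm
      rw [h1, bil_zero_left] at hj
      exact lt_irrefl _ hj
  have hk0 : kl (D.act w x) 0 = 1 := kl_zero hw0.ne'
  have hkk : bil (kl (D.act w x)) (kl (D.act w x)) = 0 := bil_kl (by rw [bil_act, hxx])
  have hkj : 0 < bil (kl (D.act w x)) (D.n j) := by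
    unfold kl
    rw [bil_smul_left]
    exact mul_pos (inv_pos.mpr hw0) hj
  obtain ⟨u', hu', hPu'⟩ := D.cap_to_P hk0 hkk hkj
  have hPu'' : D.act u' (D.act w x) ∈ D.P := by
    have e : D.act w x = (D.act w x 0) • kl (D.act w x) := by
      unfold kl; rw [smul_smul, mul_inv_cancel₀ hw0.ne', one_smul]
    rw [e, act_smul]
    exact ⟨hPu'.1.smul hw0.le, fun s => by
      rw [bil_smul_left]; exact mul_nonpos_of_nonneg_of_nonpos hw0.le (hPu'.2 s)⟩
  have e1 : D.act (u' * w * u⁻¹) (D.act u x) = D.act u' (D.act w x) := by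
    rw [act_mul, act_mul, act_inv_act]
  obtain ⟨h1, h2⟩ := D.fund hPu hPu'' e1
  have hni : bil (D.act u x) (D.n i) = bil x (D.n i) := by
    rw [bil_act_left, D.act_n ((D.Wi i).inv_mem hu)]
  have hnj : bil (D.act u x) (D.n j) = bil (D.act w x) (D.n j) := by
    rw [h1, bil_act_left, D.act_n ((D.Wi j).inv_mem hu')]
  have h3 : u' * w * u⁻¹ ∈ D.Wi j := by
    refine (Subgroup.closure_mono ?_) h2
    apply Set.image_mono
    intro s hs
    exact D.wall_inc (D.act_FC u hFx) hs (by rw [hnj]; exact hj)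
  refine ⟨u, hu, u'⁻¹ * (u' * w * u⁻¹), (D.Wi j).mul_mem ((D.Wi j).inv_mem hu') h3, by group, hPu,
    by rw [hni]; exact hi, by rw [hnj]; exact hj⟩

end KD

end Pool.Agent.helper75.KL
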