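import Pool.Agent.helper75.KL.Defs

/-! Lorentz geometry: the form, the future cone, reflections. -/

namespace Pool.Agent.helper75.KL

theorem bil_comm (x y : V) : bil x y = bil y x := by unfold bil; ring
theorem bil_add_left (x y z : V) : bil (x + y) z = bil x z + bil y z := by
  simp only [bil, Pi.add_apply]; ring
theorem bil_add_right (x y z : V) : bil x (y + z) = bil x y + bil x z := by
  simp only [bil, Pi.add_apply]; ring
theorem bil_sub_left (x y z : V) : bil (x - y) z = bil x z - bil y z := by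
  simp only [bil, Pi.sub_apply]; ring
theorem bil_sub_right (x y z : V) : bil x (y - z) = bil x y - bil x z := by
  simp only [bil, Pi.sub_apply]; ring
theorem bil_smul_left (a : ℝ) (x y : V) : bil (a • x) y = a * bil x y := by
  simp only [bil, Pi.smul_apply, smul_eq_mul]; ring
theorem bil_smul_right (a : ℝ) (x y : V) : bil x (a • y) = a * bil x y := by
  simp only [bil, Pi.smul_apply, smul_eq_mul]; ring
theorem bil_neg_left (x y : V) : bil (-x) y = -bil x y := by
  simp only [bil, Pi.neg_apply]; ring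
theorem bil_neg_right (x y : V) : bil x (-y) = -bil x y := by
  simp only [bil, Pi.neg_apply]; ring
theorem bil_zero_left (y : V) : bil 0 y = 0 := by simp [bil]
theorem bil_zero_right (y : V) : bil y 0 = 0 := by simp [bil]

theorem bil_e0 (x : V) : bil x e0 = - x 0 := by simp [bil, e0]
theorem bil_e0_left (x : V) : bil e0 x = - x 0 := by simp [bil, e0]
theorem e0_zero : e0 0 = 1 := rfl
theorem bil_e0_e0 : bil e0 e0 = -1 := by rw [bil_e0, e0_zero]

/-- Future causal vectors (including zero). -/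
def FC (x : V) : Prop := 0 ≤ x 0 ∧ bil x x ≤ 0

theorem FC.zero : FC 0 := ⟨le_rfl, by rw [bil_zero_left]⟩

theorem FC_e0 : FC e0 := ⟨by rw [e0_zero]; norm_num, by rw [bil_e0_e0]; norm_num⟩

/-- The spatial Cauchy-Schwarz inequality. -/
theorem spatial_cs (x y : V) :
    (x 1 * y 1 + x 2 * y 2 + x 3 * y 3 + x 4 * y 4) ^ 2 ≤
      (x 1 * x 1 + x 2 * x 2 + x 3 * x 3 + x 4 * x 4) *
      (y 1 * y 1 + y 2 * y 2 + y 3 * y 3 + y 4 * y 4) := by
  nlinarith [sq_nonneg (x 1 * y 2 - x 2 * y 1), sq_nonneg (x 1 * y 3 - x 3 * y 1),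
    sq_nonneg (x 1 * y 4 - x 4 * y 1), sq_nonneg (x 2 * y 3 - x 3 * y 2),
    sq_nonneg (x 2 * y 4 - x 4 * y 2), sq_nonneg (x 3 * y 4 - x 4 * y 3)]

/-- Reverse Cauchy-Schwarz for two future causal vectors, quantitative form. -/
theorem FC.bil_sq {x y : V} (hx : FC x) (hy : FC y) :
    bil x y ≤ 0 ∧ bil x x * bil y y ≤ bil x y ^ 2 := by
  obtain ⟨hx0, hxx⟩ := hx
  obtain ⟨hy0, hyy⟩ := hy
  have cs := spatial_cs x y
  unfold bil at *
  set p := x 1 * y 1 + x 2 * y 2 + x 3 * y 3 + x 4 * y 4 with hp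
  set X := x 1 * x 1 + x 2 * x 2 + x 3 * x 3 + x 4 * x 4 with hX
  set Y := y 1 * y 1 + y 2 * y 2 + y 3 * y 3 + y 4 * y 4 with hY
  have hX0 : 0 ≤ X := by
    rw [hX]; nlinarith [mul_self_nonneg (x 1), mul_self_nonneg (x 2), mul_self_nonneg (x 3),
      mul_self_nonneg (x 4)]
  have hY0 : 0 ≤ Y := by
    rw [hY]; nlinarith [mul_self_nonneg (y 1), mul_self_nonneg (y 2), mul_self_nonneg (y 3),
      mul_self_nonneg (y 4)]
  have e1 : -(x 0 * y 0) + x 1 * y 1 + x 2 * y 2 + x 3 * y 3 + x 4 * y 4 = p - x 0 * y 0 := by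
    rw [hp]; ring
  have e2 : -(x 0 * x 0) + x 1 * x 1 + x 2 * x 2 + x 3 * x 3 + x 4 * x 4 = X - x 0 * x 0 := by
    rw [hX]; ring
  have e3 : -(y 0 * y 0) + y 1 * y 1 + y 2 * y 2 + y 3 * y 3 + y 4 * y 4 = Y - y 0 * y 0 := by
    rw [hY]; ring
  rw [e1, e2, e3] at *
  have hXx : X ≤ x 0 * x 0 := by linarith
  have hYy : Y ≤ y 0 * y 0 := by linarith
  have hp2 : p ^ 2 ≤ (x 0 * y 0) ^ 2 := by
    calc p ^ 2 ≤ X * Y := cs
      _ ≤ (x 0 * x 0) * (y 0 * y 0) := mul_le_mul hXx hYy hY0 (mul_self_nonneg _)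
      _ = (x 0 * y 0) ^ 2 := by ring
  have hxy : 0 ≤ x 0 * y 0 := mul_nonneg hx0 hy0
  have hple : p ≤ x 0 * y 0 := by
    exact le_of_sq_le_sq' hp2 hxy
  refine ⟨by linarith, ?_⟩
  -- (X - a²)(Y - b²) ≤ (p - ab)²
  have hsX := Real.mul_self_sqrt hX0
  have hsY := Real.mul_self_sqrt hY0
  have hps : |p| ≤ Real.sqrt X * Real.sqrt Y := by
    rw [← Real.sqrt_mul hX0]
    exact Real.abs_le_sqrt cs
  have hpl : p ≤ Real.sqrt X * Real.sqrt Y := (le_abs_self p).trans hps
  have hxX : Real.sqrt X ≤ x 0 := by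
    rw [← Real.sqrt_mul_self hx0]; exact Real.sqrt_le_sqrt hXx
  have hyY : Real.sqrt Y ≤ y 0 := by
    rw [← Real.sqrt_mul_self hy0]; exact Real.sqrt_le_sqrt hYy
  have hq : Real.sqrt X * Real.sqrt Y ≤ x 0 * y 0 :=
    mul_le_mul hxX hyY (Real.sqrt_nonneg _) hx0
  have h1 : (x 0 * y 0 - Real.sqrt X * Real.sqrt Y) ^ 2 ≤ (x 0 * y 0 - p) ^ 2 := by
    apply pow_le_pow_left₀ (by linarith)
    linarith
  have h2 : (X - x 0 * x 0) * (Y - y 0 * y 0) ≤ (x 0 * y 0 - Real.sqrt X * Real.sqrt Y) ^ 2 := by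
    have h3 := sq_nonneg (Real.sqrt X * y 0 - Real.sqrt Y * x 0)
    have h4 : (x 0 * y 0 - Real.sqrt X * Real.sqrt Y) ^ 2 - (X - x 0 * x 0) * (Y - y 0 * y 0) =
        (Real.sqrt X * y 0 - Real.sqrt Y * x 0) ^ 2 := by
      generalize Real.sqrt X = a at hsX ⊢
      generalize Real.sqrt Y = b at hsY ⊢
      rw [← hsX, ← hsY]
      ring
    linarith
  calc _ ≤ _ := h2
    _ ≤ _ := h1
    _ = _ := by ring
where
  le_of_sq_le_sq' {a b : ℝ} (h : a ^ 2 ≤ b ^ 2) (hb : 0 ≤ b) : a ≤ b := by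
    exact abs_le_of_sq_le_sq' h hb |>.2

theorem FC.bil_le {x y : V} (hx : FC x) (hy : FC y) : bil x y ≤ 0 := (hx.bil_sq hy).1

theorem FC.add {x y : V} (hx : FC x) (hy : FC y) : FC (x + y) := by
  refine ⟨by simpa using add_nonneg hx.1 hy.1, ?_⟩
  rw [bil_add_left, bil_add_right, bil_add_right, bil_comm y x]
  have := hx.bil_le hy
  linarith [hx.2, hy.2]

theorem FC.smul {x : V} (hx : FC x) {a : ℝ} (ha : 0 ≤ a) : FC (a • x) := by
  refine ⟨by simpa using mul_nonneg ha hx.1, ?_⟩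
  rw [bil_smul_smul]
  exact mul_nonpos_of_nonneg_of_nonpos (mul_self_nonneg a) hx.2

theorem bil_self_ge (x : V) : -(x 0 * x 0) ≤ bil x x := by
  unfold bil
  nlinarith [mul_self_nonneg (x 1), mul_self_nonneg (x 2), mul_self_nonneg (x 3),
      mul_self_nonneg (x 4)]

theorem FC.pos_of_neg {x : V} (hx : FC x) (h : bil x x < 0) : 0 < x 0 := by
  rcases lt_or_eq_of_le hx.1 with h1 | h1
  · exact h1
  · exfalso
    have := bil_self_ge x
    rw [← h1] at this
    linarith

/-- A time-like future vector pairs quantitatively negatively with future causal vectors. -/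
theorem FC.quant {x : V} (hx : FC x) (hxx : bil x x < 0) :
    ∃ t : ℝ, 0 < t ∧ ∀ y, FC y → bil x y ≤ -(t * y 0) := by
  have hx0 := hx.pos_of_neg hxx
  refine ⟨-bil x x / (2 * x 0), div_pos (by linarith) (by linarith), fun y hy => ?_⟩
  set t := -bil x x / (2 * x 0) with ht
  have ht2 : t * (2 * x 0) = -bil x x := by rw [ht]; field_simp
  have ht0 : 0 < t := div_pos (by linarith) (by linarith)
  have hge := bil_self_ge x
  have hF : FC (x - t • e0) := by
    constructor
    · have : (x - t • e0) 0 = x 0 - t := by simp [e0]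
      rw [this]
      nlinarith
    · rw [bil_sub_left, bil_sub_right, bil_sub_right, bil_smul_left, bil_smul_left,
        bil_smul_right, bil_smul_right, bil_e0_e0, bil_e0, bil_e0_left]
      nlinarith
  have := hF.bil_le hy
  rw [bil_sub_left, bil_smul_left, bil_e0_left] at this
  linarith

theorem FC.bil_neg {x y : V} (hx : FC x) (hxx : bil x x < 0) (hy : FC y) (hy0 : 0 < y 0) :
    bil x y < 0 := by
  obtain ⟨t, ht, h⟩ := hx.quant hxx
  have := h y hy
  nlinarith [mul_pos ht hy0]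

/-- Two orthogonal future null vectors with `0`-th coordinates `1` and `c` are proportional. -/
theorem null_eq {x y : V} (hx : bil x x = 0) (hy : bil y y = 0) (hx0 : x 0 = 1) (hy0 : y 0 = 1)
    (h : bil x y = 0) : x = y := by
  have h1 : bil (x - y) (x - y) = 0 := by
    rw [bil_sub_left, bil_sub_right, bil_sub_right, bil_comm y x, hx, hy, h]; ring
  have h2 : (x - y) 0 = 0 := by simp [hx0, hy0]
  exact sub_eq_zero.mp (ne_zero_of_bil h1 h2)

/-! Reflections. -/

/-- The matrix of the reflection `x ↦ x - 2 B(x,v) v`. -/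
def rm (v : V) : Matrix (Fin 5) (Fin 5) ℝ :=
  1 - (2 : ℝ) • Matrix.vecMulVec v ![-(v 0), v 1, v 2, v 3, v 4]

theorem rm_mulVec (v x : V) : (rm v).mulVec x = x - (2 * bil x v) • v := by
  unfold rm
  rw [Matrix.sub_mulVec, Matrix.one_mulVec, Matrix.smul_mulVec, Matrix.vecMulVec_mulVec]
  have : (![-(v 0), v 1, v 2, v 3, v 4] : V) ⬝ᵥ x = bil x v := by
    simp only [dotProduct, bil, Fin.sum_univ_five]
    simp
    ring
  rw [this]
  congr 1
  ext k
  simp
  ring

theorem rm_mem_Lor {v : V} (hv : bil v v = 1) : rm v ∈ Lor := by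
  intro x y
  rw [rm_mulVec, rm_mulVec, bil_sub_left, bil_sub_right, bil_sub_right, bil_smul_left,
    bil_smul_left, bil_smul_right, bil_smul_right, hv, bil_comm v y]
  ring

theorem mat_ext {A B : Matrix (Fin 5) (Fin 5) ℝ} (h : ∀ x : V, A.mulVec x = B.mulVec x) :
    A = B := by
  apply Matrix.ext_of_mulVec_single
  intro i
  exact h _

theorem rm_sq {v : V} (hv : bil v v = 1) : rm v * rm v = 1 := by
  apply mat_ext
  intro x
  rw [← Matrix.mulVec_mulVec, rm_mulVec, rm_mulVec, Matrix.one_mulVec, bil_sub_left,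
    bil_smul_left, hv]
  ext k
  simp
  ring

theorem rm_comm {v w : V} (h : bil v w = 0) : rm v * rm w = rm w * rm v := by
  apply mat_ext
  intro x
  rw [← Matrix.mulVec_mulVec, ← Matrix.mulVec_mulVec, rm_mulVec, rm_mulVec, rm_mulVec, rm_mulVec,
    bil_sub_left, bil_smul_left, bil_sub_left, bil_smul_left, h, bil_comm w v, h]
  ext k
  simp
  ring

theorem rm_det {v : V} (hv : bil v v = 1) : (rm v).det = -1 := by
  unfold rm
  have h := Matrix.det_one_sub_mul_comm (Matrix.replicateCol Unit ((2 : ℝ) • v))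
    (Matrix.replicateRow Unit (![-(v 0), v 1, v 2, v 3, v 4] : V))
  rw [← Matrix.smul_vecMulVec, Matrix.vecMulVec_eq Unit, h, Matrix.det_unique]
  simp [Matrix.mul_apply, Matrix.replicateRow, Matrix.replicateCol, Fin.sum_univ_five]
  unfold bil at hv
  linarith

/-- Reflections in unit vectors with `0`-th coordinate one preserve the future cone. -/
theorem rm_FC {v : V} (hv : bil v v = 1) (hv0 : v 0 = 1) {x : V} (hx : FC x) :
    FC ((rm v).mulVec x) := by
  refine ⟨?_, ?_⟩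
  · have e : ((rm v).mulVec x) 0 = - bil x (e0 - (2 * bil e0 v) • v) := by
      rw [rm_mulVec, bil_sub_right, bil_smul_right, bil_e0, bil_e0_left, hv0]
      simp [hv0]
      ring
    rw [e]
    have hF : FC (e0 - (2 * bil e0 v) • v) := by
      constructor
      · show 0 ≤ e0 0 - (2 * bil e0 v) * v 0
        rw [bil_e0_left, hv0, e0_zero]; norm_num
      · rw [← rm_mulVec, rm_mem_Lor hv, bil_e0_e0]; norm_num
    linarith [hx.bil_le hF]
  · rw [rm_mem_Lor hv]; exact hx.2

end Pool.Agent.helper75.KL
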