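import Mathlib

/-! Finite generation of the kernel of a height function on a group generated by involutions,
when ascending and descending links are connected. -/

namespace Pool.Agent.helper75.KL

/-- Group with height function data. `H` is generated by the involutions `σ s`; `z` records the
signs of the three colours, `h` is the height. -/
structure MorseData (H S : Type) [Group H] where
  σ : S → H
  gen : Subgroup.closure (Set.range σ) = ⊤
  sq : ∀ s, σ s * σ s = 1
  col : S → Fin 3
  ε : S → ℤ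
  hε : ∀ s, ε s = 1 ∨ ε s = -1
  z : H →* (Fin 3 → ℤˣ)
  hz : ∀ s, z (σ s) = Pi.mulSingle (col s) (-1)
  h : H → ℤ
  h_one : h 1 = 0
  h_mul : ∀ w s, h (w * σ s) = h w + (z w (col s) : ℤ) * ε s
  h_add : ∀ g w, z g = 1 → h (g * w) = h g + h w

/-- The kernel: elements of trivial sign vector and height zero. -/
def MorseData.ker {H S : Type} [Group H] (D : MorseData H S) : Subgroup H where
  carrier := {w | D.z w = 1 ∧ D.h w = 0}
  mul_mem' := by
    rintro a b ⟨ha, ha'⟩ ⟨hb, hb'⟩
    exact ⟨by rw [map_mul, ha, hb, one_mul], by rw [D.h_add _ _ ha, ha', hb', add_zero]⟩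
  one_mem' := ⟨map_one _, D.h_one⟩
  inv_mem' := by
    rintro a ⟨ha, ha'⟩
    refine ⟨by rw [map_inv, ha, inv_one], ?_⟩
    have h := D.h_add a a⁻¹ ha
    rw [mul_inv_cancel, D.h_one, ha'] at h
    linarith

/-- The descending link at sign vector `c`. -/
def MorseData.down {H S : Type} [Group H] (D : MorseData H S) (c : Fin 3 → ℤˣ) (s : S) : Prop :=
  (c (D.col s) : ℤ) * D.ε s = -1

namespace Morse

lemma rtg_mono {α : Type*} {r p : α → α → Prop} (hrp : ∀ a b, r a b → p a b) {x y : α}
    (h : Relation.ReflTransGen r x y) : Relation.ReflTransGen p x y := by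
  induction h with
  | refl => exact .refl
  | tail _ hst ih => exact ih.tail (hrp _ _ hst)

variable {H S : Type} [Group H]

/-- neighbours within the slab `[a,b]` -/
def Step (D : MorseData H S) (a b : ℤ) (x y : H) : Prop :=
  ∃ s, y = x * D.σ s ∧ a ≤ D.h x ∧ D.h x ≤ b ∧ a ≤ D.h y ∧ D.h y ≤ b

/-- connected within the slab `[a,b]` -/
abbrev Conn (D : MorseData H S) (a b : ℤ) : H → H → Prop := Relation.ReflTransGen (Step D a b)

/-- the connectivity hypothesis on descending links -/
def LinkConn (D : MorseData H S) : Prop :=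
  ∀ c : Fin 3 → ℤˣ, ∀ s t, D.down c s → D.down c t →
      Relation.ReflTransGen (fun a b => D.down c a ∧ D.down c b ∧ D.col a ≠ D.col b ∧
        D.σ a * D.σ b = D.σ b * D.σ a) s t

lemma sign_cases (D : MorseData H S) (c : Fin 3 → ℤˣ) (s : S) :
    (c (D.col s) : ℤ) * D.ε s = 1 ∨ (c (D.col s) : ℤ) * D.ε s = -1 := by
  rcases Int.units_eq_one_or (c (D.col s)) with h | h <;> rcases D.hε s with h' | h' <;>
    simp [h, h']

lemma z_mul_self (D : MorseData H S) (w : H) (s : S) :
    ((D.z (w * D.σ s)) (D.col s) : ℤ) = -((D.z w) (D.col s) : ℤ) := by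
  rw [map_mul, D.hz, Pi.mul_apply, Pi.mulSingle_eq_same]
  simp

lemma z_mul_other (D : MorseData H S) (w : H) (s t : S) (h : D.col t ≠ D.col s) :
    ((D.z (w * D.σ s)) (D.col t) : ℤ) = ((D.z w) (D.col t) : ℤ) := by
  rw [map_mul, D.hz, Pi.mul_apply, Pi.mulSingle_eq_of_ne h, mul_one]

lemma mul_mul_self (D : MorseData H S) (w : H) (s : S) : w * D.σ s * D.σ s = w := by
  rw [mul_assoc, D.sq, mul_one]

lemma step_symm (D : MorseData H S) {a b : ℤ} {x y : H} (h : Step D a b x y) :
    Step D a b y x := by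
  obtain ⟨s, rfl, h1, h2, h3, h4⟩ := h
  exact ⟨s, (mul_mul_self D x s).symm, h3, h4, h1, h2⟩

lemma down_aux (D : MorseData H S) (conn : LinkConn D) {a b : ℤ} (hab : a + 2 ≤ b) {x : H}
    (hx : D.h x ≤ b - 1) {y : H} (hc : Conn D a b x y) :
    (D.h y ≤ b - 1 → Conn D a (b - 1) x y) ∧
      (D.h y = b → ∀ s, D.down (D.z y) s → Conn D a (b - 1) x (y * D.σ s)) := by
  induction hc with
  | refl => exact ⟨fun _ => .refl, fun h => by omega⟩
  | @tail y y' _ hst ih =>
    obtain ⟨s, rfl, h1, h2, h3, h4⟩ := hst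
    have hh := D.h_mul y s
    have hsc := sign_cases D (D.z y) s
    rcases h2.lt_or_eq with hlt | heq
    · have hconn := ih.1 (by omega)
      refine ⟨fun h5 => hconn.tail ⟨s, rfl, h1, by omega, h3, h5⟩, fun h5 t ht => ?_⟩
      -- the peak is `y' = y σ_s`
      have hs : D.down (D.z (y * D.σ s)) s := by
        unfold MorseData.down
        rw [z_mul_self]
        have : ((D.z y) (D.col s) : ℤ) * D.ε s = 1 := by
          rcases hsc with h6 | h6
          · exact h6
          · omega
        linarith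
      have hpath := conn _ s t hs ht
      clear ht
      induction hpath with
      | refl => rw [mul_mul_self]; exact hconn
      | @tail u v _ huv ih2 =>
        obtain ⟨hu, hv, hcol, hcomm⟩ := huv
        refine ih2.trans ?_
        have e1 : D.h (y * D.σ s * D.σ u) = b - 1 := by
          rw [D.h_mul, h5, hu]; ring
        have e2 : D.h (y * D.σ s * D.σ v) = b - 1 := by
          rw [D.h_mul, h5, hv]; ring
        have e3 : D.h (y * D.σ s * D.σ u * D.σ v) = b - 2 := by
          rw [D.h_mul, e1, z_mul_other D _ _ _ (Ne.symm hcol), hv]; ring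
        have e4 : y * D.σ s * D.σ v = y * D.σ s * D.σ u * D.σ v * D.σ u := by
          have : y * D.σ s * D.σ u * D.σ v = y * D.σ s * D.σ v * D.σ u := by
            rw [mul_assoc, hcomm, ← mul_assoc]
          rw [this, mul_mul_self]
        refine Relation.ReflTransGen.tail (.single ⟨v, rfl, ?_, ?_, ?_, ?_⟩)
          ⟨u, e4, ?_, ?_, ?_, ?_⟩ <;> omega
    · have hsd : ((D.z y) (D.col s) : ℤ) * D.ε s = -1 := by
        rcases hsc with h6 | h6
        · omega
        · exact h6
      exact ⟨fun _ => ih.2 heq s hsd, fun h5 => by omega⟩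

lemma down_lemma (D : MorseData H S) (conn : LinkConn D) {a b : ℤ} (hab : a + 2 ≤ b) {x y : H}
    (hx : D.h x ≤ b - 1) (hy : D.h y ≤ b - 1) (hc : Conn D a b x y) : Conn D a (b - 1) x y :=
  (down_aux D conn hab hx hc).1 hy

/-- the data turned upside down -/
def flip (D : MorseData H S) : MorseData H S where
  σ := D.σ
  gen := D.gen
  sq := D.sq
  col := D.col
  ε := fun s => - D.ε s
  hε := fun s => by rcases D.hε s with h | h <;> simp [h]
  z := D.z
  hz := D.hz
  h := fun w => - D.h w
  h_one := by rw [D.h_one, neg_zero]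
  h_mul := fun w s => by rw [D.h_mul]; ring
  h_add := fun g w hg => by rw [D.h_add g w hg]; ring

lemma flip_down (D : MorseData H S) (c : Fin 3 → ℤˣ) (s : S) :
    (flip D).down c s ↔ D.down (-c) s := by
  simp [MorseData.down, flip]

lemma flip_linkConn (D : MorseData H S) (conn : LinkConn D) : LinkConn (flip D) := by
  intro c s t hs ht
  have := conn (-c) s t ((flip_down D c s).1 hs) ((flip_down D c t).1 ht)
  refine rtg_mono ?_ this
  rintro u v ⟨h1, h2, h3, h4⟩
  exact ⟨(flip_down D c u).2 h1, (flip_down D c v).2 h2, h3, h4⟩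

lemma flip_step (D : MorseData H S) {a b : ℤ} {x y : H} (h : Step D a b x y) :
    Step (flip D) (-b) (-a) x y := by
  obtain ⟨s, h0, h1, h2, h3, h4⟩ := h
  exact ⟨s, h0, neg_le_neg h2, neg_le_neg h1, neg_le_neg h4, neg_le_neg h3⟩

lemma flip_step' (D : MorseData H S) {a b : ℤ} {x y : H} (h : Step (flip D) (-b) (-a) x y) :
    Step D a b x y := by
  obtain ⟨s, h0, h1, h2, h3, h4⟩ := h
  exact ⟨s, h0, neg_le_neg_iff.1 h2, neg_le_neg_iff.1 h1, neg_le_neg_iff.1 h4,
    neg_le_neg_iff.1 h3⟩

lemma up_lemma (D : MorseData H S) (conn : LinkConn D) {a b : ℤ} (hab : a + 2 ≤ b) {x y : H}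
    (hx : a + 1 ≤ D.h x) (hy : a + 1 ≤ D.h y) (hc : Conn D a b x y) : Conn D (a + 1) b x y := by
  have h1 : Conn (flip D) (-b) (-a) x y := rtg_mono (fun _ _ h => flip_step D h) hc
  have hx' : (flip D).h x ≤ -a - 1 := by
    change - D.h x ≤ -a - 1
    omega
  have hy' : (flip D).h y ≤ -a - 1 := by
    change - D.h y ≤ -a - 1
    omega
  have h2 := down_lemma (flip D) (flip_linkConn D conn) (by omega) hx' hy' h1
  have h3 : -a - 1 = -(a + 1) := by ring
  rw [h3] at h2
  exact rtg_mono (fun _ _ h => flip_step' D h) h2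

/-- everything is connected to `1` in some slab -/
lemma exists_conn (D : MorseData H S) (w : H) : ∃ m : ℕ, Conn D (-(m : ℤ)) (m + 1) 1 w := by
  have hmono : ∀ {m n : ℕ} {x y : H}, m ≤ n → Conn D (-(m : ℤ)) (m + 1) x y →
      Conn D (-(n : ℤ)) (n + 1) x y := by
    intro m n x y hmn hc
    refine rtg_mono ?_ hc
    rintro x y ⟨s, h0, h1, h2, h3, h4⟩
    exact ⟨s, h0, by omega, by omega, by omega, by omega⟩
  have hstep : ∀ x : H, ∀ s, (∃ m : ℕ, Conn D (-(m : ℤ)) (m + 1) 1 x) →
      ∃ m : ℕ, Conn D (-(m : ℤ)) (m + 1) 1 (x * D.σ s) := by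
    rintro x s ⟨m, hm⟩
    let n : ℕ := max m (max (D.h x).natAbs (D.h (x * D.σ s)).natAbs)
    have h1 : m ≤ n := le_max_left _ _
    have h2 : (D.h x).natAbs ≤ n := (le_max_left _ _).trans (le_max_right _ _)
    have h3 : (D.h (x * D.σ s)).natAbs ≤ n := (le_max_right _ _).trans (le_max_right _ _)
    refine ⟨n, (hmono h1 hm).tail ⟨s, rfl, ?_, ?_, ?_, ?_⟩⟩ <;> omega
  have hw : w ∈ Subgroup.closure (Set.range D.σ) := by rw [D.gen]; trivial
  induction hw using Subgroup.closure_induction_right with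
  | one => exact ⟨0, .refl⟩
  | mul_right x _ y hy ih =>
    obtain ⟨s, rfl⟩ := hy
    exact hstep x s ih
  | mul_inv_cancel x _ y hy ih =>
    obtain ⟨s, rfl⟩ := hy
    have : (D.σ s)⁻¹ = D.σ s := inv_eq_of_mul_eq_one_left (D.sq s)
    rw [this]
    exact hstep x s ih

/-- elements of the kernel are connected to `1` in the slab `[0,1]` -/
lemma ker_conn (D : MorseData H S) (conn : LinkConn D) {f : H} (hf : D.h f = 0) :
    Conn D 0 1 1 f := by
  obtain ⟨m, hm⟩ := exists_conn D f
  have h1 : ∀ k : ℕ, k ≤ m → Conn D (-(m : ℤ)) (m + 1 - k) 1 f := by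
    intro k
    induction k with
    | zero => intro _; simpa using hm
    | succ k ih =>
      intro hk
      have := down_lemma D conn (a := -(m : ℤ)) (b := m + 1 - k) (by omega)
        (by rw [D.h_one]; omega) (by rw [hf]; omega) (ih (by omega))
      have h2 : (m : ℤ) + 1 - k - 1 = m + 1 - (k + 1 : ℕ) := by push_cast; ring
      rw [h2] at this
      exact this
  have h3 := h1 m le_rfl
  have h4 : (m : ℤ) + 1 - m = 1 := by ring
  rw [h4] at h3
  have h5 : ∀ k : ℕ, k ≤ m → Conn D (-(m : ℤ) + k) 1 1 f := by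
    intro k
    induction k with
    | zero => intro _; simpa using h3
    | succ k ih =>
      intro hk
      have := up_lemma D conn (a := -(m : ℤ) + k) (b := 1) (by omega)
        (by rw [D.h_one]; omega) (by rw [hf]; omega) (ih (by omega))
      have h2 : -(m : ℤ) + k + 1 = -m + (k + 1 : ℕ) := by push_cast; ring
      rw [h2] at this
      exact this
  have h6 := h5 m le_rfl
  simpa using h6

lemma mem_ker_of_eq (D : MorseData H S) {w w' : H} (hz : D.z w = D.z w') (hh : D.h w = D.h w') :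
    w' * w⁻¹ ∈ D.ker := by
  have h1 : D.z (w' * w⁻¹) = 1 := by rw [map_mul, map_inv, hz, mul_inv_cancel]
  refine ⟨h1, ?_⟩
  have h2 := D.h_add _ w h1
  rw [inv_mul_cancel_right] at h2
  omega

/-- chosen representatives -/
noncomputable def rep (D : MorseData H S) (c : Fin 3 → ℤˣ) (j : ℤ) : H :=
  open scoped Classical in if h : ∃ w, D.z w = c ∧ D.h w = j then h.choose else 1

lemma rep_spec (D : MorseData H S) (w : H) :
    D.z (rep D (D.z w) (D.h w)) = D.z w ∧ D.h (rep D (D.z w) (D.h w)) = D.h w := by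
  have h : ∃ w', D.z w' = D.z w ∧ D.h w' = D.h w := ⟨w, rfl, rfl⟩
  unfold rep
  rw [dif_pos h]
  exact h.choose_spec

/-- the Schreier generators -/
def T (D : MorseData H S) : Set H :=
  ((Set.range fun p : (Fin 3 → ℤˣ) × Fin 2 × S × (Fin 3 → ℤˣ) × Fin 2 =>
    rep D p.1 (p.2.1 : ℕ) * D.σ p.2.2.1 * (rep D p.2.2.2.1 (p.2.2.2.2 : ℕ))⁻¹) ∩ D.ker) ∪
    {rep D (D.z 1) (D.h 1)}

lemma T_finite [Finite S] (D : MorseData H S) : (T D).Finite :=
  ((Set.finite_range _).inter_of_left _).union (Set.finite_singleton _)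

lemma T_le (D : MorseData H S) : Subgroup.closure (T D) ≤ D.ker := by
  rw [Subgroup.closure_le]
  rintro x (hx | hx)
  · exact hx.2
  · rw [Set.mem_singleton_iff] at hx
    subst hx
    obtain ⟨h1, h2⟩ := rep_spec D 1
    exact ⟨h1.trans (map_one _), h2.trans D.h_one⟩

lemma mem_of_conn (D : MorseData H S) {w : H} (h : Conn D 0 1 1 w) :
    w * (rep D (D.z w) (D.h w))⁻¹ ∈ Subgroup.closure (T D) := by
  induction h with
  | refl =>
    rw [one_mul]
    exact Subgroup.inv_mem _ (Subgroup.subset_closure (Or.inr rfl))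
  | @tail w w' _ hst ih =>
    obtain ⟨s, rfl, h1, h2, h3, h4⟩ := hst
    have key : w * D.σ s * (rep D (D.z (w * D.σ s)) (D.h (w * D.σ s)))⁻¹ =
        (w * (rep D (D.z w) (D.h w))⁻¹) * (rep D (D.z w) (D.h w) * D.σ s *
          (rep D (D.z (w * D.σ s)) (D.h (w * D.σ s)))⁻¹) := by group
    rw [key]
    refine Subgroup.mul_mem _ ih (Subgroup.subset_closure (Or.inl ⟨?_, ?_⟩))
    · obtain ⟨i, hi⟩ : ∃ i : Fin 2, ((i : ℕ) : ℤ) = D.h w :=
        ⟨⟨(D.h w).toNat, by omega⟩, by simp [h1]⟩
      obtain ⟨j, hj⟩ : ∃ i : Fin 2, ((i : ℕ) : ℤ) = D.h (w * D.σ s) :=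
        ⟨⟨(D.h (w * D.σ s)).toNat, by omega⟩, by simp [h3]⟩
      refine ⟨(D.z w, i, s, D.z (w * D.σ s), j), ?_⟩
      simp only [hi, hj]
    · apply mem_ker_of_eq
      · rw [(rep_spec D _).1, map_mul, map_mul, (rep_spec D _).1]
      · rw [(rep_spec D _).2, D.h_mul, D.h_mul, (rep_spec D _).1, (rep_spec D _).2]

end Morse

open Morse in
/-- If all descending links are connected (by commuting pairs of different colours) then the
kernel is finitely generated. (The ascending link at `c` is the descending link at `-c`.) -/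
theorem MorseData.ker_fg {H S : Type} [Group H] [Finite S] (D : MorseData H S)
    (conn : ∀ c : Fin 3 → ℤˣ, ∀ s t, D.down c s → D.down c t →
      Relation.ReflTransGen (fun a b => D.down c a ∧ D.down c b ∧ D.col a ≠ D.col b ∧
        D.σ a * D.σ b = D.σ b * D.σ a) s t) :
    D.ker.FG := by
  rw [Subgroup.fg_iff]
  refine ⟨T D, le_antisymm (T_le D) ?_, T_finite D⟩
  intro f hf
  have h1 := mem_of_conn D (ker_conn D conn hf.2)
  have h2 : rep D (D.z f) (D.h f) ∈ Subgroup.closure (T D) := by
    have : rep D (D.z f) (D.h f) = rep D (D.z 1) (D.h 1) := by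
      rw [hf.1, hf.2, map_one, D.h_one]
    rw [this]
    exact Subgroup.subset_closure (Or.inr rfl)
  have := Subgroup.mul_mem _ h1 h2
  rwa [inv_mul_cancel_right] at this

end Pool.Agent.helper75.KL
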