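import Pool.Agent.helper75.KL.Omega
import Pool.Agent.helper75.KL.Morse

/-! Colours, heights, and the two subgroups. -/

namespace Pool.Agent.helper75.KL

/-- Colours and signs. `com_col`: commuting walls have different colours. `conn`: descending
links are connected by edges meeting a cap. -/
structure KE (S I : Type) extends KD S I where
  col : S → Fin 3
  ε : S → ℤ
  hε : ∀ s, ε s = 1 ∨ ε s = -1
  com_col : ∀ s t, com s t → col s ≠ col t
  conn : ∀ c : Fin 3 → ℤˣ, ∀ s t, (c (col s) : ℤ) * ε s = -1 → (c (col t) : ℤ) * ε t = -1 →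
      Relation.ReflTransGen (fun a b => (c (col a) : ℤ) * ε a = -1 ∧ (c (col b) : ℤ) * ε b = -1 ∧
        com a b ∧ ∃ i, bil (v a) (n i) = 0 ∧ bil (v b) (n i) = 0) s t

namespace KE

variable {S I : Type} (D : KE S I)

/-- The colour parity homomorphism. -/
theorem z_liftable : D.cm.IsLiftable (fun s => (Pi.mulSingle (D.col s) (-1) : Fin 3 → ℤˣ)) := by
  refine raMat_lift _ (fun s => ?_) (fun s t _ => mul_comm _ _)
  rw [← Pi.mulSingle_mul]
  simp

noncomputable def z : D.W →* (Fin 3 → ℤˣ) := D.cs.lift ⟨_, D.z_liftable⟩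

theorem z_simple (s : S) : D.z (D.cs.simple s) = Pi.mulSingle (D.col s) (-1) := by
  rw [z, CoxeterSystem.lift_apply_simple]

/-- The reflection of one coordinate. -/
def flip (c : Fin 3) (e : ℤ) : Equiv.Perm (Fin 3 → ℤ) where
  toFun x := Function.update x c (e - x c)
  invFun x := Function.update x c (e - x c)
  left_inv x := by
    ext i
    by_cases h : i = c
    · subst h; simp
    · simp [h]
  right_inv x := by
    ext i
    by_cases h : i = c
    · subst h; simp
    · simp [h]

theorem phi_liftable : D.cm.IsLiftable (fun s => flip (D.col s) (D.ε s)) := by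
  refine raMat_lift _ (fun s => ?_) (fun s t h => ?_)
  · exact Equiv.ext (fun x => (flip (D.col s) (D.ε s)).left_inv x)
  · have hne := D.com_col s t h
    ext x i
    simp only [Equiv.Perm.coe_mul, Function.comp_apply, flip, Equiv.coe_fn_mk]
    by_cases h1 : i = D.col s
    · subst h1; simp [hne]
    · by_cases h2 : i = D.col t
      · subst h2; simp [hne.symm]
      · simp [h1, h2]

noncomputable def phi : D.W →* Equiv.Perm (Fin 3 → ℤ) := D.cs.lift ⟨_, D.phi_liftable⟩

theorem phi_simple (s : S) : D.phi (D.cs.simple s) = flip (D.col s) (D.ε s) := by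
  rw [phi, CoxeterSystem.lift_apply_simple]

/-- The height. -/
noncomputable def ht (w : D.W) : ℤ := ∑ i, D.phi w 0 i

theorem phi_apply (w : D.W) (x : Fin 3 → ℤ) (i : Fin 3) :
    D.phi w x i = (D.z w i : ℤ) * x i + D.phi w 0 i := by
  induction w using D.cs.simple_induction_left with
  | one => simp
  | mul_simple_left w s ih =>
    rw [map_mul, map_mul, phi_simple, z_simple]
    simp only [Equiv.Perm.coe_mul, Function.comp_apply, flip, Equiv.coe_fn_mk, Pi.mul_apply]
    by_cases h : i = D.col s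
    · subst h
      simp only [Function.update_self, Pi.mulSingle_eq_same]
      rw [ih]
      push_cast
      ring
    · simp only [Function.update_of_ne h, Pi.mulSingle_eq_of_ne h, one_mul]
      exact ih

theorem ht_one : D.ht 1 = 0 := by simp [ht]

theorem ht_mul (w : D.W) (s : S) :
    D.ht (w * D.cs.simple s) = D.ht w + (D.z w (D.col s) : ℤ) * D.ε s := by
  unfold ht
  rw [map_mul, phi_simple]
  have h : ∀ i, (D.phi w * flip (D.col s) (D.ε s)) 0 i =
      D.phi w 0 i + (if i = D.col s then (D.z w (D.col s) : ℤ) * D.ε s else 0) := by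
    intro i
    rw [Equiv.Perm.coe_mul, Function.comp_apply, phi_apply]
    by_cases h : i = D.col s
    · subst h
      simp [flip]
      ring
    · simp [flip, h]
  rw [Finset.sum_congr rfl (fun i _ => h i), Finset.sum_add_distrib]
  simp

theorem ht_add (g w : D.W) (hg : D.z g = 1) : D.ht (g * w) = D.ht g + D.ht w := by
  unfold ht
  rw [map_mul, ← Finset.sum_add_distrib]
  apply Finset.sum_congr rfl
  intro i _
  rw [Equiv.Perm.coe_mul, Function.comp_apply, phi_apply, hg]
  simp
  ring

/-- The big subgroup of the wall group. -/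
noncomputable def GW : Subgroup D.W := D.z.ker

/-- The small subgroup. -/
noncomputable def FW : Subgroup D.W where
  carrier := {w | D.z w = 1 ∧ D.ht w = 0}
  mul_mem' := by
    rintro a b ⟨ha, ha'⟩ ⟨hb, hb'⟩
    exact ⟨by rw [map_mul, ha, hb, one_mul], by rw [D.ht_add _ _ ha, ha', hb', add_zero]⟩
  one_mem' := ⟨map_one _, D.ht_one⟩
  inv_mem' := by
    rintro a ⟨ha, ha'⟩
    refine ⟨by rw [map_inv, ha, inv_one], ?_⟩
    have h := D.ht_add a a⁻¹ ha
    rw [mul_inv_cancel, D.ht_one, ha'] at h
    linarith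

theorem FW_le : D.FW ≤ D.GW := fun _ h => h.1

theorem ht_inv {g : D.W} (hg : D.z g = 1) : D.ht g⁻¹ = - D.ht g := by
  have h := D.ht_add g g⁻¹ hg
  rw [mul_inv_cancel, ht_one] at h
  linarith

theorem FW_conj {g f : D.W} (hg : g ∈ D.GW) (hf : f ∈ D.FW) : g * f * g⁻¹ ∈ D.FW := by
  have hg1 : D.z g = 1 := hg
  refine ⟨by rw [map_mul, map_mul, map_inv, hg1, hf.1]; simp, ?_⟩
  rw [D.ht_add _ _ (by rw [map_mul, hg1, hf.1, one_mul]), D.ht_add _ _ hg1, D.ht_inv hg1, hf.2]
  ring

theorem GW_sq (w : D.W) : w * w ∈ D.GW := by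
  show D.z (w * w) = 1
  rw [map_mul]
  ext i
  simp

instance : D.GW.FiniteIndex := by
  unfold GW
  infer_instance

/-- The edges of the orbifold group. -/
def edge (s t : S) : Prop := D.com s t ∧ ∃ i, bil (D.v s) (D.n i) = 0 ∧ bil (D.v t) (D.n i) = 0

/-- The Coxeter matrix with only the edges meeting a cap. -/
noncomputable def cmX : CoxeterMatrix S :=
  raMat D.edge (fun _ _ h => ⟨D.com_symm _ _ h.1, h.2.imp fun _ h => ⟨h.2, h.1⟩⟩)
    (fun _ _ h => D.com_ne _ _ h.1)

noncomputable abbrev csX : CoxeterSystem D.cmX D.cmX.Group := D.cmX.toCoxeterSystem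

theorem rhoX_liftable : D.cmX.IsLiftable D.cs.simple :=
  raMat_lift _ (fun s => D.cs.simple_mul_simple_self s) (fun _ _ h => D.simple_comm h.1)

noncomputable def rhoX : D.cmX.Group →* D.W := D.csX.lift ⟨_, D.rhoX_liftable⟩

theorem rhoX_simple (s : S) : D.rhoX (D.csX.simple s) = D.cs.simple s := by
  rw [rhoX, CoxeterSystem.lift_apply_simple]

theorem edge_comm {s t : S} (h : D.edge s t) :
    D.csX.simple s * D.csX.simple t = D.csX.simple t * D.csX.simple s :=
  raMat_comm D.csX h

/-- The Morse data on the orbifold group. -/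
noncomputable def morse : MorseData D.cmX.Group S where
  σ := D.csX.simple
  gen := D.csX.subgroup_closure_range_simple
  sq := D.csX.simple_mul_simple_self
  col := D.col
  ε := D.ε
  hε := D.hε
  z := D.z.comp D.rhoX
  hz s := by rw [MonoidHom.comp_apply, rhoX_simple, z_simple]
  h w := D.ht (D.rhoX w)
  h_one := by rw [map_one, ht_one]
  h_mul w s := by
    rw [map_mul, rhoX_simple, ht_mul]
    rfl
  h_add g w hg := by
    rw [map_mul]
    exact D.ht_add _ _ hg

theorem FX_fg [Finite S] : (D.FW.comap D.rhoX).FG := by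
  have h := D.morse.ker_fg (fun c s t hs ht => by
    refine Relation.ReflTransGen.mono ?_ _ _ (D.conn c s t hs ht)
    rintro a b ⟨h1, h2, h3, h4⟩
    exact ⟨h1, h2, D.com_col a b h3, D.edge_comm ⟨h3, h4⟩⟩)
  exact h

theorem rhoX_surj : Function.Surjective D.rhoX := by
  rw [← MonoidHom.range_eq_top, eq_top_iff, ← D.cs.subgroup_closure_range_simple,
    Subgroup.closure_le]
  rintro _ ⟨s, rfl⟩
  exact ⟨D.csX.simple s, D.rhoX_simple s⟩

theorem FW_fg [Finite S] : D.FW.FG := by
  obtain ⟨T, hT⟩ := D.FX_fg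
  refine (Subgroup.fg_iff _).mpr ⟨D.rhoX '' (T : Set D.cmX.Group), ?_, T.finite_toSet.image _⟩
  rw [← MonoidHom.map_closure, hT, Subgroup.map_comap_eq_self_of_surjective D.rhoX_surj]

theorem GW_fg [Finite S] : D.GW.FG := by
  have h1 : Group.FG D.W := by
    refine ⟨⟨(Set.finite_range D.cs.simple).toFinset, ?_⟩⟩
    rw [Set.Finite.coe_toFinset, D.cs.subgroup_closure_range_simple]
  exact (Group.fg_iff_subgroup_fg _).mp (Subgroup.fg_of_index_ne_zero D.GW)

end KE

end Pool.Agent.helper75.KL
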