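import Pool.Agent.helper75.KL.Cover
import Pool.Agent.helper75.KL.Grp

/-! The concrete data as an instance of the abstract structure. -/

namespace Pool.Agent.helper75.KL

theorem rv_comb (a b : ℕ) (x y : Fin 5 → ℤ) :
    (a : ℝ) • rv x + (b : ℝ) • rv y = rv (fun k => (a : ℤ) * x k + (b : ℤ) * y k) := by
  ext k
  simp only [Pi.add_apply, Pi.smul_apply, smul_eq_mul, rv]
  push_cast
  ring

theorem rv_add (x y : Fin 5 → ℤ) : rv x + rv y = rv (fun k => x k + y k) := by
  ext k
  simp only [Pi.add_apply, rv]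
  push_cast
  ring

/-- The underlying wall data. -/
noncomputable def theKD : KD (Fin 14) (Fin 21) where
  v s := rv (vZ s)
  n i := rv (nZ i)
  com s t := bilZ (vZ s) (vZ t) = 0
  v0 s := by unfold rv; exact_mod_cast z_v0 s
  vint s k := ⟨vZ s k, rfl⟩
  vv s := by rw [bil_rv, z_vv]; norm_num
  com_symm s t h := by
    have : bilZ (vZ t) (vZ s) = bilZ (vZ s) (vZ t) := by unfold bilZ; ring
    rw [this, h]
  com_ne s t h := by
    rintro rfl
    rw [z_vv] at h
    exact absurd h (by norm_num)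
  com_orth s t h := by rw [bil_rv, h]; norm_num
  ncom s t h hc := by
    rw [rv_add]
    refine FC_rv ?_ (z_ncom s t h hc)
    show 0 ≤ vZ s 0 + vZ t 0
    rw [z_v0, z_v0]; norm_num
  n0 i := by unfold rv; exact_mod_cast z_n0 i
  nn i := by rw [bil_rv]; exact_mod_cast z_nn i
  sep s i h := by
    rw [bil_rv] at h
    obtain ⟨a, b, ha, hb, h1, h2⟩ := z_sep s i (by exact_mod_cast h)
    refine ⟨(a : ℕ), (b : ℕ), by exact_mod_cast ha, by exact_mod_cast hb, ?_⟩
    rw [rv_comb]
    exact FC_rv h1 h2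
  cover y h0 hy hS := cover_data y h0 hy hS

theorem sign_vec (c : Fin 3 → ℤˣ) : ∃ m : Fin 8, ∀ i, (c i : ℤ) = sgZ m i := by
  rcases Int.units_eq_one_or (c 0) with h0 | h0 <;>
  rcases Int.units_eq_one_or (c 1) with h1 | h1 <;>
  rcases Int.units_eq_one_or (c 2) with h2 | h2
  · exact ⟨0, fun i => by fin_cases i <;> simp [sgZ, h0, h1, h2]⟩
  · exact ⟨1, fun i => by fin_cases i <;> simp [sgZ, h0, h1, h2]⟩
  · exact ⟨2, fun i => by fin_cases i <;> simp [sgZ, h0, h1, h2]⟩
  · exact ⟨3, fun i => by fin_cases i <;> simp [sgZ, h0, h1, h2]⟩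
  · exact ⟨4, fun i => by fin_cases i <;> simp [sgZ, h0, h1, h2]⟩
  · exact ⟨5, fun i => by fin_cases i <;> simp [sgZ, h0, h1, h2]⟩
  · exact ⟨6, fun i => by fin_cases i <;> simp [sgZ, h0, h1, h2]⟩
  · exact ⟨7, fun i => by fin_cases i <;> simp [sgZ, h0, h1, h2]⟩

/-- The relation of the descending link. -/
def linkRel (c : Fin 3 → ℤˣ) (a b : Fin 14) : Prop :=
  (c (colZ a) : ℤ) * epsZ a = -1 ∧ (c (colZ b) : ℤ) * epsZ b = -1 ∧
    bilZ (vZ a) (vZ b) = 0 ∧ ∃ i, bil (rv (vZ a)) (rv (nZ i)) = 0 ∧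
      bil (rv (vZ b)) (rv (nZ i)) = 0

theorem linkRel_symm {c : Fin 3 → ℤˣ} {a b : Fin 14} (h : linkRel c a b) : linkRel c b a := by
  obtain ⟨h1, h2, h3, i, h4, h5⟩ := h
  refine ⟨h2, h1, ?_, i, h5, h4⟩
  have : bilZ (vZ b) (vZ a) = bilZ (vZ a) (vZ b) := by unfold bilZ; ring
  rw [this, h3]

theorem link_root {c : Fin 3 → ℤˣ} {m : Fin 8} (hm : ∀ i, (c i : ℤ) = sgZ m i) (s : Fin 14)
    (hs : (c (colZ s) : ℤ) * epsZ s = -1) :
    Relation.ReflTransGen (linkRel c) s (srZ m) := by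
  obtain ⟨k, hk⟩ : ∃ k, k = skZ m s := ⟨_, rfl⟩
  induction k using Nat.strong_induction_on generalizing s with
  | _ k ih =>
    by_cases h : s = srZ m
    · rw [h]
    · have hs' := hs
      rw [hm] at hs'
      obtain ⟨h1, h2, ⟨i, h3, h4⟩, h5⟩ := z_state m s hs' h
      rw [← hm] at h1
      refine Relation.ReflTransGen.head ?_ (ih _ (by rw [hk]; exact h5) (spZ m s) h1 rfl)
      exact ⟨hs, h1, h2, i, by rw [bil_rv, h3]; norm_num, by rw [bil_rv, h4]; norm_num⟩

/-- The data with colours and signs. -/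
noncomputable def theKE : KE (Fin 14) (Fin 21) where
  toKD := theKD
  col := colZ
  ε := epsZ
  hε := z_eps
  com_col := z_col
  conn := by
    intro c s t hs ht
    obtain ⟨m, hm⟩ := sign_vec c
    have h1 := link_root hm s hs
    have h2 := link_root hm t ht
    have h3 : Relation.ReflTransGen (linkRel c) (srZ m) t := by
      have : Relation.ReflTransGen (Function.swap (linkRel c)) (srZ m) t :=
        Relation.reflTransGen_swap.mpr h2
      exact Relation.ReflTransGen.mono (fun a b hab => linkRel_symm hab) _ _ this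
    exact h1.trans h3

end Pool.Agent.helper75.KL
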