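import Pool.Agent.helper75.KL.Omega

/-! The parabolic limit formula, and the limit set as the complement of `Om`. -/

namespace Pool.Agent.helper75.KL

open Filter Topology

namespace KD

variable {S I : Type} (D : KD S I)

theorem act_st_apply {s t : S} (h : bil (D.v s) (D.v t) = -1) (e : V) :
    D.act (D.cs.simple s * D.cs.simple t) e =
      e + (-(2 * bil e (D.v t))) • (D.v s + D.v t) +
        (2 * (-bil e (D.v s + D.v t))) • D.v s := by
  rw [act_mul, act_simple, act_simple, bil_sub_left, bil_smul_left, bil_comm (D.v t) (D.v s), h,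
    bil_add_right]
  ext k
  simp only [Pi.sub_apply, Pi.smul_apply, Pi.add_apply, smul_eq_mul]
  ring

theorem act_st_N {s t : S} (h : bil (D.v s) (D.v t) = -1) :
    D.act (D.cs.simple s * D.cs.simple t) (D.v s + D.v t) = D.v s + D.v t := by
  rw [D.act_st_apply h]
  have h1 : bil (D.v s + D.v t) (D.v t) = 0 := by rw [bil_add_left, h, D.vv]; norm_num
  have h2 : bil (D.v s + D.v t) (D.v s + D.v t) = 0 := by
    rw [bil_add_right, h1, bil_add_left, D.vv, bil_comm (D.v t) (D.v s), h]; norm_num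
  rw [h1, h2]
  simp

theorem act_st_vs {s t : S} (h : bil (D.v s) (D.v t) = -1) :
    D.act (D.cs.simple s * D.cs.simple t) (D.v s) = D.v s + (2 : ℝ) • (D.v s + D.v t) := by
  rw [D.act_st_apply h]
  have h2 : bil (D.v s) (D.v s + D.v t) = 0 := by
    rw [bil_add_right, D.vv, h]; norm_num
  rw [h, h2]
  simp

theorem par_formula {s t : S} (h : bil (D.v s) (D.v t) = -1) (n : ℕ) (e : V) :
    D.act ((D.cs.simple s * D.cs.simple t) ^ n) e =
      e + (2 * (-bil e (D.v s + D.v t)) * n * (n - 1) - 2 * n * bil e (D.v t)) •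
          (D.v s + D.v t) + (2 * (-bil e (D.v s + D.v t)) * n) • D.v s := by
  induction n with
  | zero => rw [pow_zero, act_one]; simp
  | succ n ih =>
    rw [pow_succ', act_mul, ih, act_add, act_add, act_smul, act_smul, D.act_st_N h, D.act_st_vs h,
      D.act_st_apply h]
    ext k
    simp only [Pi.smul_apply, Pi.add_apply, smul_eq_mul]
    push_cast
    ring

theorem N_zero (s t : S) : (D.v s + D.v t) 0 = 2 := by
  rw [Pi.add_apply, D.v0, D.v0]; norm_num

theorem N_FC {s t : S} (h : bil (D.v s) (D.v t) = -1) : FC (D.v s + D.v t) := by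
  refine ⟨by rw [N_zero]; norm_num, ?_⟩
  rw [bil_add_right, bil_add_left, bil_add_left, D.vv, D.vv, bil_comm (D.v t) (D.v s), h]
  norm_num

theorem par_tendsto {s t : S} (h : bil (D.v s) (D.v t) = -1) (g : D.W) (e : V)
    (he : bil e (D.v s + D.v t) ≠ 0) :
    Tendsto (fun n : ℕ => kl (D.act g (D.act ((D.cs.simple s * D.cs.simple t) ^ n) e))) atTop
      (𝓝 (kl (D.act g (D.v s + D.v t)))) := by
  set κ : ℝ := -bil e (D.v s + D.v t) with hκ
  have hκ0 : κ ≠ 0 := neg_ne_zero.mpr he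
  set F : ℝ → V := fun ε => D.act g (ε ^ 2 • e +
    (2 * κ * (1 - ε) - 2 * ε * bil e (D.v t)) • (D.v s + D.v t) + (2 * κ * ε) • D.v s) with hF
  have hF0 : F 0 = (2 * κ) • D.act g (D.v s + D.v t) := by
    rw [hF]
    show D.act g _ = _
    rw [← act_smul]
    congr 1
    ext k
    simp only [Pi.smul_apply, Pi.add_apply, smul_eq_mul]
    ring
  have hFc : Continuous F := by
    rw [hF]
    refine (D.continuous_act g).comp ?_
    fun_prop
  have hN0 : (D.act g (D.v s + D.v t)) 0 ≠ 0 :=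
    (D.act_pos g (D.N_FC h) (by rw [N_zero]; norm_num)).ne'
  have hne : F 0 0 ≠ 0 := by
    rw [hF0, Pi.smul_apply, smul_eq_mul]
    exact mul_ne_zero (mul_ne_zero two_ne_zero hκ0) hN0
  have hlim : Tendsto (fun ε : ℝ => kl (F ε)) (𝓝 0) (𝓝 (kl (F 0))) :=
    ContinuousAt.comp (g := kl) (continuousAt_kl hne) hFc.continuousAt
  have hinv : Tendsto (fun n : ℕ => ((n : ℝ))⁻¹) atTop (𝓝 0) := tendsto_inv_atTop_nhds_zero_nat
  have h1 := hlim.comp hinv
  have h2 : kl (F 0) = kl (D.act g (D.v s + D.v t)) := by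
    rw [hF0, kl_smul (mul_ne_zero two_ne_zero hκ0)]
  rw [h2] at h1
  refine h1.congr' ?_
  filter_upwards [eventually_ge_atTop 1] with n hn
  have hn0 : (n : ℝ) ≠ 0 := by positivity
  show kl (F ((n : ℝ)⁻¹)) = _
  have e1 : F ((n : ℝ)⁻¹) = ((n : ℝ)⁻¹) ^ 2 •
      D.act g (D.act ((D.cs.simple s * D.cs.simple t) ^ n) e) := by
    rw [D.par_formula h, ← act_smul, hF]
    show D.act g _ = D.act g _
    congr 1
    ext k
    simp only [Pi.smul_apply, Pi.add_apply, smul_eq_mul, ← hκ]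
    field_simp
  rw [e1, kl_smul (pow_ne_zero 2 (inv_ne_zero hn0))]

theorem lim_sub {y : Sph} (hy : y ∈ D.Om) :
    y.1 ∉ closure {p : V | ∃ w : D.W, p = kl (D.act w e0)} := by
  obtain ⟨w, i, hi⟩ := hy
  rw [smul_mem_cap, bil_act_left] at hi
  intro hc
  have hcl : IsClosed {p : V | bil p (D.act w⁻¹ (D.n i)) ≤ 0} :=
    isClosed_le (continuous_bil_left _) continuous_const
  have hsub : {p : V | ∃ w : D.W, p = kl (D.act w e0)} ⊆
      {p : V | bil p (D.act w⁻¹ (D.n i)) ≤ 0} := by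
    rintro p ⟨g, rfl⟩
    show bil (kl (D.act g e0)) (D.act w⁻¹ (D.n i)) ≤ 0
    have h1 : bil (D.act g e0) (D.act w⁻¹ (D.n i)) = bil (D.act (w * g) e0) (D.n i) := by
      rw [act_mul, bil_act_left (w := w)]
    rw [kl, bil_smul_left, h1]
    exact mul_nonpos_of_nonneg_of_nonpos
      (inv_nonneg.mpr (D.act_FC g FC_e0).1) (D.e0_tits_n i _)
  have := hcl.closure_subset_iff.mpr hsub hc
  exact absurd hi (not_lt.mpr this)

/-- If the orbit of `e0` meets infinitely many vectors below a fixed height relative to `y`, then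
`y` is a limit point of the orbit of `e0` under a subgroup of finite index. -/
theorem lim_sup_inf {y : Sph} (K : Subgroup D.W) [K.FiniteIndex]
    (hinf : ¬ {a : V | ∃ u ∈ (⊤ : Subgroup D.W), a = D.act u e0 ∧ -bil y.1 a ≤ -bil y.1 e0}.Finite) :
    y.1 ∈ closure {p : V | ∃ w ∈ K, p = kl (D.act w e0)} := by
  classical
  set Y : Set D.W := {u | -bil y.1 (D.act u e0) ≤ -bil y.1 e0} with hY
  have hYinf : Y.Infinite := by
    intro hfin
    apply hinf
    refine (hfin.image (fun u => D.act u e0)).subset ?_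
    rintro a ⟨u, -, rfl, hu⟩
    exact ⟨u, hu, rfl⟩
  have : Infinite Y := hYinf.to_subtype
  have : Finite (D.W ⧸ K) := Subgroup.finite_quotient_of_finiteIndex
  obtain ⟨q, hq⟩ := Finite.exists_infinite_fiber
    (fun u : Y => (QuotientGroup.mk (u.1)⁻¹ : D.W ⧸ K))
  obtain ⟨⟨u0, hu0⟩⟩ : Nonempty ((fun u : Y => (QuotientGroup.mk (u.1)⁻¹ : D.W ⧸ K)) ⁻¹' {q}) :=
    inferInstance
  have hmem : ∀ u : Y, (QuotientGroup.mk (u.1)⁻¹ : D.W ⧸ K) = q → u.1 * (u0.1)⁻¹ ∈ K := by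
    intro u hu
    have h1 : (QuotientGroup.mk (u.1)⁻¹ : D.W ⧸ K) = QuotientGroup.mk (u0.1)⁻¹ := by
      rw [hu]; exact hu0.symm
    have h2 := QuotientGroup.eq.mp h1
    rwa [inv_inv] at h2
  set e' : V := D.act (u0.1)⁻¹ e0 with he'
  have he'F : FC e' := D.act_FC _ FC_e0
  have he'b : bil e' e' = -1 := by rw [he', bil_act, bil_e0_e0]
  set M : ℝ := 2 * e' 0 with hM
  have hMF : FC (M • e0 - e') := by
    constructor
    · have : (M • e0 - e') 0 = M - e' 0 := by simp [e0_zero]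
      rw [this, hM]; linarith [he'F.1]
    · rw [bil_sub_left, bil_sub_right, bil_sub_right, bil_smul_left, bil_smul_left,
        bil_smul_right, bil_smul_right, bil_e0_e0, bil_e0, bil_e0_left, he'b, hM]
      nlinarith [sq_nonneg (e' 0)]
  have hM0 : 0 ≤ M := by rw [hM]; linarith [he'F.1]
  have hbd : ∀ u : Y, -bil y.1 (D.act (u.1 * (u0.1)⁻¹) e0) ≤ M := by
    intro u
    have h1 := y.FC.bil_le (D.act_FC u.1 hMF)
    have h2 : D.act u.1 (M • e0 - e') = M • D.act u.1 e0 - D.act (u.1 * (u0.1)⁻¹) e0 := by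
      rw [act_mul, ← he', sub_eq_add_neg, act_add, act_smul, sub_eq_add_neg]
      congr 1
      rw [← neg_one_smul ℝ e', act_smul, neg_one_smul]
    rw [h2, bil_sub_right, bil_smul_right] at h1
    have h3 : -bil y.1 (D.act u.1 e0) ≤ 1 := by
      have h4 : -bil y.1 (D.act u.1 e0) ≤ -bil y.1 e0 := u.2
      rw [bil_e0, y.2.1] at h4
      linarith
    nlinarith
  rw [Metric.mem_closure_iff]
  intro ε hε
  set R : ℝ := 2 * M / ε ^ 2 with hR
  -- infinitely many integral vectors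
  have hex : ∃ u : Y, (QuotientGroup.mk (u.1)⁻¹ : D.W ⧸ K) = q ∧
      R < (D.act (u.1 * (u0.1)⁻¹) e0) 0 := by
    by_contra hcon
    push Not at hcon
    have hinj : Function.Injective
        (fun u : ((fun u : Y => (QuotientGroup.mk (u.1)⁻¹ : D.W ⧸ K)) ⁻¹' {q}) =>
          (⟨D.act (u.1.1 * (u0.1)⁻¹) e0, D.act_e0_int _, D.act_FC _ FC_e0, hcon u.1 u.2⟩ :
            {a : V | IsInt a ∧ FC a ∧ a 0 ≤ R})) := by
      intro u u' huu
      have h1 : D.act (u.1.1 * (u0.1)⁻¹) e0 = D.act (u'.1.1 * (u0.1)⁻¹) e0 :=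
        congrArg Subtype.val huu
      have h2 := mul_right_cancel (D.act_e0_inj h1)
      exact Subtype.ext (Subtype.ext h2)
    have hfin : Finite {a : V | IsInt a ∧ FC a ∧ a 0 ≤ R} := (finite_int R).to_subtype
    have := Finite.of_injective _ hinj
    exact not_finite ((fun u : Y => (QuotientGroup.mk (u.1)⁻¹ : D.W ⧸ K)) ⁻¹' {q})
  obtain ⟨u, huq, huR⟩ := hex
  set a : V := D.act (u.1 * (u0.1)⁻¹) e0 with ha
  have haF : FC a := D.act_FC _ FC_e0
  have ha0 : 0 < a 0 := D.act_pos _ FC_e0 (by rw [e0_zero]; norm_num)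
  refine ⟨kl a, ⟨_, hmem u huq, by rw [ha]⟩, ?_⟩
  have hab : -bil y.1 a ≤ M := hbd u
  -- the key estimate
  have key : (kl a 1 - y.1 1) ^ 2 + (kl a 2 - y.1 2) ^ 2 + (kl a 3 - y.1 3) ^ 2 +
      (kl a 4 - y.1 4) ^ 2 < ε ^ 2 := by
    have h0 : kl a 0 = 1 := kl_zero ha0.ne'
    have e1 : (kl a 1 - y.1 1) ^ 2 + (kl a 2 - y.1 2) ^ 2 + (kl a 3 - y.1 3) ^ 2 +
        (kl a 4 - y.1 4) ^ 2 = bil (kl a - y.1) (kl a - y.1) := by
      unfold bil
      simp only [Pi.sub_apply]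
      rw [h0, y.2.1]
      ring
    rw [e1, bil_sub_left, bil_sub_right, bil_sub_right, y.2.2, bil_comm y.1 (kl a)]
    have h1 : bil (kl a) (kl a) ≤ 0 := (haF.smul (inv_nonneg.mpr ha0.le)).2
    have h2 : -bil (kl a) y.1 = (-bil y.1 a) / a 0 := by
      rw [kl, bil_smul_left, bil_comm a y.1]; field_simp
    have h3 : (-bil y.1 a) / a 0 ≤ M / a 0 := div_le_div_of_nonneg_right hab ha0.le
    have h4 : 2 * (M / a 0) < ε ^ 2 := by
      rw [hR, div_lt_iff₀ (by positivity)] at huR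
      rw [← mul_div_assoc, div_lt_iff₀ ha0]
      linarith
    linarith
  have hsq : ∀ k, (y.1 k - kl a k) ^ 2 < ε ^ 2 := by
    intro k
    have p1 := sq_nonneg (kl a 1 - y.1 1)
    have p2 := sq_nonneg (kl a 2 - y.1 2)
    have p3 := sq_nonneg (kl a 3 - y.1 3)
    have p4 := sq_nonneg (kl a 4 - y.1 4)
    have k0 : (y.1 0 - kl a 0) ^ 2 < ε ^ 2 := by
      rw [kl_zero ha0.ne', y.2.1]; simpa using pow_pos hε 2
    have k1 : (y.1 1 - kl a 1) ^ 2 < ε ^ 2 := by nlinarith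
    have k2 : (y.1 2 - kl a 2) ^ 2 < ε ^ 2 := by nlinarith
    have k3 : (y.1 3 - kl a 3) ^ 2 < ε ^ 2 := by nlinarith
    have k4 : (y.1 4 - kl a 4) ^ 2 < ε ^ 2 := by nlinarith
    fin_cases k
    · exact k0
    · exact k1
    · exact k2
    · exact k3
    · exact k4
  rw [dist_pi_lt_iff hε]
  intro k
  rw [Real.dist_eq]
  exact abs_lt_of_sq_lt_sq (hsq k) hε.le

theorem lim_sup {y : Sph} (hy : y ∉ D.Om) (K : Subgroup D.W) [K.FiniteIndex]
    (hsq : ∀ w : D.W, w * w ∈ K) :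
    y.1 ∈ closure {p : V | ∃ w ∈ K, p = kl (D.act w e0)} := by
  by_cases hfin : {a : V | ∃ u ∈ (⊤ : Subgroup D.W), a = D.act u e0 ∧
      -bil y.1 a ≤ -bil y.1 e0}.Finite
  swap
  · exact D.lim_sup_inf K hfin
  obtain ⟨u, -, hmin⟩ := D.exists_min ⊤ y.1 hfin
  have hP : ∀ s, bil (u • y).1 (D.v s) ≤ 0 := by
    intro s
    rw [bil_smul_pt]
    refine mul_nonpos_of_nonneg_of_nonpos (inv_nonneg.mpr (D.act_sph_pos u y).le) ?_
    apply D.wall_of_min
    rw [← act_mul]
    exact hmin _ (Subgroup.mem_top _)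
  rcases D.cover (u • y).1 (u • y).2.1 (u • y).2.2 hP with ⟨i, hi⟩ | ⟨s, t, -, -, hst, hN⟩
  · exact absurd ⟨u, i, hi⟩ hy
  have he : bil (D.act u e0) (D.v s + D.v t) ≠ 0 :=
    ((D.act_FC u FC_e0).bil_neg (by rw [bil_act, bil_e0_e0]; norm_num) (D.N_FC hst)
      (by rw [N_zero]; norm_num)).ne
  have h1 := (D.par_tendsto hst u⁻¹ (D.act u e0) he).comp
    (tendsto_id.atTop_mul_const' (two_pos : (0 : ℕ) < 2))
  have h2 : kl (D.act u⁻¹ (D.v s + D.v t)) = y.1 := by
    have h3 : u⁻¹ • (u • y) = y := inv_smul_smul u y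
    have h4 := congrArg Subtype.val h3
    rw [smul_val] at h4
    rw [hN, act_smul, kl_smul two_ne_zero, h4]
  rw [h2] at h1
  refine mem_closure_of_tendsto h1 (Eventually.of_forall fun n => ?_)
  refine ⟨(u⁻¹ * (D.cs.simple s * D.cs.simple t) ^ n * u) *
    (u⁻¹ * (D.cs.simple s * D.cs.simple t) ^ n * u), hsq _, ?_⟩
  have h5 : (u⁻¹ * (D.cs.simple s * D.cs.simple t) ^ n * u) *
    (u⁻¹ * (D.cs.simple s * D.cs.simple t) ^ n * u) =
      u⁻¹ * ((D.cs.simple s * D.cs.simple t) ^ (n * 2) * u) := by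
    rw [mul_two, pow_add]
    group
  rw [h5, act_mul, act_mul]
  rfl

end KD

end Pool.Agent.helper75.KL
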