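import Pool.Agent.helper75.KL.Tors
import Pool.Agent.helper75.KL.Inst

/-! Final assembly for the explicit data. -/

namespace Pool.Agent.helper75.KL

/-- The witnesses as points of the sphere. -/
noncomputable def qS (m : Fin 22) : Sph :=
  ⟨kl (rv (qZ m)), kl_zero (by
      have h := (z_q m).1
      have : (0 : ℝ) < rv (qZ m) 0 := by unfold rv; exact_mod_cast h
      exact this.ne'),
    bil_kl (by rw [bil_rv, (z_q m).2]; norm_num)⟩

theorem qS_mem {m : Fin 22} {i : Fin 21} (h : 0 < bilZ (qZ m) (nZ i)) :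
    qS m ∈ cap (theKE.n i) := by
  show 0 < bil (kl (rv (qZ m))) (rv (nZ i))
  unfold kl
  rw [bil_smul_left, bil_rv]
  have h0 := (z_q m).1
  have h1 : (0 : ℝ) < rv (qZ m) 0 := by unfold rv; exact_mod_cast h0
  exact mul_pos (inv_pos.mpr h1) (by exact_mod_cast h)

theorem z_ne : ∀ k : Fin 21, ∃ m, 0 < bilZ (qZ m) (nZ k) := by decide +kernel

theorem cap_ne (i : Fin 21) : (cap (theKE.n i)).Nonempty := by
  obtain ⟨m, hm⟩ := z_ne i
  exact ⟨qS m, qS_mem hm⟩

theorem chart_cond (i : Fin 21) : theKE.n i 3 ≤ theKE.n i 0 := by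
  show rv (nZ i) 3 ≤ rv (nZ i) 0
  unfold rv
  exact_mod_cast z_chart i

theorem U_sc : IsSimplyConnected theKE.U := by
  refine chart_sc (N := 20) (fun i => theKE.n i) chart_cond cap_ne parZ nxtZ rkZ ?_ ?_
  · intro k hk
    obtain ⟨h1, m, h2, h3⟩ := z_par k hk
    exact ⟨h1, qS m, qS_mem h2, qS_mem h3⟩
  · rintro j k hjk ⟨y, hy1, hy2⟩ hp
    rcases z_nxt j k hjk hp with ⟨h1, ⟨m, h2, h3, h4⟩, h5⟩ | ⟨a, b, ha, hb, h1, h2⟩
    · exact ⟨h1, ⟨qS m, ⟨qS_mem h2, qS_mem h3⟩, qS_mem h4⟩, h5⟩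
    · exfalso
      have h3 : FC (((a : ℕ) : ℝ) • rv (nZ j) + ((b : ℕ) : ℝ) • rv (nZ k)) := by
        rw [rv_comb]
        exact FC_rv h1 h2
      have h4 := y.FC.bil_le h3
      rw [bil_add_right, bil_smul_right, bil_smul_right] at h4
      have h5 : 0 < bil y.1 (rv (nZ j)) := hy1
      have h6 : 0 < bil y.1 (rv (nZ k)) := hy2
      have ha' : (0 : ℝ) < ((a : ℕ) : ℝ) := by exact_mod_cast ha
      have hb' : (0 : ℝ) < ((b : ℕ) : ℝ) := by exact_mod_cast hb
      have := mul_pos ha' h5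
      have := mul_pos hb' h6
      linarith

theorem bil_iff (s : Fin 14) (i : Fin 21) :
    bil (theKE.v s) (theKE.n i) = 0 ↔ bilZ (vZ s) (nZ i) = 0 := by
  show bil (rv (vZ s)) (rv (nZ i)) = 0 ↔ _
  rw [bil_rv]
  exact_mod_cast Iff.rfl

theorem Us_pc (s : Fin 14) : IsPathConnected (theKE.Us s) := by
  have h := chart_pc (fun i => theKE.n i) chart_cond {i | bil (theKE.v s) (theKE.n i) = 0}
    (rootZ s) ((bil_iff s _).mpr (z_root s)) (cap_ne _) (nxtSZ s) (rkSZ s) (by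
      intro j hj hne
      obtain ⟨h1, ⟨m, h2, h3⟩, h4⟩ := z_nxtS s j ((bil_iff s j).mp hj) hne
      exact ⟨(bil_iff s _).mpr h1, ⟨qS m, qS_mem h2, qS_mem h3⟩, h4⟩)
  exact h

theorem pair_z {s t : Fin 14} (h : theKE.col s = theKE.col t) :
    theKE.z (theKE.cs.simple s * theKE.cs.simple t) = 1 := by
  rw [map_mul, theKE.z_simple, theKE.z_simple, h, ← Pi.mulSingle_mul]
  simp

theorem pair_ht {s t : Fin 14} (h : theKE.col s = theKE.col t) :
    theKE.ht (theKE.cs.simple s * theKE.cs.simple t) = theKE.ε s - theKE.ε t := by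
  have h1 := theKE.ht_mul 1 s
  rw [one_mul, theKE.ht_one, map_one] at h1
  rw [theKE.ht_mul, h1, theKE.z_simple, h]
  simp
  ring

/-- The point on the wall. -/
noncomputable def pS : Sph := ⟨![1, -1, 0, 0, 0], rfl, by simp [bil]⟩

/-- There are `F`, `G`, `Ω` as in the question, with `G` torsion-free, acting freely on `Ω` and
preserving the two sheets of the hyperboloid, `Ω` path-connected, such that the fundamental group
of `Ω/F` is finitely generated (for every base point) and `Ω` is not simply connected. -/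
theorem kleinian_main : ∃ (F G : Subgroup SO14) (Ω : Set Sph), Setting F G Ω ∧
    (∀ A ∈ G, 0 < A.mat 0 0) ∧
    (∀ A ∈ G, IsOfFinOrder A → A = 1) ∧ (∀ A ∈ G, ∀ y ∈ Ω, A • y = y → A = 1) ∧
    IsPathConnected Ω ∧
    (∀ q : QuotSp F Ω, Group.FG (FundamentalGroup (QuotSp F Ω) q)) ∧
    ¬ IsSimplyConnected Ω := by
  have hOm : IsPathConnected theKE.Om :=
    theKE.Om_joined U_sc.isPathConnected (fun s => (Us_pc s).nonempty)
  refine ⟨theKE.F, theKE.G, theKE.Om, ⟨theKE.F_kleinian, theKE.G_kleinian, theKE.F_fg,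
    theKE.G_fg, theKE.F_le_G, theKE.F_normal, ?_, ?_, theKE.component hOm, ?_⟩, ?_, ?_, ?_, hOm,
    fun q => theKE.pi1_fg U_sc Us_pc cap_ne q, ?_⟩
  · refine theKE.F_index (a := theKE.cs.simple 0 * theKE.cs.simple 1) (pair_z rfl) ?_
    rw [pair_ht (s := 0) (t := 1) rfl]
    show epsZ 0 - epsZ 1 ≠ 0
    decide
  · refine theKE.limitSet_F_infinite (s := 0) (t := 13) (s' := 1) (t' := 2) ?_ ?_ ?_ ?_ ?_
    · show bil (rv (vZ 0)) (rv (vZ 13)) = -1
      rw [bil_rv]
      have : bilZ (vZ 0) (vZ 13) = -1 := by decide +kernel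
      rw [this]; norm_num
    · refine ⟨pair_z rfl, ?_⟩
      rw [pair_ht (s := 0) (t := 13) rfl]
      show epsZ 0 - epsZ 13 = 0
      decide
    · show bil (rv (vZ 1)) (rv (vZ 2)) = -1
      rw [bil_rv]
      have : bilZ (vZ 1) (vZ 2) = -1 := by decide +kernel
      rw [this]; norm_num
    · exact pair_z rfl
    · show bil (rv (vZ 0) + rv (vZ 13)) (rv (vZ 1) + rv (vZ 2)) ≠ 0
      rw [rv_add, rv_add, bil_rv]
      have : bilZ (fun k => vZ 0 k + vZ 13 k) (fun k => vZ 1 k + vZ 2 k) = -6 := by decide +kernel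
      rw [this]; norm_num
  · rintro A ⟨w, rfl⟩ y hy
    rw [theKE.toSO_smul]
    exact theKE.smul_mem_Om w.1 hy
  · rintro A ⟨w, rfl⟩
    have h1 := theKE.act_pos w.1 FC_e0 (by rw [e0_zero]; norm_num)
    have h2 : (theKE.act w.1 e0) 0 = ((theKE.toSO w).1 : Matrix (Fin 5) (Fin 5) ℝ) 0 0 := by
      rw [theKE.toSO_val]
      unfold KD.act
      simp [Matrix.mulVec, dotProduct, e0, Fin.sum_univ_five]
    exact lt_of_lt_of_eq h1 h2
  · rintro A ⟨w, rfl⟩ hA
    obtain ⟨n, hn, h⟩ := isOfFinOrder_iff_pow_eq_one.mp hA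
    rw [← map_pow] at h
    have h2 : w ^ n = 1 := theKE.toSO_inj (h.trans (map_one _).symm)
    have h3 : w.1 ^ n = 1 := congrArg Subtype.val h2
    have h4 : w = 1 := Subtype.ext (theKE.torsion_free w.2 hn h3)
    rw [h4, map_one]
  · rintro A ⟨w, rfl⟩ y hy h
    rw [theKE.toSO_smul] at h
    have h4 : w = 1 := Subtype.ext (theKE.free_GW w.2 hy h)
    rw [h4, map_one]
  · refine theKE.not_sc (s := 3) (t := 13) z_special.1 ?_ (p := pS) ?_ ?_
    · intro i h1 h2
      exact z_special.2 i ((bil_iff 3 i).mp h1) ((bil_iff 13 i).mp h2)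
    · refine theKE.U_sub_Om ⟨3, ?_⟩
      show 0 < bil ![1, -1, 0, 0, 0] (rv (nZ 3))
      simp [bil, rv, nZ]
      norm_num
    · show bil ![1, -1, 0, 0, 0] (rv (vZ 3)) = 0
      simp [bil, rv, vZ]

end Pool.Agent.helper75.KL
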