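import Pool.Agent.helper75.KL.Theta
import Pool.Agent.helper75.KL.Omega

/-! The domain `Om` is not simply connected. -/

namespace Pool.Agent.helper75.KL

namespace KD

variable {S I : Type} (D : KD S I)

open Classical in
/-- The sign homomorphism counting the letter `s`. -/
noncomputable def par (s : S) : D.W →* ℤˣ :=
  D.cs.lift ⟨fun r => if r = s then -1 else 1,
    raMat_lift _ (fun r => by split_ifs <;> simp) (fun r t _ => mul_comm _ _)⟩

theorem par_simple_self (s : S) : D.par s (D.cs.simple s) = -1 := by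
  classical
  rw [par, CoxeterSystem.lift_apply_simple]
  simp

theorem par_simple_ne {s r : S} (h : r ≠ s) : D.par s (D.cs.simple r) = 1 := by
  classical
  rw [par, CoxeterSystem.lift_apply_simple]
  simp [h]

theorem par_closure {s : S} {T : Set S} (hs : s ∉ T) {g : D.W}
    (hg : g ∈ Subgroup.closure (D.cs.simple '' T)) : D.par s g = 1 := by
  induction hg using Subgroup.closure_induction with
  | mem x hx =>
    obtain ⟨r, hr, rfl⟩ := hx
    exact D.par_simple_ne (by rintro rfl; exact hs hr)
  | one => exact map_one _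
  | mul x y _ _ h1 h2 => rw [map_mul, h1, h2, one_mul]
  | inv x _ h => rw [map_inv, h, inv_one]

/-- A wall through `y` gives, after moving `y` into the chamber, the same wall. -/
theorem wall_move {g : D.W} {x : V} {s : S} (hx : D.act g x ∈ D.P) (hs : bil x (D.v s) = 0) :
    bil (D.act g x) (D.v s) = 0 := by
  have h1 : D.act (D.cs.simple s) x = x := by
    rw [act_simple, hs, mul_zero, zero_smul, sub_zero]
  have h2 : D.act (g * D.cs.simple s * g⁻¹) (D.act g x) = D.act g x := by
    rw [act_mul, act_mul, act_inv_act, h1]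
  obtain ⟨-, h3⟩ := D.fund hx hx h2
  by_contra hne
  have h4 := D.par_closure (s := s) (T := {r | bil (D.act g x) (D.v r) = 0}) hne h3
  rw [map_mul, map_mul, map_inv, par_simple_self, mul_comm (D.par s g), mul_assoc,
    mul_inv_cancel, mul_one] at h4
  exact absurd h4 (by decide)

/-- If `com s t` and no cap is orthogonal to both walls `s`, `t`, then `Om` misses the
intersection of the two walls. -/
theorem miss {s t : S} (hst : s ≠ t)
    (hno : ∀ i, bil (D.v s) (D.n i) = 0 → bil (D.v t) (D.n i) ≠ 0) {y : Sph} (hy : y ∈ D.Om)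
    (hs : bil y.1 (D.v s) = 0) (ht : bil y.1 (D.v t) = 0) : False := by
  obtain ⟨w, i, hi⟩ := hy
  obtain ⟨u, hu, hP⟩ := D.cap_to_P (w • y).2.1 (w • y).2.2 hi
  have hc := D.act_sph_pos w y
  have e : D.act (u * w) y.1 = (D.act w y.1 0) • D.act u (w • y).1 := by
    rw [smul_val, kl, act_smul, smul_smul, mul_inv_cancel₀ hc.ne', one_smul, act_mul]
  have hP' : D.act (u * w) y.1 ∈ D.P := by
    rw [e]
    exact ⟨hP.1.smul hc.le, fun s => by
      rw [bil_smul_left]; exact mul_nonpos_of_nonneg_of_nonpos hc.le (hP.2 s)⟩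
  have hni : 0 < bil (D.act (u * w) y.1) (D.n i) := by
    rw [e, bil_smul_left]
    refine mul_pos hc ?_
    rw [bil_act_left, D.act_n ((D.Wi i).inv_mem hu)]
    exact hi
  have h1 := D.wall_inc hP'.1 (D.wall_move hP' hs) hni
  have h2 := D.wall_inc hP'.1 (D.wall_move hP' ht) hni
  exact hno i h1 h2

/-- the complex function of two walls -/
noncomputable def th (s t : S) (x : V) : ℂ :=
  (bil x (D.v s) : ℂ) + (bil x (D.v t) : ℂ) * Complex.I

theorem th_ne {s t : S} {x : V} (h : bil x (D.v s) ≠ 0 ∨ bil x (D.v t) ≠ 0) :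
    D.th s t x ≠ 0 := by
  intro h0
  have h1 := congrArg Complex.re h0
  have h2 := congrArg Complex.im h0
  simp [th] at h1 h2
  rcases h with h | h
  · exact h h1
  · exact h h2

theorem th_smul (s t : S) (c : ℝ) (x : V) : D.th s t (c • x) = (c : ℂ) * D.th s t x := by
  unfold th
  rw [bil_smul_left, bil_smul_left]
  push_cast
  ring

theorem th_simple {s t : S} (hc : D.com s t) (x : V) :
    D.th s t (D.act (D.cs.simple s) x) = -(starRingEnd ℂ) (D.th s t x) := by
  unfold th
  rw [act_simple, bil_sub_left, bil_sub_left, bil_smul_left, bil_smul_left, D.vv,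
    D.com_orth s t hc]
  simp only [map_add, map_mul, Complex.conj_ofReal, Complex.conj_I]
  push_cast
  ring

theorem continuous_th (s t : S) : Continuous (D.th s t) := by
  unfold th
  exact (Complex.continuous_ofReal.comp (continuous_bil_left _)).add
    ((Complex.continuous_ofReal.comp (continuous_bil_left _)).mul continuous_const)

/-- normalisation -/
noncomputable def nrm (z : ℂ) : ℂ := z / ‖z‖

theorem nrm_pos {c : ℝ} (hc : 0 < c) (z : ℂ) : nrm ((c : ℂ) * z) = nrm z := by
  unfold nrm
  rw [norm_mul, Complex.norm_real, Real.norm_of_nonneg hc.le]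
  push_cast
  have : (c : ℂ) ≠ 0 := by exact_mod_cast hc.ne'
  rw [mul_div_mul_left _ _ this]

theorem nrm_conj (z : ℂ) : nrm (-(starRingEnd ℂ) z) = -(starRingEnd ℂ) (nrm z) := by
  unfold nrm
  rw [norm_neg, RCLike.norm_conj, map_div₀, Complex.conj_ofReal, neg_div]

theorem nrm_neg (z : ℂ) : nrm (-z) = -nrm z := by
  unfold nrm
  rw [norm_neg, neg_div]

theorem nrm_ne {z : ℂ} (h : z ≠ 0) : nrm z ≠ 0 :=
  div_ne_zero h (by exact_mod_cast norm_ne_zero_iff.2 h)

theorem not_sc {s t : S} (hc : D.com s t)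
    (hno : ∀ i, bil (D.v s) (D.n i) = 0 → bil (D.v t) (D.n i) ≠ 0) {p : Sph} (hp : p ∈ D.Om)
    (hps : bil p.1 (D.v s) = 0) : ¬ IsSimplyConnected D.Om := by
  intro hsc
  have hst := D.com_ne s t hc
  have : SimplyConnectedSpace D.OmT := hsc.simplyConnectedSpace
  have hne : ∀ x : D.OmT, D.th s t x.1.1 ≠ 0 := by
    intro x
    apply D.th_ne
    by_contra hcon
    push Not at hcon
    exact D.miss hst hno x.2 hcon.1 hcon.2
  have hcth : Continuous (fun x : D.OmT => D.th s t x.1.1) :=
    (D.continuous_th s t).comp (continuous_subtype_val.comp continuous_subtype_val)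
  let r : C(D.OmT, D.OmT) := ⟨fun x => D.cs.simple s • x, continuous_const_smul _⟩
  let Θ : C(D.OmT, ℂ) := ⟨fun x => nrm (D.th s t x.1.1),
    hcth.div (Complex.continuous_ofReal.comp hcth.norm)
      (fun x => by exact_mod_cast norm_ne_zero_iff.2 (hne x))⟩
  have hval : ∀ (w : D.W) (x : D.OmT), (w • x).1.1 = (D.act w x.1.1 0)⁻¹ • D.act w x.1.1 :=
    fun w x => rfl
  have hΘ : ∀ (w : D.W) (x : D.OmT), Θ (w • x) = nrm (D.th s t (D.act w x.1.1)) := by
    intro w x
    change nrm (D.th s t (w • x).1.1) = _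
    rw [hval, th_smul, nrm_pos (inv_pos.2 (D.act_sph_pos w x.1))]
  have hps1 : D.act (D.cs.simple s) p.1 = p.1 := by
    rw [act_simple, hps, mul_zero, zero_smul, sub_zero]
  have hfix : D.cs.simple s • (⟨p, hp⟩ : D.OmT) = ⟨p, hp⟩ := by
    apply Subtype.ext
    apply Subtype.ext
    rw [hval, hps1, p.2.1, inv_one, one_smul]
  refine theta_contra r Θ (fun x => nrm_ne (hne x)) ?_ ⟨p, hp⟩
    (D.cs.simple t • (⟨p, hp⟩ : D.OmT)) hfix ?_ ?_
  · intro x
    change Θ (D.cs.simple s • x) = _
    rw [hΘ, th_simple D hc, nrm_conj]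
    rfl
  · change D.cs.simple s • D.cs.simple t • (⟨p, hp⟩ : D.OmT) = _
    rw [← mul_smul, D.simple_comm hc, mul_smul, hfix]
  · rw [hΘ]
    have h1 : D.th s t (D.act (D.cs.simple t) p.1) = -D.th s t p.1 := by
      unfold th
      rw [act_simple, bil_sub_left, bil_sub_left, bil_smul_left, bil_smul_left, D.vv,
        D.com_orth t s (D.com_symm s t hc), hps]
      push_cast
      ring
    rw [h1, nrm_neg]
    rfl

end KD

end Pool.Agent.helper75.KL
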