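import Mathlib

/-! Fundamental group of the quotient of a space covered by translates of a simply connected
open set, in terms of a Coxeter type group. -/

namespace Pool.Agent.helper75.KL

open unitInterval

/-- `Good r Us l y`: applying the letters of `l` (from the right end) to `y`, each letter `s` is
applied at a point of `Us s`. -/
def Good {X W S : Type} [Group W] [MulAction W X] (r : S → W) (Us : S → Set X) :
    List S → X → Prop
  | [], _ => True
  | s :: l, y => Good r Us l y ∧ (l.map r).prod • y ∈ Us s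

section PC

variable {X : Type} [TopologicalSpace X]

/-- Homotopy classes of paths from `x0`. -/
abbrev PC (x0 : X) : Type := Σ y : X, Path.Homotopic.Quotient x0 y

/-- The class of a path. -/
def cl {x0 y : X} (γ : Path x0 y) : PC x0 := ⟨y, Path.Homotopic.Quotient.mk γ⟩

lemma cl_surj {x0 : X} (x : PC x0) : ∃ γ : Path x0 x.1, x = cl γ := by
  obtain ⟨y, g⟩ := x
  obtain ⟨γ, rfl⟩ := Path.Homotopic.Quotient.mk_surjective g
  exact ⟨γ, rfl⟩

lemma cl_eq {x0 y y' : X} (γ : Path x0 y) (γ' : Path x0 y') (h : ∀ t, γ t = γ' t) :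
    cl γ = cl γ' := by
  have hy : y = y' := by rw [← γ.target, ← γ'.target, h]
  subst hy
  have : γ = γ' := by ext t; exact h t
  rw [this]

lemma cl_hom {x0 y : X} {γ γ' : Path x0 y} (h : γ.Homotopic γ') : cl γ = cl γ' := by
  unfold cl
  rw [Path.Homotopic.Quotient.eq.2 h]

lemma hom_of_cl {x0 y : X} {γ γ' : Path x0 y} (h : cl γ = cl γ') : γ.Homotopic γ' := by
  have := (Sigma.mk.inj_iff.1 h).2
  exact Path.Homotopic.Quotient.exact (eq_of_heq this)

lemma trans_cancel {x y z : X} {δ δ' : Path x y} {γ : Path y z}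
    (h : (δ.trans γ).Homotopic (δ'.trans γ)) : δ.Homotopic δ' := by
  have h2 : ((δ.trans γ).trans γ.symm).Homotopic ((δ'.trans γ).trans γ.symm) :=
    h.hcomp (Path.Homotopic.refl _)
  have key : ∀ ε : Path x y, ((ε.trans γ).trans γ.symm).Homotopic ε := fun ε =>
    Path.Homotopic.trans (Path.Homotopic.trans ⟨Path.Homotopy.transAssoc ε γ γ.symm⟩
      ((Path.Homotopic.refl ε).hcomp (Path.Homotopic.symm ⟨Path.Homotopy.reflTransSymm γ⟩)))
      ⟨Path.Homotopy.transRefl ε⟩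
  exact ((key δ).symm.trans h2).trans (key δ')

lemma hom_in {U : Set X} (hsc : IsSimplyConnected U) {x y : X} (γ γ' : Path x y)
    (h : ∀ t, γ t ∈ U) (h' : ∀ t, γ' t ∈ U) : γ.Homotopic γ' := by
  have hx : x ∈ U := by simpa using h 0
  have hy : y ∈ U := by simpa using h 1
  have : SimplyConnectedSpace U := hsc
  let c : Path (⟨x, hx⟩ : U) ⟨y, hy⟩ :=
    { toFun := fun t => ⟨γ t, h t⟩
      continuous_toFun := by fun_prop
      source' := by simp
      target' := by simp }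
  let c' : Path (⟨x, hx⟩ : U) ⟨y, hy⟩ :=
    { toFun := fun t => ⟨γ' t, h' t⟩
      continuous_toFun := by fun_prop
      source' := by simp
      target' := by simp }
  have hh := (SimplyConnectedSpace.paths_homotopic c c').map ⟨Subtype.val, continuous_subtype_val⟩
  exact hh

variable {W : Type} [Group W] [MulAction W X] [ContinuousConstSMul W X]

/-- `A` is a lift of the action of `w` to classes of paths. -/
def IsT (x0 : X) (A : PC x0 → PC x0) (w : W) : Prop :=
  ∃ δ : Path x0 (w • x0), ∀ (y : X) (γ : Path x0 y),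
    A (cl γ) = cl (δ.trans (γ.map (continuous_const_smul w)))

lemma IsT.fst {x0 : X} {A : PC x0 → PC x0} {w : W} (hA : IsT x0 A w) (x : PC x0) :
    (A x).1 = w • x.1 := by
  obtain ⟨δ, hδ⟩ := hA
  obtain ⟨γ, hγ⟩ := cl_surj x
  rw [hγ, hδ]
  rfl

lemma IsT.comp {x0 : X} {A B : PC x0 → PC x0} {w w' : W} (hA : IsT x0 A w)
    (hB : IsT x0 B w') : IsT x0 (A ∘ B) (w * w') := by
  obtain ⟨δ, hδ⟩ := hA
  obtain ⟨δ', hδ'⟩ := hB
  refine ⟨(δ.trans (δ'.map (continuous_const_smul w))).cast rfl (mul_smul w w' x0), ?_⟩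
  intro y γ
  rw [Function.comp_apply, hδ', hδ, Path.map_trans]
  have h1 : cl (δ.trans ((δ'.map (continuous_const_smul w)).trans
      ((γ.map (continuous_const_smul w')).map (continuous_const_smul w)))) =
      cl ((δ.trans (δ'.map (continuous_const_smul w))).trans
      ((γ.map (continuous_const_smul w')).map (continuous_const_smul w))) :=
    cl_hom (Path.Homotopic.symm ⟨Path.Homotopy.transAssoc _ _ _⟩)
  rw [h1]
  apply cl_eq
  intro t
  rw [Path.trans_apply, Path.trans_apply]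
  split_ifs with ht
  · rfl
  · simp [mul_smul]

lemma IsT.id {x0 : X} : IsT x0 (fun x => x) (1 : W) := by
  refine ⟨(Path.refl x0).cast rfl (one_smul W x0), ?_⟩
  intro y γ
  have h1 : cl γ = cl ((Path.refl x0).trans γ) :=
    cl_hom (Path.Homotopic.symm ⟨Path.Homotopy.reflTrans γ⟩)
  rw [h1]
  apply cl_eq
  intro t
  rw [Path.trans_apply, Path.trans_apply]
  split_ifs with ht
  · rfl
  · simp

lemma IsT.uniq {x0 : X} {A B : PC x0 → PC x0} {w : W} (hA : IsT x0 A w)
    (hB : IsT x0 B w) (x : PC x0) (hx : A x = B x) : A = B := by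
  obtain ⟨δ, hδ⟩ := hA
  obtain ⟨δ', hδ'⟩ := hB
  obtain ⟨γ, hγ⟩ := cl_surj x
  rw [hγ, hδ, hδ'] at hx
  have h1 : δ.Homotopic δ' := trans_cancel (hom_of_cl hx)
  funext z
  obtain ⟨γ', hγ'⟩ := cl_surj z
  rw [hγ', hδ, hδ']
  exact cl_hom (h1.hcomp (Path.Homotopic.refl _))

lemma IsT.append {x0 : X} {A : PC x0 → PC x0} {w : W} (hA : IsT x0 A w) {y y' : X}
    (γ : Path x0 y) (β : Path y y') (γ' : Path x0 (w • y)) (h : A (cl γ) = cl γ') :
    A (cl (γ.trans β)) = cl (γ'.trans (β.map (continuous_const_smul w))) := by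
  obtain ⟨δ, hδ⟩ := hA
  rw [hδ] at h
  rw [hδ, Path.map_trans]
  have h1 := hom_of_cl h
  exact cl_hom ((Path.Homotopic.symm ⟨Path.Homotopy.transAssoc _ _ _⟩).trans
    (h1.hcomp (Path.Homotopic.refl _)))

/-- The class is represented by a path in `U`. -/
def IsE (U : Set X) {x0 : X} (x : PC x0) : Prop :=
  ∃ γ : Path x0 x.1, (∀ t, γ t ∈ U) ∧ x = cl γ

lemma IsE.mem {U : Set X} {x0 : X} {x : PC x0} (h : IsE U x) : x.1 ∈ U := by
  obtain ⟨γ, h1, _⟩ := h
  simpa using h1 1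

lemma isE_cl {U : Set X} {x0 y : X} (γ : Path x0 y) (h : ∀ t, γ t ∈ U) : IsE U (cl γ) :=
  ⟨γ, h, rfl⟩

lemma IsE.uniq {U : Set X} (hsc : IsSimplyConnected U) {x0 : X} {x x' : PC x0} (h : IsE U x)
    (h' : IsE U x') (he : x.1 = x'.1) : x = x' := by
  obtain ⟨γ, h1, h2⟩ := h
  obtain ⟨γ', h1', h2'⟩ := h'
  rw [h2, h2']
  have h3 : cl γ' = cl (γ'.cast rfl he) := cl_eq _ _ (fun t => rfl)
  rw [h3]
  exact cl_hom (hom_in hsc _ _ h1 (fun t => by simpa using h1' t))

lemma IsE.exists {U : Set X} (hsc : IsSimplyConnected U) {x0 : X} (hx0 : x0 ∈ U) {z : X}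
    (hz : z ∈ U) : ∃ γ : Path x0 z, ∀ t, γ t ∈ U := by
  have h := hsc.isPathConnected.joinedIn x0 hx0 z hz
  exact ⟨h.somePath, h.somePath_mem⟩

lemma trans_mem {U : Set X} {x y z : X} {γ : Path x y} {β : Path y z} (h : ∀ t, γ t ∈ U)
    (h' : ∀ t, β t ∈ U) (t : I) : (γ.trans β) t ∈ U := by
  rw [Path.trans_apply]
  split_ifs
  · exact h _
  · exact h' _

lemma exists_lift {U V : Set X} (hsc : IsSimplyConnected U) (hV : V ⊆ U) (hpc : IsPathConnected V)
    (w : W) (hinv : ∀ y ∈ V, w • y ∈ V) {x0 : X} (hx0 : x0 ∈ U) :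
    ∃ A : PC x0 → PC x0, IsT x0 A w ∧ ∀ x, IsE U x → x.1 ∈ V → IsE U (A x) := by
  obtain ⟨q, hq⟩ := hpc.nonempty
  obtain ⟨γ0, h0⟩ := IsE.exists hsc hx0 (hV hq)
  obtain ⟨γ1, h1⟩ := IsE.exists hsc hx0 (hV (hinv q hq))
  let δ : Path x0 (w • x0) := γ1.trans ((γ0.map (continuous_const_smul w)).symm)
  let A : PC x0 → PC x0 := fun x =>
    ⟨w • x.1, (Path.Homotopic.Quotient.mk δ).trans (x.2.map ⟨_, continuous_const_smul w⟩)⟩
  have hA : ∀ (y : X) (γ : Path x0 y),
    A (cl γ) = cl (δ.trans (γ.map (continuous_const_smul w))) := fun y γ => rfl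
  have hT : IsT x0 A w := ⟨δ, hA⟩
  have hA0 : A (cl γ0) = cl γ1 := by
    rw [hA]
    apply cl_hom
    refine Path.Homotopic.trans ⟨Path.Homotopy.transAssoc _ _ _⟩ ?_
    refine Path.Homotopic.trans ((Path.Homotopic.refl γ1).hcomp
      (Path.Homotopic.symm ⟨Path.Homotopy.reflSymmTrans _⟩)) ?_
    exact ⟨Path.Homotopy.transRefl _⟩
  refine ⟨A, hT, ?_⟩
  intro x hx hxV
  have hj := hpc.joinedIn q hq x.1 hxV
  have h2 : ∀ t, hj.somePath t ∈ V := hj.somePath_mem
  have hx2 : x = cl (γ0.trans hj.somePath) :=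
    hx.uniq hsc (isE_cl _ (trans_mem h0 (fun t => hV (h2 t)))) rfl
  rw [hx2, hT.append γ0 hj.somePath γ1 hA0]
  apply isE_cl
  apply trans_mem h1
  intro t
  exact hV (hinv _ (h2 t))

end PC

section Main

variable {X Y W S H : Type} [TopologicalSpace X] [TopologicalSpace Y] [Group W]
    [MulAction W X] [ContinuousConstSMul W X] [Group H]

/-- The lifted action of the Coxeter group on path classes. -/
lemma exists_action (r : S → W) (M : CoxeterMatrix S) (cs : CoxeterSystem M H)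
    (hM : ∀ s t, s ≠ t → M s t = 0 ∨ M s t = 2)
    (ρ : H →* W) (hρ : ∀ s, ρ (cs.simple s) = r s)
    (U : Set X) (hsc : IsSimplyConnected U)
    (Us : S → Set X) (hUs : ∀ s, Us s ⊆ U) (hpc : ∀ s, IsPathConnected (Us s))
    (hinv : ∀ s, ∀ y ∈ Us s, r s • y ∈ Us s)
    (hedge : ∀ s t, s ≠ t → M s t = 2 → ∃ y, y ∈ Us s ∧ y ∈ Us t ∧ r t • y ∈ Us s ∧
      r s • y ∈ Us t)
    (x0 : X) (hx0 : x0 ∈ U) :
    ∃ Ψ : H →* Function.End (PC x0), (∀ w, IsT x0 (Ψ w) (ρ w)) ∧
      ∀ s x, IsE U x → x.1 ∈ Us s → IsE U (Ψ (cs.simple s) x) := by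
  choose A hT hE using fun s => exists_lift hsc (hUs s) (hpc s) (r s) (hinv s) hx0
  have hrr : ∀ s, r s * r s = 1 := fun s => by
    rw [← hρ, ← map_mul, cs.simple_mul_simple_self, map_one]
  -- involutions
  have hAA : ∀ s, A s ∘ A s = fun x => x := by
    intro s
    obtain ⟨q, hq⟩ := (hpc s).nonempty
    obtain ⟨γ, hγ⟩ := IsE.exists hsc hx0 (hUs s hq)
    have h1 : IsT x0 (A s ∘ A s) (1 : W) := by
      have := (hT s).comp (hT s)
      rwa [hrr] at this
    apply h1.uniq IsT.id (cl γ)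
    have e0 : IsE U (cl γ) := isE_cl _ hγ
    have f1 : (A s (cl γ)).1 = r s • q := (hT s).fst (cl γ)
    have e1 : IsE U (A s (cl γ)) := hE s _ e0 hq
    have e2 : IsE U (A s (A s (cl γ))) := hE s _ e1 (by rw [f1]; exact hinv s q hq)
    refine e2.uniq hsc e0 ?_
    rw [(hT s).fst, f1, ← mul_smul, hrr, one_smul]
    rfl
  have hcomm : ∀ s t, s ≠ t → M s t = 2 → A s ∘ A t = A t ∘ A s := by
    intro s t hst hMst
    obtain ⟨q, hq1, hq2, hq3, hq4⟩ := hedge s t hst hMst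
    obtain ⟨γ, hγ⟩ := IsE.exists hsc hx0 (hUs s hq1)
    have hc : r s * r t = r t * r s := by
      have h1 : (r s * r t) ^ 2 = 1 := by
        rw [← hρ, ← hρ, ← map_mul, ← map_pow, ← hMst, cs.simple_mul_simple_pow, map_one]
      have h2 := hrr s
      have h3 := hrr t
      have h4 : (r s * r t)⁻¹ = r s * r t := inv_eq_of_mul_eq_one_left (by rw [← pow_two, h1])
      rw [mul_inv_rev, inv_eq_of_mul_eq_one_left h2, inv_eq_of_mul_eq_one_left h3] at h4
      exact h4.symm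
    have h1 : IsT x0 (A s ∘ A t) (r s * r t) := (hT s).comp (hT t)
    have h2 : IsT x0 (A t ∘ A s) (r s * r t) := by
      rw [hc]
      exact (hT t).comp (hT s)
    apply h1.uniq h2 (cl γ)
    have e0 : IsE U (cl γ) := isE_cl _ hγ
    have f1 : (A s (cl γ)).1 = r s • q := (hT s).fst (cl γ)
    have f2 : (A t (cl γ)).1 = r t • q := (hT t).fst (cl γ)
    have e1 : IsE U (A s (cl γ)) := hE s _ e0 hq1
    have e2 : IsE U (A t (cl γ)) := hE t _ e0 hq2
    have e3 : IsE U (A t (A s (cl γ))) := hE t _ e1 (by rw [f1]; exact hq4)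
    have e4 : IsE U (A s (A t (cl γ))) := hE s _ e2 (by rw [f2]; exact hq3)
    refine e4.uniq hsc e3 ?_
    have g1 : ((A s ∘ A t) (cl γ)).1 = r s • r t • q := by
      rw [Function.comp_apply, (hT s).fst, f2]
    have g2 : ((A t ∘ A s) (cl γ)).1 = r t • r s • q := by
      rw [Function.comp_apply, (hT t).fst, f1]
    change ((A s ∘ A t) (cl γ)).1 = ((A t ∘ A s) (cl γ)).1
    rw [g1, g2, ← mul_smul, ← mul_smul, hc]
  let B : S → Function.End (PC x0) := A
  have hlift : M.IsLiftable B := by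
    intro s t
    by_cases hst : s = t
    · subst hst
      rw [M.diagonal, pow_one]
      exact hAA s
    · rcases hM s t hst with h | h
      · rw [h, pow_zero]
      · rw [h, pow_two]
        have h1 : B s * B s = 1 := hAA s
        have h2 : B t * B t = 1 := hAA t
        have h3 : B s * B t = B t * B s := hcomm s t hst h
        calc B s * B t * (B s * B t) = B s * B t * (B t * B s) := by rw [← h3]
          _ = B s * (B t * B t) * B s := by simp only [mul_assoc]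
          _ = 1 := by rw [h2, mul_one, h1]
  refine ⟨cs.lift ⟨B, hlift⟩, ?_, ?_⟩
  · intro w
    induction w using cs.simple_induction_left with
    | one =>
      rw [map_one, map_one]
      exact IsT.id
    | mul_simple_left w i ih =>
      rw [map_mul, map_mul, hρ]
      have h1 : cs.lift ⟨B, hlift⟩ (cs.simple i) = B i := cs.lift_apply_simple hlift i
      rw [h1]
      exact (hT i).comp ih
  · intro s x hx hxs
    have h1 : cs.lift ⟨B, hlift⟩ (cs.simple s) = B s := cs.lift_apply_simple hlift s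
    rw [h1]
    exact hE s x hx hxs

/-- Applying a good word to a class in `U` gives a class in `U`. -/
lemma word_isE (r : S → W) (M : CoxeterMatrix S) (cs : CoxeterSystem M H)
    (ρ : H →* W) (hρ : ∀ s, ρ (cs.simple s) = r s)
    (U : Set X) (Us : S → Set X) (x0 : X) (Ψ : H →* Function.End (PC x0))
    (hΨ : ∀ w, IsT x0 (Ψ w) (ρ w))
    (hs : ∀ s x, IsE U x → x.1 ∈ Us s → IsE U (Ψ (cs.simple s) x)) :
    ∀ (l : List S) (x : PC x0), IsE U x → Good r Us l x.1 →
      ρ (l.map cs.simple).prod = (l.map r).prod ∧ IsE U (Ψ (l.map cs.simple).prod x) := by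
  intro l
  induction l with
  | nil =>
    intro x hx _
    simp only [List.map_nil, List.prod_nil, map_one]
    exact ⟨trivial, hx⟩
  | cons s l ih =>
    intro x hx hg
    obtain ⟨hg1, hg2⟩ := hg
    obtain ⟨h1, h2⟩ := ih x hx hg1
    simp only [List.map_cons, List.prod_cons, map_mul]
    refine ⟨by rw [hρ, h1], ?_⟩
    apply hs s _ h2
    rw [(hΨ _).fst, h1]
    exact hg2

/-- The class can be reached by the group from a class in `U`. -/
def Reach (U : Set X) {x0 : X} (Ψ : H →* Function.End (PC x0)) (x : PC x0) : Prop :=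
  ∃ w x', IsE U x' ∧ x = Ψ w x'

lemma Ψ_inv {x0 : X} (Ψ : H →* Function.End (PC x0)) (w v : H) (x : PC x0) :
    Ψ (w * v⁻¹) (Ψ v x) = Ψ w x := by
  have h : Ψ (w * v⁻¹) * Ψ v = Ψ w := by rw [← map_mul]; simp
  rw [← h]
  rfl

lemma reach_step (r : S → W) (M : CoxeterMatrix S) (cs : CoxeterSystem M H)
    (ρ : H →* W) (hρ : ∀ s, ρ (cs.simple s) = r s)
    (U : Set X) (Us : S → Set X) (x0 : X) (Ψ : H →* Function.End (PC x0))
    (hΨ : ∀ w, IsT x0 (Ψ w) (ρ w))
    (hs : ∀ s x, IsE U x → x.1 ∈ Us s → IsE U (Ψ (cs.simple s) x))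
    (hstr : ∀ y ∈ U, ∀ w : W, w • y ∈ U → ∃ l : List S, (l.map r).prod = w ∧ Good r Us l y)
    {y y' : X} (γ : Path x0 y) (β : Path y y') (g : W) (hβ : ∀ t, g⁻¹ • β t ∈ U)
    (h : Reach U Ψ (cl γ)) : Reach U Ψ (cl (γ.trans β)) := by
  obtain ⟨w, x', hx', he⟩ := h
  have hy : y = ρ w • x'.1 := by
    have := (hΨ w).fst x'
    rw [← he] at this
    exact this
  have h1 : (g⁻¹ * ρ w) • x'.1 ∈ U := by
    rw [mul_smul, ← hy]
    simpa using hβ 0
  obtain ⟨l, hl, hg⟩ := hstr x'.1 hx'.mem _ h1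
  obtain ⟨h2, h3⟩ := word_isE r M cs ρ hρ U Us x0 Ψ hΨ hs l x' hx' hg
  set v : H := (l.map cs.simple).prod with hv
  have hρv : ρ v = g⁻¹ * ρ w := by rw [h2, hl]
  have hρw1 : ρ (w * v⁻¹) = g := by
    rw [map_mul, map_inv, hρv]; group
  have hx'' : (Ψ v x').1 = g⁻¹ • y := by
    rw [(hΨ v).fst, hρv, mul_smul, ← hy]
  obtain ⟨γ'', hγ'', hc⟩ := h3
  let β'' : Path (Ψ v x').1 (g⁻¹ • y') := (β.map (continuous_const_smul g⁻¹)).cast hx'' rfl
  have hE : IsE U (cl (γ''.trans β'')) := isE_cl _ (trans_mem hγ'' (fun t => hβ t))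
  refine ⟨w * v⁻¹, _, hE, ?_⟩
  have hend : ρ (w * v⁻¹) • (Ψ v x').1 = y := by
    rw [hρw1, hx'', smul_inv_smul]
  have hcl : Ψ (w * v⁻¹) (cl γ'') = cl (γ.cast rfl hend) := by
    rw [← hc, Ψ_inv, ← he]
    exact cl_eq _ _ (fun t => rfl)
  rw [(hΨ (w * v⁻¹)).append γ'' β'' (γ.cast rfl hend) hcl]
  apply cl_eq
  intro t
  rw [Path.trans_apply, Path.trans_apply]
  split_ifs with ht
  · rfl
  · change β _ = ρ (w * v⁻¹) • (g⁻¹ • β _)
    rw [hρw1, smul_inv_smul]

lemma reach_all (r : S → W) (M : CoxeterMatrix S) (cs : CoxeterSystem M H)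
    (ρ : H →* W) (hρ : ∀ s, ρ (cs.simple s) = r s)
    (U : Set X) (hU : IsOpen U) (hcov : ∀ y : X, ∃ w : W, w • y ∈ U)
    (Us : S → Set X) (x0 : X) (hx0 : x0 ∈ U) (Ψ : H →* Function.End (PC x0))
    (hΨ : ∀ w, IsT x0 (Ψ w) (ρ w))
    (hs : ∀ s x, IsE U x → x.1 ∈ Us s → IsE U (Ψ (cs.simple s) x))
    (hstr : ∀ y ∈ U, ∀ w : W, w • y ∈ U → ∃ l : List S, (l.map r).prod = w ∧ Good r Us l y)
    (x : PC x0) : Reach U Ψ x := by
  obtain ⟨γ, hγ⟩ := cl_surj x
  let c : ∀ t : I, Path x0 (γ t) := fun t => (γ.subpath 0 t).cast (by simp) rfl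
  have hc : ∀ t t' : I, cl (c t') = cl ((c t).trans (γ.subpath t t')) := by
    intro t t'
    have h1 : ((γ.subpath 0 t).trans (γ.subpath t t')).Homotopic (γ.subpath 0 t') :=
      ⟨Path.Homotopy.subpathTransSubpath γ 0 t t'⟩
    have h2 := (h1.pathCast (x₂ := x0) (x₃ := γ t') (by simp) rfl)
    have h3 := cl_hom h2.symm
    refine h3.trans ?_
    apply cl_eq
    intro s
    simp [Path.trans_apply, c]
  obtain ⟨t, ht0, htm, ⟨n, hn⟩, ht⟩ := exists_monotone_Icc_subset_open_cover_unitInterval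
    (c := fun g : W => γ ⁻¹' {y | g⁻¹ • y ∈ U})
    (fun g => (hU.preimage (continuous_const_smul g⁻¹)).preimage γ.continuous)
    (by
      intro s _
      obtain ⟨w, hw⟩ := hcov (γ s)
      simp only [Set.mem_iUnion, Set.mem_preimage, Set.mem_ofPred_eq]
      exact ⟨w⁻¹, by simpa using hw⟩)
  have key : ∀ k, Reach U Ψ (cl (c (t k))) := by
    intro k
    induction k with
    | zero =>
      refine ⟨1, cl (Path.refl x0), isE_cl _ (fun t => hx0), ?_⟩
      rw [map_one]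
      change _ = cl (Path.refl x0)
      rw [ht0]
      apply cl_eq
      intro s
      simp [c]
    | succ k ih =>
      rw [hc (t k) (t (k + 1))]
      obtain ⟨g, hg⟩ := ht k
      apply reach_step r M cs ρ hρ U Us x0 Ψ hΨ hs hstr _ _ g _ ih
      intro s
      have h1 : (γ.subpath (t k) (t (k + 1))) s ∈ Set.range (γ.subpath (t k) (t (k + 1))) :=
        ⟨s, rfl⟩
      rw [Path.range_subpath_of_le _ _ _ (htm (Nat.le_succ k))] at h1
      obtain ⟨s', hs', he⟩ := h1
      rw [← he]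
      exact hg hs'
  have h1 := key n
  rw [hn n le_rfl] at h1
  have h2 : cl (c 1) = x := by
    refine Eq.trans ?_ hγ.symm
    apply cl_eq
    intro s
    simp [c]
  rwa [h2] at h1

theorem orb_pi1_fg {X Y W S H : Type} [TopologicalSpace X] [TopologicalSpace Y] [Group W]
    [MulAction W X] [ContinuousConstSMul W X] [Group H]
    (r : S → W) (M : CoxeterMatrix S) (cs : CoxeterSystem M H)
    (hM : ∀ s t, s ≠ t → M s t = 0 ∨ M s t = 2)
    (ρ : H →* W) (hρ : ∀ s, ρ (cs.simple s) = r s)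
    (U : Set X) (hU : IsOpen U) (hsc : IsSimplyConnected U) (hcov : ∀ y : X, ∃ w : W, w • y ∈ U)
    (Us : S → Set X) (hUs : ∀ s, Us s ⊆ U) (hpc : ∀ s, IsPathConnected (Us s))
    (hinv : ∀ s, ∀ y ∈ Us s, r s • y ∈ Us s)
    (hedge : ∀ s t, s ≠ t → M s t = 2 → ∃ y, y ∈ Us s ∧ y ∈ Us t ∧ r t • y ∈ Us s ∧
      r s • y ∈ Us t)
    (hstr : ∀ y ∈ U, ∀ w : W, w • y ∈ U → ∃ l : List S, (l.map r).prod = w ∧ Good r Us l y)
    (F : Subgroup W) (p : X → Y) (hp : IsQuotientCoveringMap p F)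
    (x0 : X) (hx0 : x0 ∈ U)
    (hfg : (F.comap ρ).FG) :
    Group.FG (FundamentalGroup Y (p x0)) := by
  obtain ⟨Ψ, hΨ, hs⟩ := exists_action r M cs hM ρ hρ U hsc Us hUs hpc hinv hedge x0 hx0
  choose δ hδ using hΨ
  have hpinv : ∀ (w : H), w ∈ F.comap ρ → ∀ y, p (ρ w • y) = p y := by
    intro w hw y
    rw [hp.apply_eq_iff_mem_orbit]
    exact ⟨⟨ρ w, hw⟩, rfl⟩
  have hpc' : Continuous p := hp.continuous
  let φ : F.comap ρ → Path.Homotopic.Quotient (p x0) (p x0) := fun w =>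
    Path.Homotopic.Quotient.mk (((δ w).map hpc').cast rfl (hpinv w w.2 x0).symm)
  have hΨ0 : ∀ w, Ψ w (cl (Path.refl x0)) = cl (δ w) := by
    intro w
    rw [hδ]
    have h1 : ((Path.refl x0).map (continuous_const_smul (ρ w))) = Path.refl (ρ w • x0) := by
      ext t; rfl
    rw [h1]
    exact cl_hom ⟨Path.Homotopy.transRefl _⟩
  -- push-forward
  let push : PC x0 → PC (p x0) := fun x => ⟨p x.1, x.2.map ⟨p, hpc'⟩⟩
  have hpush : ∀ {y : X} (γ : Path x0 y), push (cl γ) = cl (γ.map hpc') := fun γ => rfl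
  have hφ : ∀ w : F.comap ρ, push (cl (δ w)) = (⟨p x0, φ w⟩ : PC (p x0)) := by
    intro w
    rw [hpush]
    exact cl_eq _ (((δ w).map hpc').cast rfl (hpinv w w.2 x0).symm) (fun t => rfl)
  have hmul : ∀ w w' : F.comap ρ, φ (w * w') = (φ w).trans (φ w') := by
    intro w w'
    have h1 : cl (δ (w * w' : H)) = cl ((δ (w : H)).trans ((δ (w' : H)).map
        (continuous_const_smul (ρ w)))) := by
      rw [← hΨ0, ← hδ, ← hΨ0, map_mul]
      rfl
    have h2 : push (cl (δ (w * w' : H))) =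
        (⟨p x0, (φ w).trans (φ w')⟩ : PC (p x0)) := by
      rw [h1, hpush]
      change _ = cl ((((δ w).map hpc').cast rfl (hpinv w w.2 x0).symm).trans
        (((δ w').map hpc').cast rfl (hpinv w' w'.2 x0).symm))
      apply cl_eq
      intro t
      rw [Path.map_trans, Path.trans_apply, Path.trans_apply]
      split_ifs with ht
      · rfl
      · exact hpinv w w.2 _
    have h3 := hφ (w * w')
    rw [Subgroup.coe_mul] at h3
    rw [h2] at h3
    exact (eq_of_heq (Sigma.mk.inj_iff.1 h3).2).symm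
  -- the homomorphism
  let Φ : F.comap ρ →* FundamentalGroup Y (p x0) := MonoidHom.mk'
    (fun w => (FundamentalGroup.fromPath (φ w))⁻¹) (by
      intro w w'
      change (FundamentalGroup.fromPath (φ (w * w')))⁻¹ =
        (FundamentalGroup.fromPath (φ w))⁻¹ * (FundamentalGroup.fromPath (φ w'))⁻¹
      rw [hmul, ← mul_inv_rev]
      rfl)
  have hsurj : Function.Surjective Φ := by
    intro g
    -- lift the inverse loop
    let g' : Path.Homotopic.Quotient (p x0) (p x0) := (g⁻¹ : FundamentalGroup Y (p x0))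
    let e : p ⁻¹' {p x0} := ⟨x0, rfl⟩
    let x : PC x0 := ⟨(hp.isCoveringMap.monodromy g' e).1, hp.isCoveringMap.liftPathQuotient g' e⟩
    have hx1 : push x = (⟨p x0, g'⟩ : PC (p x0)) := by
      have h1 := hp.isCoveringMap.map_liftPathQuotient g' e
      refine Sigma.ext (hp.isCoveringMap.monodromy g' e).2 ?_
      change HEq ((hp.isCoveringMap.liftPathQuotient g' e).map ⟨p, hpc'⟩) g'
      rw [h1]
      exact Path.Homotopic.Quotient.cast_heq _ _
    have hxo : p x.1 = p x0 := (hp.isCoveringMap.monodromy g' e).2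
    rw [hp.apply_eq_iff_mem_orbit] at hxo
    obtain ⟨f, hf⟩ := hxo
    have hf' : (f : W) • x0 = x.1 := hf
    obtain ⟨w, x', hx', he⟩ := reach_all r M cs ρ hρ U hU hcov Us x0 hx0 Ψ
      (fun w => ⟨δ w, hδ w⟩) hs hstr x
    have hxw : x.1 = ρ w • x'.1 := by
      rw [he]
      exact IsT.fst ⟨δ w, hδ w⟩ x'
    have h1 : ((f : W)⁻¹ * ρ w) • x'.1 = x0 := by
      rw [mul_smul, ← hxw, ← hf', inv_smul_smul]
    obtain ⟨l, hl, hg⟩ := hstr x'.1 hx'.mem ((f : W)⁻¹ * ρ w) (by rw [h1]; exact hx0)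
    obtain ⟨h2, h3⟩ := word_isE r M cs ρ hρ U Us x0 Ψ (fun w => ⟨δ w, hδ w⟩) hs l x' hx' hg
    set v : H := (l.map cs.simple).prod with hv
    have hρv : ρ v = (f : W)⁻¹ * ρ w := by rw [h2, hl]
    have h4 : Ψ v x' = cl (Path.refl x0) := by
      refine h3.uniq hsc (isE_cl _ (fun t => hx0)) ?_
      rw [IsT.fst ⟨δ v, hδ v⟩ x', hρv, h1]
      rfl
    have h5 : x = Ψ (w * v⁻¹) (cl (Path.refl x0)) := by
      rw [← h4, Ψ_inv, he]
    have h6 : ρ (w * v⁻¹) = f := by
      rw [map_mul, map_inv, hρv]; group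
    have h7 : w * v⁻¹ ∈ F.comap ρ := by
      rw [Subgroup.mem_comap, h6]
      exact f.2
    refine ⟨⟨w * v⁻¹, h7⟩, ?_⟩
    have h8 : (⟨p x0, φ ⟨w * v⁻¹, h7⟩⟩ : PC (p x0)) = ⟨p x0, g'⟩ := by
      rw [← hφ, ← hx1, h5, hΨ0]
    have h9 : φ ⟨w * v⁻¹, h7⟩ = g' := eq_of_heq (Sigma.mk.inj_iff.1 h8).2
    change (FundamentalGroup.fromPath (φ ⟨w * v⁻¹, h7⟩))⁻¹ = g
    rw [h9]
    exact inv_inv g
  have : Group.FG (F.comap ρ) := (Group.fg_iff_subgroup_fg _).2 hfg
  exact Group.fg_of_surjective hsurj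

end Main

end Pool.Agent.helper75.KL
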