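import Mathlib

/-! Simple connectivity of a union of convex open sets with a shelling-type order. -/

namespace Pool.Agent.helper75.KL

open unitInterval

/-- Two paths with the same end points inside a simply connected set are homotopic. -/
theorem homotopic_of_mem {Y : Type*} [TopologicalSpace Y] {A : Set Y} (hA : IsSimplyConnected A)
    {x y : Y} (γ γ' : Path x y) (h : ∀ t, γ t ∈ A) (h' : ∀ t, γ' t ∈ A) : γ.Homotopic γ' := by
  have := hA.simplyConnectedSpace
  have hx : x ∈ A := by simpa using h 0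
  have hy : y ∈ A := by simpa using h 1
  let δ : Path (⟨x, hx⟩ : A) ⟨y, hy⟩ :=
    { toFun := fun t => ⟨γ t, h t⟩
      continuous_toFun := by fun_prop
      source' := by simp
      target' := by simp }
  let δ' : Path (⟨x, hx⟩ : A) ⟨y, hy⟩ :=
    { toFun := fun t => ⟨γ' t, h' t⟩
      continuous_toFun := by fun_prop
      source' := by simp
      target' := by simp }
  have := (SimplyConnectedSpace.paths_homotopic δ δ').map ⟨Subtype.val, continuous_subtype_val⟩
  exact this

/-- A path is good if it is homotopic to a path inside each of the two sets containing its end. -/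
def GoodPath {Y : Type*} [TopologicalSpace Y] (A B : Set Y) {x y : Y} (γ : Path x y) : Prop :=
  (y ∈ A → ∃ δ : Path x y, (∀ t, δ t ∈ A) ∧ γ.Homotopic δ) ∧
  (y ∈ B → ∃ δ : Path x y, (∀ t, δ t ∈ B) ∧ γ.Homotopic δ)

theorem GoodPath.symm {Y : Type*} [TopologicalSpace Y] {A B : Set Y} {x y : Y} {γ : Path x y}
    (h : GoodPath A B γ) : GoodPath B A γ := ⟨h.2, h.1⟩

theorem GoodPath.of_homotopic {Y : Type*} [TopologicalSpace Y] {A B : Set Y} {x y : Y}
    {γ γ' : Path x y} (h : GoodPath A B γ) (hh : γ'.Homotopic γ) : GoodPath A B γ' :=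
  ⟨fun hy => let ⟨δ, h1, h2⟩ := h.1 hy; ⟨δ, h1, hh.trans h2⟩,
   fun hy => let ⟨δ, h1, h2⟩ := h.2 hy; ⟨δ, h1, hh.trans h2⟩⟩

theorem GoodPath.of_cast {Y : Type*} [TopologicalSpace Y] {A B : Set Y} {x y x' y' : Y}
    (hx : x' = x) (hy : y' = y) (γ : Path x y) (h : GoodPath A B (γ.cast hx hy)) :
    GoodPath A B γ := by
  subst hx hy
  exact h

theorem GoodPath.step {Y : Type*} [TopologicalSpace Y] {A B : Set Y} (hA : IsSimplyConnected A)
    (hc : IsPathConnected (A ∩ B)) {x y z : Y} (hx : x ∈ A ∩ B) {γ : Path x y}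
    (h : GoodPath A B γ) (β : Path y z) (hβ : ∀ t, β t ∈ A) : GoodPath A B (γ.trans β) := by
  have hy : y ∈ A := by simpa using hβ 0
  have hz : z ∈ A := by simpa using hβ 1
  obtain ⟨δ, hδ, hγδ⟩ := h.1 hy
  have hδβ : ∀ t, (δ.trans β) t ∈ A := by
    intro t
    have : (δ.trans β) t ∈ Set.range (δ.trans β) := ⟨t, rfl⟩
    rw [Path.trans_range] at this
    rcases this with ⟨s, hs⟩ | ⟨s, hs⟩
    · rw [← hs]; exact hδ s
    · rw [← hs]; exact hβ s
  have hh : (γ.trans β).Homotopic (δ.trans β) := hγδ.hcomp (Path.Homotopic.refl β)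
  refine ⟨fun _ => ⟨δ.trans β, hδβ, hh⟩, fun hzB => ?_⟩
  obtain ⟨ε, hε⟩ := hc.joinedIn x hx z ⟨hz, hzB⟩
  exact ⟨ε, fun t => (hε t).2, hh.trans (homotopic_of_mem hA _ _ hδβ (fun t => (hε t).1))⟩

theorem GoodPath.all {Y : Type*} [TopologicalSpace Y] {A B : Set Y} (oA : IsOpen A)
    (oB : IsOpen B) (hA : IsSimplyConnected A) (hB : IsSimplyConnected B)
    (hAB : ∀ y, y ∈ A ∨ y ∈ B)
    (hc : IsPathConnected (A ∩ B)) {x y : Y} (hx : x ∈ A ∩ B) (γ : Path x y) :
    GoodPath A B γ := by
  obtain ⟨t, t0, tm, ⟨N, hN⟩, ht⟩ := exists_monotone_Icc_subset_open_cover_unitInterval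
    (c := fun b : Bool => if b then γ ⁻¹' A else γ ⁻¹' B)
    (by
      intro b
      cases b
      · simpa using oB.preimage γ.continuous
      · simpa using oA.preimage γ.continuous)
    (by
      intro s _
      rcases hAB (γ s) with h | h
      · exact Set.mem_iUnion.2 ⟨true, by simpa using h⟩
      · exact Set.mem_iUnion.2 ⟨false, by simpa using h⟩)
  have hx0 : γ 0 ∈ A ∩ B := by simpa using hx
  have key : ∀ n, GoodPath A B (γ.subpath 0 (t n)) := by
    intro n
    induction n with
    | zero =>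
      rw [t0, Path.subpath_self]
      exact ⟨fun h => ⟨_, fun _ => h, Path.Homotopic.refl _⟩,
        fun h => ⟨_, fun _ => h, Path.Homotopic.refl _⟩⟩
    | succ n ih =>
      obtain ⟨b, hb⟩ := ht n
      have hle : t n ≤ t (n + 1) := tm (Nat.le_succ n)
      have hr : ∀ s, (γ.subpath (t n) (t (n + 1))) s ∈ γ '' Set.Icc (t n) (t (n + 1)) := by
        intro s
        rw [← γ.range_subpath_of_le _ _ hle]
        exact ⟨s, rfl⟩
      have hh : (γ.subpath 0 (t (n + 1))).Homotopic
          ((γ.subpath 0 (t n)).trans (γ.subpath (t n) (t (n + 1)))) :=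
        Path.Homotopic.symm ⟨Path.Homotopy.subpathTransSubpath γ 0 (t n) (t (n + 1))⟩
      refine GoodPath.of_homotopic ?_ hh
      cases b
      · have hb' : Set.Icc (t n) (t (n + 1)) ⊆ γ ⁻¹' B := by simpa using hb
        refine GoodPath.symm (GoodPath.step hB (by rwa [Set.inter_comm]) hx0.symm ih.symm _ ?_)
        intro s
        obtain ⟨u, hu, hu'⟩ := hr s
        rw [← hu']; exact hb' hu
      · have hb' : Set.Icc (t n) (t (n + 1)) ⊆ γ ⁻¹' A := by simpa using hb
        refine GoodPath.step hA hc hx0 ih _ ?_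
        intro s
        obtain ⟨u, hu, hu'⟩ := hr s
        rw [← hu']; exact hb' hu
  have := key N
  rw [hN N le_rfl, Path.subpath_zero_one] at this
  exact GoodPath.of_cast _ _ _ this

theorem simplyConnected_of_cover {Y : Type*} [TopologicalSpace Y] {A B : Set Y} (oA : IsOpen A)
    (oB : IsOpen B) (hA : IsSimplyConnected A) (hB : IsSimplyConnected B)
    (hAB : ∀ y, y ∈ A ∨ y ∈ B) (hc : IsPathConnected (A ∩ B)) : SimplyConnectedSpace Y := by
  obtain ⟨q, hq⟩ := hc.nonempty
  have joinA : ∀ y, y ∈ A → Joined q y := fun y hy =>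
    (hA.isPathConnected.joinedIn q hq.1 y hy).joined
  have joinB : ∀ y, y ∈ B → Joined q y := fun y hy =>
    (hB.isPathConnected.joinedIn q hq.2 y hy).joined
  have join : ∀ y, Joined q y := fun y => (hAB y).elim (joinA y) (joinB y)
  rw [simply_connected_iff_paths_homotopic']
  have : PathConnectedSpace Y :=
    { nonempty := ⟨q⟩
      joined := fun x y => (join x).symm.trans (join y) }
  refine ⟨inferInstance, ?_⟩
  -- first from the base point
  have base : ∀ {y : Y} (p₁ p₂ : Path q y), p₁.Homotopic p₂ := by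
    intro y p₁ p₂
    have g1 := GoodPath.all oA oB hA hB hAB hc hq p₁
    have g2 := GoodPath.all oA oB hA hB hAB hc hq p₂
    rcases hAB y with hy | hy
    · obtain ⟨δ₁, h1, h1'⟩ := g1.1 hy
      obtain ⟨δ₂, h2, h2'⟩ := g2.1 hy
      exact (h1'.trans (homotopic_of_mem hA _ _ h1 h2)).trans h2'.symm
    · obtain ⟨δ₁, h1, h1'⟩ := g1.2 hy
      obtain ⟨δ₂, h2, h2'⟩ := g2.2 hy
      exact (h1'.trans (homotopic_of_mem hB _ _ h1 h2)).trans h2'.symm
  intro x y p₁ p₂
  obtain ⟨α⟩ := join x
  have h := base (α.trans p₁) (α.trans p₂)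
  rw [← Path.Homotopic.Quotient.eq] at h ⊢
  rw [Path.Homotopic.Quotient.mk_trans, Path.Homotopic.Quotient.mk_trans] at h
  have h2 := congrArg (Path.Homotopic.Quotient.trans
    (Path.Homotopic.Quotient.symm (Path.Homotopic.Quotient.mk α))) h
  rw [← Path.Homotopic.Quotient.trans_assoc, ← Path.Homotopic.Quotient.trans_assoc,
    Path.Homotopic.Quotient.symm_trans, Path.Homotopic.Quotient.refl_trans,
    Path.Homotopic.Quotient.refl_trans] at h2
  exact h2

/-- A union of two simply connected open sets with path-connected intersection is simply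
connected. -/
theorem simplyConnected_union {X : Type*} [TopologicalSpace X] {U U' : Set X}
    (hU : IsOpen U) (hU' : IsOpen U') (sU : IsSimplyConnected U) (sU' : IsSimplyConnected U')
    (hc : IsPathConnected (U ∩ U')) : IsSimplyConnected (U ∪ U') := by
  have emb : Topology.IsEmbedding (Subtype.val : ↥(U ∪ U') → X) := Topology.IsEmbedding.subtypeVal
  have i1 : (Subtype.val : ↥(U ∪ U') → X) '' (Subtype.val ⁻¹' U) = U := by
    rw [Subtype.image_preimage_coe]
    exact Set.inter_eq_right.2 Set.subset_union_left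
  have i2 : (Subtype.val : ↥(U ∪ U') → X) '' (Subtype.val ⁻¹' U') = U' := by
    rw [Subtype.image_preimage_coe]
    exact Set.inter_eq_right.2 Set.subset_union_right
  refine simplyConnected_of_cover (Y := ↥(U ∪ U')) (A := Subtype.val ⁻¹' U)
    (B := Subtype.val ⁻¹' U') (hU.preimage continuous_subtype_val)
    (hU'.preimage continuous_subtype_val) ?_ ?_ (fun y => y.2) ?_
  · rw [← emb.isSimplyConnected_image, i1]; exact sU
  · rw [← emb.isSimplyConnected_image, i2]; exact sU'
  · rw [← Set.preimage_inter]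
    obtain ⟨x, hx, hxx⟩ := hc
    have hxm : x ∈ U ∪ U' := Or.inl hx.1
    refine ⟨⟨x, hxm⟩, hx, ?_⟩
    intro y hy
    obtain ⟨γ, hγ⟩ := hxx (y := (y : X)) hy
    refine ⟨{ toFun := fun t => ⟨γ t, Or.inl (hγ t).1⟩
              continuous_toFun := by fun_prop
              source' := by simp
              target' := by simp }, fun t => hγ t⟩

/-- A union of convex sets indexed by a set in which all indices are chained together is
path-connected. -/
theorem chain_union {E ι : Type*} [NormedAddCommGroup E] [NormedSpace ℝ E]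
    (C : ι → Set E) (J : Set ι) (root : ι) (hroot : root ∈ J) (hne : (C root).Nonempty)
    (hc : ∀ k ∈ J, Convex ℝ (C k))
    (nxt : ι → ι) (rk : ι → ℕ)
    (hnxt : ∀ j ∈ J, j ≠ root → nxt j ∈ J ∧ (C j ∩ C (nxt j)).Nonempty ∧ rk (nxt j) < rk j) :
    IsPathConnected (⋃ k ∈ J, C k) := by
  classical
  obtain ⟨x0, hx0⟩ := hne
  have sub : ∀ j ∈ J, C j ⊆ ⋃ k ∈ J, C k := fun j hj => Set.subset_biUnion_of_mem hj
  have conv : ∀ j ∈ J, ∀ x ∈ C j, ∀ y ∈ C j, JoinedIn (⋃ k ∈ J, C k) x y := by
    intro j hj x hx y hy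
    exact (((hc j hj).isPathConnected ⟨x, hx⟩).joinedIn x hx y hy).mono (sub j hj)
  have key : ∀ n : ℕ, ∀ j ∈ J, rk j = n → ∀ x ∈ C j, JoinedIn (⋃ k ∈ J, C k) x x0 := by
    intro n
    induction n using Nat.strong_induction_on with
    | _ n ih =>
      intro j hj hn x hx
      by_cases hjr : j = root
      · subst hjr
        exact conv j hj x hx x0 hx0
      · obtain ⟨h1, ⟨y, hy1, hy2⟩, h3⟩ := hnxt j hj hjr
        exact (conv j hj x hx y hy1).trans (ih (rk (nxt j)) (hn ▸ h3) (nxt j) h1 rfl y hy2)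
  refine ⟨x0, sub root hroot hx0, ?_⟩
  intro y hy
  obtain ⟨j, hj, hyj⟩ := Set.mem_iUnion₂.1 hy
  exact (key _ j hj rfl y hyj).symm

/-- Shelling: `C k` are nonempty convex open sets. Each `k ≥ 1` has a parent `par k < k` with
`C (par k) ∩ C k` nonempty, and for `j < k` meeting `C k`, `j ≠ par k`, there is
`nxt j k < k` with `C j ∩ C (nxt j k) ∩ C k` nonempty and smaller rank. -/
theorem shelling {E : Type*} [NormedAddCommGroup E] [NormedSpace ℝ E] {n : ℕ}
    (C : Fin (n + 1) → Set E) (ho : ∀ k, IsOpen (C k)) (hc : ∀ k, Convex ℝ (C k))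
    (hne : ∀ k, (C k).Nonempty)
    (par : Fin (n + 1) → Fin (n + 1)) (nxt : Fin (n + 1) → Fin (n + 1) → Fin (n + 1))
    (rk : Fin (n + 1) → Fin (n + 1) → ℕ)
    (hpar : ∀ k, k ≠ 0 → par k < k ∧ (C (par k) ∩ C k).Nonempty)
    (hnxt : ∀ j k, j < k → (C j ∩ C k).Nonempty → j ≠ par k →
      nxt j k < k ∧ (C j ∩ C (nxt j k) ∩ C k).Nonempty ∧ rk (nxt j k) k < rk j k) :
    IsSimplyConnected (⋃ k, C k) := by
  classical
  have conv : ∀ k, IsSimplyConnected (C k) := by
    intro k
    have := (hc k).contractibleSpace (hne k)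
    show SimplyConnectedSpace (C k)
    infer_instance
  have key : ∀ m : ℕ, m ≤ n → IsSimplyConnected (⋃ k ∈ {k : Fin (n + 1) | k.val ≤ m}, C k) := by
    intro m
    induction m with
    | zero =>
      intro _
      have : (⋃ k ∈ {k : Fin (n + 1) | k.val ≤ 0}, C k) = C 0 := by
        ext x
        simp only [Set.mem_ofPred_eq, Set.mem_iUnion, exists_prop]
        constructor
        · rintro ⟨k, hk, hx⟩
          have : k = 0 := Fin.ext (by simpa using hk)
          rwa [this] at hx
        · intro hx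
          exact ⟨0, by simp, hx⟩
      rw [this]
      exact conv 0
    | succ m ih =>
      intro hm
      have hmn : m + 1 < n + 1 := by omega
      let k : Fin (n + 1) := ⟨m + 1, hmn⟩
      have hk0 : k ≠ 0 := by
        intro h
        have := congrArg Fin.val h
        simp [k] at this
      have hunion : (⋃ j ∈ {j : Fin (n + 1) | j.val ≤ m + 1}, C j) =
          (⋃ j ∈ {j : Fin (n + 1) | j.val ≤ m}, C j) ∪ C k := by
        ext x
        simp only [Set.mem_ofPred_eq, Set.mem_iUnion, exists_prop, Set.mem_union]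
        constructor
        · rintro ⟨j, hj, hx⟩
          rcases Nat.lt_or_ge m j.val with h | h
          · right
            have : j = k := Fin.ext (by show j.val = m + 1; omega)
            rwa [this] at hx
          · left
            exact ⟨j, h, hx⟩
        · rintro (⟨j, hj, hx⟩ | hx)
          · exact ⟨j, by omega, hx⟩
          · exact ⟨k, le_rfl, hx⟩
      rw [hunion]
      refine simplyConnected_union ?_ (ho k) (ih (by omega)) (conv k) ?_
      · exact isOpen_biUnion fun j _ => ho j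
      · have hint : (⋃ j ∈ {j : Fin (n + 1) | j.val ≤ m}, C j) ∩ C k =
            ⋃ j ∈ {j : Fin (n + 1) | j < k ∧ (C j ∩ C k).Nonempty}, (C j ∩ C k) := by
          ext x
          simp only [Set.mem_ofPred_eq, Set.mem_iUnion, exists_prop, Set.mem_inter_iff]
          constructor
          · rintro ⟨⟨j, hj, hx⟩, hxk⟩
            exact ⟨j, ⟨Fin.lt_def.2 (by show j.val < m + 1; omega), ⟨x, hx, hxk⟩⟩, hx, hxk⟩
          · rintro ⟨j, ⟨hj, _⟩, hx, hxk⟩
            have hj' : j.val < m + 1 := Fin.lt_def.1 hj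
            exact ⟨⟨j, by omega, hx⟩, hxk⟩
        rw [hint]
        obtain ⟨hp1, hp2⟩ := hpar k hk0
        refine chain_union (fun j => C j ∩ C k)
          {j : Fin (n + 1) | j < k ∧ (C j ∩ C k).Nonempty} (par k) ⟨hp1, hp2⟩ hp2
          (fun j _ => (hc j).inter (hc k)) (fun j => nxt j k) (fun j => rk j k) ?_
        rintro j ⟨hj1, hj2⟩ hjp
        obtain ⟨h1, ⟨x, ⟨hx1, hx2⟩, hx3⟩, h3⟩ := hnxt j k hj1 hj2 hjp
        exact ⟨⟨h1, ⟨x, hx2, hx3⟩⟩, ⟨x, ⟨hx1, hx3⟩, ⟨hx2, hx3⟩⟩, h3⟩
  have h := key n le_rfl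
  have hall : (⋃ k ∈ {k : Fin (n + 1) | k.val ≤ n}, C k) = ⋃ k, C k := by
    ext x
    simp only [Set.mem_ofPred_eq, Set.mem_iUnion, exists_prop]
    constructor
    · rintro ⟨k, _, hx⟩; exact ⟨k, hx⟩
    · rintro ⟨k, hx⟩; exact ⟨k, by omega, hx⟩
  rwa [hall] at h

end Pool.Agent.helper75.KL
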