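import Pool.Agent.helper75.KL.Grp

/-! The subgroups of `SO(1,4)`. -/

namespace Pool.Agent.helper75.KL

namespace KE

variable {S I : Type} (D : KE S I)

theorem det_rho (w : D.W) : (D.rho w).1.det = ∏ i, ((D.z w i : ℤ) : ℝ) := by
  induction w using D.cs.simple_induction_left with
  | one => simp
  | mul_simple_left w s ih =>
    have e : (D.rho (D.cs.simple s * w)).1 = rm (D.v s) * (D.rho w).1 := by
      rw [map_mul]
      show (D.rho (D.cs.simple s)).1 * (D.rho w).1 = _
      rw [D.rho_simple]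
    rw [e, Matrix.det_mul, rm_det (D.vv s), ih, map_mul, z_simple]
    have h : ∀ i, ((((Pi.mulSingle (D.col s) (-1) : Fin 3 → ℤˣ) * D.z w) i : ℤ) : ℝ) =
        (if i = D.col s then (-1 : ℝ) else 1) * ((D.z w i : ℤ) : ℝ) := by
      intro i
      rw [Pi.mul_apply]
      by_cases h : i = D.col s
      · subst h; simp
      · simp [h]
    rw [Finset.prod_congr rfl (fun i _ => h i), Finset.prod_mul_distrib]
    simp

/-- The embedding of the parity kernel in `SO(1,4)`. -/
noncomputable def toSO : D.GW →* SO14 where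
  toFun w := ⟨⟨(D.rho w.1).1, by
    rw [D.det_rho, (w.2 : D.z w.1 = 1)]; simp⟩, (D.rho w.1).2⟩
  map_one' := by
    apply Subtype.ext
    apply Subtype.ext
    show (D.rho 1).1 = 1
    rw [map_one]; rfl
  map_mul' a b := by
    apply Subtype.ext
    apply Subtype.ext
    show (D.rho (a.1 * b.1)).1 = (D.rho a.1).1 * (D.rho b.1).1
    rw [map_mul]; rfl

theorem toSO_val (w : D.GW) : ((D.toSO w).1 : Matrix (Fin 5) (Fin 5) ℝ) = (D.rho w.1).1 := rfl

theorem toSO_inj : Function.Injective D.toSO := by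
  intro a b h
  apply Subtype.ext
  apply D.act_e0_inj
  unfold KD.act
  rw [← D.toSO_val a, ← D.toSO_val b, h]

theorem toSO_smul (w : D.GW) (y : Sph) : D.toSO w • y = w.1 • y := rfl

theorem orbPt_toSO (w : D.GW) : orbPt (D.toSO w) = kl (D.act w.1 e0) := rfl

/-- The big group. -/
noncomputable def G : Subgroup SO14 := D.toSO.range

/-- The small group. -/
noncomputable def F : Subgroup SO14 := (D.toSO.comp (Subgroup.inclusion D.FW_le)).range

theorem mem_F {A : SO14} : A ∈ D.F ↔ ∃ w : D.GW, w.1 ∈ D.FW ∧ D.toSO w = A := by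
  constructor
  · rintro ⟨w, rfl⟩
    exact ⟨Subgroup.inclusion D.FW_le w, w.2, rfl⟩
  · rintro ⟨w, hw, rfl⟩
    exact ⟨⟨w.1, hw⟩, rfl⟩

theorem F_le_G : D.F ≤ D.G := by
  intro A hA
  obtain ⟨w, _, rfl⟩ := D.mem_F.mp hA
  exact ⟨w, rfl⟩

theorem G_fg [Finite S] : D.G.FG := by
  haveI : Group.FG D.GW := (Group.fg_iff_subgroup_fg _).mpr D.GW_fg
  exact (Group.fg_iff_subgroup_fg _).mp (Group.fg_range D.toSO)

theorem F_fg [Finite S] : D.F.FG := by
  haveI : Group.FG D.FW := (Group.fg_iff_subgroup_fg _).mpr D.FW_fg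
  exact (Group.fg_iff_subgroup_fg _).mp (Group.fg_range (D.toSO.comp (Subgroup.inclusion D.FW_le)))

theorem F_normal : (D.F.subgroupOf D.G).Normal := by
  constructor
  rintro ⟨A, hA⟩ h ⟨B, hB⟩
  have h1 : A ∈ D.F := h
  obtain ⟨a, ha, rfl⟩ := D.mem_F.mp h1
  obtain ⟨b, rfl⟩ := hB
  show D.toSO b * D.toSO a * (D.toSO b)⁻¹ ∈ D.F
  rw [D.mem_F]
  exact ⟨b * a * b⁻¹, D.FW_conj b.2 ha, by rw [map_mul, map_mul, map_inv]⟩

theorem ht_pow {a : D.W} (ha : D.z a = 1) (n : ℕ) : D.ht (a ^ n) = n * D.ht a := by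
  induction n with
  | zero => simp [ht_one]
  | succ n ih =>
    rw [pow_succ, D.ht_add _ _ (by rw [map_pow, ha, one_pow]), ih]
    push_cast
    ring

theorem F_index {a : D.W} (ha : D.z a = 1) (hh : D.ht a ≠ 0) : (D.F.subgroupOf D.G).index = 0 := by
  by_contra hne
  obtain ⟨n, hn, _, h⟩ := Subgroup.exists_pow_mem_of_index_ne_zero hne
    (⟨D.toSO ⟨a, ha⟩, ⟨_, rfl⟩⟩ : D.G)
  have h1 : D.toSO ⟨a, ha⟩ ^ n ∈ D.F := h
  obtain ⟨b, hb, hb2⟩ := D.mem_F.mp h1
  rw [← map_pow] at hb2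
  have h3 := D.toSO_inj hb2
  have h4 : b.1 = a ^ n := by rw [h3]; rfl
  have h5 := hb.2
  rw [h4, D.ht_pow ha] at h5
  rcases mul_eq_zero.mp h5 with h6 | h6
  · have : n = 0 := by exact_mod_cast h6
    omega
  · exact hh h6

theorem rho_int (w : D.W) (i j : Fin 5) : ∃ m : ℤ, (D.rho w).1 i j = m := by
  induction w using D.cs.simple_induction_left generalizing i j with
  | one =>
    rw [map_one]
    show ∃ m : ℤ, (1 : Matrix (Fin 5) (Fin 5) ℝ) i j = m
    by_cases h : i = j
    · exact ⟨1, by rw [h, Matrix.one_apply_eq]; norm_num⟩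
    · exact ⟨0, by rw [Matrix.one_apply_ne h]; norm_num⟩
  | mul_simple_left w s ih =>
    have e : (D.rho (D.cs.simple s * w)).1 = rm (D.v s) * (D.rho w).1 := by
      rw [map_mul]
      show (D.rho (D.cs.simple s)).1 * (D.rho w).1 = _
      rw [D.rho_simple]
    have hrm : ∀ i j, ∃ m : ℤ, rm (D.v s) i j = m := by
      intro i j
      have hc : ∀ k, ∃ m : ℤ, (![-(D.v s 0), D.v s 1, D.v s 2, D.v s 3, D.v s 4] : V) k = m := by
        intro k
        obtain ⟨a0, h0⟩ := D.vint s 0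
        obtain ⟨a1, h1⟩ := D.vint s 1
        obtain ⟨a2, h2⟩ := D.vint s 2
        obtain ⟨a3, h3⟩ := D.vint s 3
        obtain ⟨a4, h4⟩ := D.vint s 4
        fin_cases k
        · exact ⟨-a0, by simp [h0]⟩
        · exact ⟨a1, by simp [h1]⟩
        · exact ⟨a2, by simp [h2]⟩
        · exact ⟨a3, by simp [h3]⟩
        · exact ⟨a4, by simp [h4]⟩
      obtain ⟨c, hc⟩ := hc j
      obtain ⟨b, hb⟩ := D.vint s i
      have hone : ∃ m : ℤ, (1 : Matrix (Fin 5) (Fin 5) ℝ) i j = m := by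
        by_cases h : i = j
        · exact ⟨1, by rw [h, Matrix.one_apply_eq]; norm_num⟩
        · exact ⟨0, by rw [Matrix.one_apply_ne h]; norm_num⟩
      obtain ⟨m, hm⟩ := hone
      refine ⟨m - 2 * (b * c), ?_⟩
      unfold rm
      rw [Matrix.sub_apply, Matrix.smul_apply, Matrix.vecMulVec_apply, hm, hb, hc]
      push_cast
      simp
    choose f hf using hrm
    choose g hg using ih
    refine ⟨∑ k, f i k * g k j, ?_⟩
    rw [e, Matrix.mul_apply]
    push_cast
    exact Finset.sum_congr rfl (fun k _ => by rw [hf, hg])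

theorem discrete_of_int (H : Subgroup SO14)
    (hH : ∀ A ∈ H, ∀ i j, ∃ m : ℤ, (A.1 : Matrix (Fin 5) (Fin 5) ℝ) i j = m) : IsKleinian H := by
  unfold IsKleinian
  rw [discreteTopology_iff_isOpen_singleton]
  rintro ⟨A, hA⟩
  have hcont : ∀ i j, Continuous (fun B : H => ((B.1.1 : Matrix (Fin 5) (Fin 5) ℝ) i j)) := by
    intro i j
    have h1 : Continuous (fun B : H => (B.1.1 : Matrix (Fin 5) (Fin 5) ℝ)) :=
      continuous_subtype_val.comp (continuous_subtype_val.comp continuous_subtype_val)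
    exact h1.matrix_elem i j
  have h : ({⟨A, hA⟩} : Set H) = ⋂ i, ⋂ j,
      (fun B : H => ((B.1.1 : Matrix (Fin 5) (Fin 5) ℝ) i j)) ⁻¹'
        Metric.ball ((A.1 : Matrix (Fin 5) (Fin 5) ℝ) i j) 1 := by
    ext ⟨B, hB⟩
    simp only [Set.mem_singleton_iff, Set.mem_iInter, Set.mem_preimage, Metric.mem_ball,
      Real.dist_eq]
    constructor
    · intro e i j
      have : B = A := congrArg Subtype.val e
      rw [this]
      simp
    · intro hd
      apply Subtype.ext
      apply Subtype.ext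
      apply Subtype.ext
      ext i j
      have hdij := hd i j
      obtain ⟨a, ha⟩ := hH A hA i j
      obtain ⟨b, hb⟩ := hH B hB i j
      show (B.1 : Matrix (Fin 5) (Fin 5) ℝ) i j = (A.1 : Matrix (Fin 5) (Fin 5) ℝ) i j
      rw [ha, hb] at hdij
      rw [ha, hb]
      have h1 : |b - a| < 1 := by exact_mod_cast hdij
      have h2 : b - a = 0 := Int.abs_lt_one_iff.mp h1
      have h3 : b = a := by linarith
      rw [h3]
  rw [h]
  exact isOpen_iInter_of_finite (fun i => isOpen_iInter_of_finite (fun j =>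
    Metric.isOpen_ball.preimage (hcont i j)))

theorem G_kleinian : IsKleinian D.G := by
  apply discrete_of_int
  rintro A ⟨w, rfl⟩ i j
  exact D.rho_int w.1 i j

theorem F_kleinian : IsKleinian D.F := by
  apply discrete_of_int
  intro A hA i j
  obtain ⟨w, rfl⟩ := D.F_le_G hA
  exact D.rho_int w.1 i j

end KE

end Pool.Agent.helper75.KL
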