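import Mathlib

/-! An involution argument: a simply connected space with a reflection-equivariant nonvanishing
complex function has no two fixed points with opposite values. -/

namespace Pool.Agent.helper75.KL

open unitInterval

theorem theta_contra {X : Type*} [TopologicalSpace X] [SimplyConnectedSpace X]
    (r : C(X, X)) (Θ : C(X, ℂ)) (hΘ : ∀ x, Θ x ≠ 0)
    (hr : ∀ x, Θ (r x) = - (starRingEnd ℂ) (Θ x))
    (p q : X) (hp : r p = p) (hq : r q = q) (hpq : Θ q = - Θ p) : False := by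
  classical
  -- the normalised circle valued map
  have hn : ∀ x, (‖Θ x‖ : ℂ) ≠ 0 := fun x => by exact_mod_cast norm_ne_zero_iff.2 (hΘ x)
  let g : C(X, Circle) :=
    ⟨fun x => (⟨Θ x / ‖Θ x‖, by
      rw [Submonoid.unitSphere, Submonoid.mem_mk, Subsemigroup.mem_mk, mem_sphere_zero_iff_norm,
        norm_div, Complex.norm_real, norm_norm,
        div_self (norm_ne_zero_iff.2 (hΘ x))]⟩ : Circle), by
      refine Continuous.subtype_mk ?_ _
      exact Θ.continuous.div (Complex.continuous_ofReal.comp Θ.continuous.norm) hn⟩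
  have hg : ∀ x, (g x : ℂ) = Θ x / ‖Θ x‖ := fun x => rfl
  have hgr : ∀ x, (g (r x) : ℂ) = - ((g x)⁻¹ : Circle) := by
    intro x
    rw [Circle.coe_inv_eq_conj, hg, hg, hr, norm_neg, RCLike.norm_conj, map_div₀,
      Complex.conj_ofReal, neg_div]
  obtain ⟨θ0, hθ0⟩ : ∃ θ : ℝ, Circle.exp θ = g p := Circle.exp_surjective (g p)
  have hpp : (g p : ℂ) * (g p : ℂ) = -1 := by
    have h := hgr p
    rw [hp] at h
    rw [Circle.coe_inv] at h
    have h1 : (g p : ℂ) ≠ 0 := Circle.coe_ne_zero _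
    nth_rewrite 1 [h]
    field_simp
  -- the two paths
  obtain ⟨l⟩ : Nonempty (Path p q) := PathConnectedSpace.joined p q
  let l' : Path p q := (l.map r.continuous).cast hp.symm hq.symm
  have hll : Path.Homotopic l l' := SimplyConnectedSpace.paths_homotopic l l'
  have hmap := hll.map g
  let γ₀ : C(I, Circle) := (l.map g.continuous).toContinuousMap
  let γ₁ : C(I, Circle) := (l'.map g.continuous).toContinuousMap
  have hγ : γ₀.HomotopicRel γ₁ {0, 1} := hmap
  have e0 : γ₀ 0 = Circle.exp θ0 := by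
    rw [hθ0]; simp [γ₀]
  have e1 : γ₁ 0 = Circle.exp θ0 := by
    rw [hθ0]; simp [γ₁]
  have key := Circle.isCoveringMap_exp.liftPath_apply_one_eq_of_homotopicRel hγ θ0 e0 e1
  set Γ₀ := Circle.isCoveringMap_exp.liftPath γ₀ θ0 e0 with hΓ₀
  have hl0 : Circle.exp ∘ Γ₀ = γ₀ := Circle.isCoveringMap_exp.liftPath_lifts γ₀ θ0 e0
  have hz0 : Γ₀ 0 = θ0 := Circle.isCoveringMap_exp.liftPath_zero γ₀ θ0 e0
  let Γ₁ : C(I, ℝ) := ⟨fun t => 2 * θ0 - Γ₀ t, by fun_prop⟩
  have hΓ₁ : Γ₁ = Circle.isCoveringMap_exp.liftPath γ₁ θ0 e1 := by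
    rw [IsCoveringMap.eq_liftPath_iff']
    refine ⟨?_, ?_⟩
    · funext t
      have h1 : Circle.exp (Γ₀ t) = g (l t) := congrFun hl0 t
      have h2 : γ₁ t = g (r (l t)) := rfl
      show Circle.exp (2 * θ0 - Γ₀ t) = γ₁ t
      rw [h2]
      apply Circle.ext
      rw [hgr, two_mul, add_sub_assoc, Circle.exp_add, Circle.exp_sub, h1, hθ0]
      rw [Circle.coe_mul, Circle.coe_div, Circle.coe_inv, mul_div_assoc', hpp]
      rw [div_eq_mul_inv, neg_one_mul]
    · show 2 * θ0 - Γ₀ 0 = θ0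
      rw [hz0]; ring
  rw [← hΓ₁] at key
  have key' : Γ₀ 1 = 2 * θ0 - Γ₀ 1 := key
  have hfin : Γ₀ 1 = θ0 := by linarith
  have h1 : Circle.exp (Γ₀ 1) = g q := by
    have := congrFun hl0 1
    simpa [γ₀] using this
  rw [hfin, hθ0] at h1
  have h2 : (g p : ℂ) = g q := by rw [h1]
  rw [hg, hg, hpq, norm_neg, neg_div] at h2
  have h3 : Θ p / ‖Θ p‖ ≠ 0 := div_ne_zero (hΘ p) (hn p)
  apply h3
  have h4 : (2 : ℂ) * (Θ p / ‖Θ p‖) = 0 := by linear_combination h2
  simpa using h4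

end Pool.Agent.helper75.KL
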