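import Pool.Agent.helper75.KL.Sub
import Pool.Agent.helper75.KL.Lim
import Pool.Agent.helper75.KL.Cov
import Pool.Agent.helper75.KL.Chart
import Pool.Agent.helper75.KL.Nsc
import Pool.Agent.helper75.KL.Orb

/-! Assembly. -/

namespace Pool.Agent.helper75.KL

open Filter Topology

namespace KE

variable {S I : Type} (D : KE S I)

theorem orb_set_G : {p : V | ∃ A ∈ D.G, p = orbPt A} =
    {p : V | ∃ w ∈ D.GW, p = kl (D.act w e0)} := by
  ext p
  constructor
  · rintro ⟨A, ⟨w, rfl⟩, rfl⟩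
    exact ⟨w.1, w.2, rfl⟩
  · rintro ⟨w, hw, rfl⟩
    exact ⟨D.toSO ⟨w, hw⟩, ⟨_, rfl⟩, rfl⟩

theorem limitSet_G : limitSet D.G = D.Omᶜ := by
  ext y
  unfold limitSet
  rw [Set.mem_ofPred_eq, D.orb_set_G]
  constructor
  · intro h hy
    refine D.lim_sub hy (closure_mono ?_ h)
    rintro p ⟨w, _, rfl⟩
    exact ⟨w, rfl⟩
  · intro h
    exact D.lim_sup h D.GW D.GW_sq

theorem free_GW {g : D.W} (hg : g ∈ D.GW) {y : Sph} (hy : y ∈ D.Om) (h : g • y = y) : g = 1 := by
  obtain ⟨u, T, hT, _, _, hu⟩ := D.fixed_conj hy h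
  have h1 : D.z (u * g * u⁻¹) = 1 := by
    rw [map_mul, map_mul, map_inv, (hg : D.z g = 1), mul_one, mul_inv_cancel]
  have h2 := D.commuting_trivial D.col D.com_col D.z D.z_simple hT hu h1
  have h3 : g = u⁻¹ * (u * g * u⁻¹) * u := by group
  rw [h3, h2]
  group

/-- The union of the caps orthogonal to wall `s`. -/
def Us (s : S) : Set Sph := {y | ∃ i, bil (D.v s) (D.n i) = 0 ∧ y ∈ cap (D.n i)}

theorem Us_sub (s : S) : D.Us s ⊆ D.U := fun _ ⟨i, _, h⟩ => ⟨i, h⟩

theorem smul_cap {i : I} {g : D.W} (hg : g ∈ D.Wi i) {y : Sph} (hy : y ∈ cap (D.n i)) :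
    g • y ∈ cap (D.n i) := by
  rw [D.smul_mem_cap, D.bil_act_left, D.act_n ((D.Wi i).inv_mem hg)]
  exact hy

theorem simple_mem_Wi {s : S} {i : I} (h : bil (D.v s) (D.n i) = 0) : D.cs.simple s ∈ D.Wi i :=
  Subgroup.subset_closure ⟨s, h, rfl⟩

theorem Us_inv (s : S) {y : Sph} (hy : y ∈ D.Us s) : D.cs.simple s • y ∈ D.Us s := by
  obtain ⟨i, h1, h2⟩ := hy
  exact ⟨i, h1, D.smul_cap (D.simple_mem_Wi h1) h2⟩

theorem good_of_letters {i : I} (l : List S) (hl : ∀ s ∈ l, bil (D.v s) (D.n i) = 0) {y : Sph}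
    (hy : y ∈ cap (D.n i)) : Good D.cs.simple D.Us l y := by
  induction l with
  | nil => trivial
  | cons s l ih =>
    refine ⟨ih (fun t ht => hl t (List.mem_cons_of_mem _ ht)), i, hl s (List.mem_cons_self), ?_⟩
    apply D.smul_cap _ hy
    apply Subgroup.list_prod_mem
    intro g hg
    obtain ⟨t, ht, rfl⟩ := List.mem_map.mp hg
    exact D.simple_mem_Wi (hl t (List.mem_cons_of_mem _ ht))

theorem good_append (l1 l2 : List S) {y : Sph} (h2 : Good D.cs.simple D.Us l2 y)
    (h1 : Good D.cs.simple D.Us l1 ((l2.map D.cs.simple).prod • y)) :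
    Good D.cs.simple D.Us (l1 ++ l2) y := by
  induction l1 with
  | nil => exact h2
  | cons s l ih =>
    obtain ⟨h3, h4⟩ := h1
    refine ⟨ih h3, ?_⟩
    show ((l ++ l2).map D.cs.simple).prod • y ∈ D.Us s
    rw [List.map_append, List.prod_append, mul_smul]
    exact h4

theorem good_exists {y : Sph} (hy : y ∈ D.U) {w : D.W} (hw : w • y ∈ D.U) :
    ∃ l : List S, (l.map D.cs.simple).prod = w ∧ Good D.cs.simple D.Us l y := by
  obtain ⟨i, hi⟩ := hy
  obtain ⟨j, hj⟩ := hw
  rw [D.smul_mem_cap] at hj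
  obtain ⟨u, hu, g, hg, rfl, hP, hui, huj⟩ := D.struct y.2.1 y.2.2 hi hj
  obtain ⟨l1, a1, b1⟩ := D.word_of_mem hu
  obtain ⟨l2, a2, b2⟩ := D.word_of_mem hg
  refine ⟨l2 ++ l1, by rw [List.map_append, List.prod_append, b1, b2], ?_⟩
  refine D.good_append l2 l1 (D.good_of_letters l1 a1 hi) ?_
  rw [b1]
  exact D.good_of_letters l2 a2 (D.smul_mem_cap.mpr huj)

/-- `Om` is path-connected when `U` is and each wall is met by a cap. -/
theorem Om_joined (hU : IsPathConnected D.U) (hne : ∀ s, (D.Us s).Nonempty) :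
    IsPathConnected D.Om := by
  obtain ⟨x0, hx0, hj0⟩ := hU
  have key : ∀ w : D.W, ∀ y : Sph, y ∈ D.U → JoinedIn D.Om x0 (w • y) := by
    intro w
    induction w using D.cs.simple_induction_right with
    | one =>
      intro y hy
      rw [one_smul]
      exact (hj0 hy).mono D.U_sub_Om
    | mul_simple_right w s ih =>
      intro y hy
      obtain ⟨q, hq⟩ := hne s
      have h1 := ih _ (D.Us_sub s (D.Us_inv s hq))
      rw [← mul_smul] at h1
      refine h1.trans ?_
      have h2 : JoinedIn D.U q y := (hj0 (D.Us_sub s hq)).symm.trans (hj0 hy)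
      obtain ⟨γ, hγ⟩ := h2
      refine ⟨γ.map (continuous_const_smul (w * D.cs.simple s)), fun t => ?_⟩
      exact D.smul_mem_Om _ (D.U_sub_Om (hγ t))
  refine ⟨x0, D.U_sub_Om hx0, ?_⟩
  rintro y ⟨w, hw⟩
  have := key w⁻¹ _ hw
  rwa [inv_smul_smul] at this

theorem component (hpc : IsPathConnected D.Om) : IsComponentOf D.Om D.G := by
  obtain ⟨x0, hx0, _⟩ := id hpc
  refine ⟨x0, ?_, ?_⟩
  · rw [D.limitSet_G, compl_compl]; exact hx0
  · rw [D.limitSet_G, compl_compl]
    exact (hpc.isConnected.isPreconnected.connectedComponentIn hx0).symm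

/-- The quotient map is a covering. -/
theorem quot_cov : IsQuotientCoveringMap
    (Quotient.mk (orbSetoid D.F D.Om) : D.OmT → QuotSp D.F D.Om) D.FW where
  toIsQuotientMap := isQuotientMap_quotient_mk'
  continuous_const_smul g := continuous_const_smul (g.1 : D.W)
  apply_eq_iff_mem_orbit := by
    intro e₁ e₂
    rw [Quotient.eq]
    constructor
    · rintro ⟨A, hA, h⟩
      obtain ⟨w, hw, rfl⟩ := D.mem_F.mp hA
      exact ⟨⟨w.1, hw⟩, Subtype.ext h⟩
    · rintro ⟨g, hg⟩
      refine ⟨D.toSO ⟨g.1, D.FW_le g.2⟩, D.mem_F.mpr ⟨_, g.2, rfl⟩, ?_⟩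
      exact congrArg Subtype.val hg
  disjoint := by
    rintro ⟨y, hy⟩
    obtain ⟨N, hN, h⟩ := D.disjoint_nbhd D.GW (fun g hg y hy h => D.free_GW hg hy h) hy
    refine ⟨Subtype.val ⁻¹' N, continuous_subtype_val.continuousAt.preimage_mem_nhds hN, ?_⟩
    rintro g ⟨_, ⟨x, hx, rfl⟩, hx2⟩
    apply Subtype.ext
    exact h g.1 (D.FW_le g.2) ⟨g.1 • x.1, ⟨x.1, hx, rfl⟩, hx2⟩

/-- The fundamental group of the quotient is finitely generated. -/
theorem pi1_fg [Finite S] (hsc : IsSimplyConnected D.U) (hpc : ∀ s, IsPathConnected (D.Us s))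
    (hne : ∀ i, (cap (D.n i)).Nonempty)
    (q : QuotSp D.F D.Om) : Group.FG (FundamentalGroup (QuotSp D.F D.Om) q) := by
  have hU : IsPathConnected D.U := hsc.isPathConnected
  have hOm : IsPathConnected D.Om := D.Om_joined hU (fun s => (hpc s).nonempty)
  obtain ⟨x0, hx0⟩ := hU.nonempty
  have hemb : Topology.IsEmbedding (Subtype.val : D.OmT → Sph) := Topology.IsEmbedding.subtypeVal
  have himg : ∀ A : Set Sph, A ⊆ D.Om → (Subtype.val : D.OmT → Sph) '' (Subtype.val ⁻¹' A) = A := by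
    intro A hA
    rw [Subtype.image_preimage_coe, Set.inter_eq_right.mpr hA]
  have h1 : Group.FG (FundamentalGroup (QuotSp D.F D.Om)
      (Quotient.mk (orbSetoid D.F D.Om) ⟨x0, D.U_sub_Om hx0⟩)) := by
    refine orb_pi1_fg (X := D.OmT) (W := D.W) D.cs.simple D.cmX D.csX ?_ D.rhoX D.rhoX_simple
      (Subtype.val ⁻¹' D.U) (D.isOpen_U.preimage continuous_subtype_val) ?_ ?_
      (fun s => Subtype.val ⁻¹' D.Us s) (fun s => Set.preimage_mono (D.Us_sub s)) ?_ ?_ ?_ ?_
      D.FW _ D.quot_cov ⟨x0, D.U_sub_Om hx0⟩ hx0 D.FX_fg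
    · classical
      intro s t hst
      show (if s = t then 1 else if D.edge s t then 2 else 0) = 0 ∨
        (if s = t then 1 else if D.edge s t then 2 else 0) = 2
      rw [if_neg hst]
      split_ifs
      · right; rfl
      · left; rfl
    · rw [← hemb.isSimplyConnected_image, himg _ D.U_sub_Om]
      exact hsc
    · rintro ⟨y, w, hw⟩
      exact ⟨w, hw⟩
    · intro s
      rw [hemb.isInducing.isPathConnected_iff, himg _ ((D.Us_sub s).trans D.U_sub_Om)]
      exact hpc s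
    · intro s y hy
      exact D.Us_inv s hy
    · classical
      intro s t hst h
      have h' : (if s = t then 1 else if D.edge s t then 2 else 0) = 2 := h
      rw [if_neg hst] at h'
      split_ifs at h' with he
      obtain ⟨_, i, hi1, hi2⟩ := he
      obtain ⟨y, hy⟩ := hne i
      exact ⟨⟨y, D.U_sub_Om ⟨i, hy⟩⟩, ⟨i, hi1, hy⟩, ⟨i, hi2, hy⟩,
        ⟨i, hi1, D.smul_cap (D.simple_mem_Wi hi2) hy⟩,
        ⟨i, hi2, D.smul_cap (D.simple_mem_Wi hi1) hy⟩⟩
    · rintro ⟨y, _⟩ hy w hw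
      obtain ⟨l, hl, hg⟩ := D.good_exists hy hw
      refine ⟨l, hl, ?_⟩
      clear hl
      induction l with
      | nil => trivial
      | cons s l ih => exact ⟨ih hg.1, hg.2⟩
  have : PathConnectedSpace D.OmT := isPathConnected_iff_pathConnectedSpace.mp hOm
  have : PathConnectedSpace (QuotSp D.F D.Om) :=
    (Quotient.mk_surjective).pathConnectedSpace continuous_quotient_mk'
  have := h1
  exact Group.fg_of_surjective
    (f := (FundamentalGroup.fundamentalGroupMulEquivOfPathConnected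
      (Quotient.mk (orbSetoid D.F D.Om) ⟨x0, D.U_sub_Om hx0⟩) q).toMonoidHom)
    (FundamentalGroup.fundamentalGroupMulEquivOfPathConnected
      (Quotient.mk (orbSetoid D.F D.Om) ⟨x0, D.U_sub_Om hx0⟩) q).surjective

/-- The limit set of the small group is infinite. -/
theorem limitSet_F_infinite {s t s' t' : S} (h : bil (D.v s) (D.v t) = -1)
    (hF : D.cs.simple s * D.cs.simple t ∈ D.FW) (h' : bil (D.v s') (D.v t') = -1)
    (hG : D.cs.simple s' * D.cs.simple t' ∈ D.GW)
    (hne : bil (D.v s + D.v t) (D.v s' + D.v t') ≠ 0) : (limitSet D.F).Infinite := by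
  set a := D.cs.simple s * D.cs.simple t with ha
  set b := D.cs.simple s' * D.cs.simple t' with hb
  have hN : ∀ {s t : S}, bil (D.v s) (D.v t) = -1 → bil (D.v s + D.v t) (D.v s + D.v t) = 0 := by
    intro s t h
    rw [bil_add_left, bil_add_right, bil_add_right, D.vv, D.vv, bil_comm (D.v t), h]; norm_num
  have hpt : ∀ (g : D.W) {s t : S}, bil (D.v s) (D.v t) = -1 →
      kl (D.act g (D.v s + D.v t)) 0 = 1 ∧
      bil (kl (D.act g (D.v s + D.v t))) (kl (D.act g (D.v s + D.v t))) = 0 := by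
    intro g s t h
    refine ⟨kl_zero (D.act_pos g (D.N_FC h) ?_).ne', bil_kl (by rw [D.bil_act, hN h])⟩
    rw [D.N_zero]; norm_num
  -- the points `b ^ n • c` are in the limit set of `F`
  have hlim : ∀ n : ℕ, (⟨kl (D.act (b ^ n) (D.v s + D.v t)), hpt (b ^ n) h⟩ : Sph) ∈
      limitSet D.F := by
    intro n
    have hbn : b ^ n ∈ D.GW := D.GW.pow_mem hG n
    have he : bil (D.act (b ^ n)⁻¹ e0) (D.v s + D.v t) ≠ 0 := by
      apply ne_of_lt
      apply (D.act_FC _ FC_e0).bil_neg (by rw [D.bil_act, bil_e0_e0]; norm_num) (D.N_FC h)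
      rw [D.N_zero]; norm_num
    have ht := D.par_tendsto h (b ^ n) (D.act (b ^ n)⁻¹ e0) he
    refine mem_closure_of_tendsto ht (Eventually.of_forall fun m => ?_)
    have hmem : b ^ n * a ^ m * (b ^ n)⁻¹ ∈ D.FW := D.FW_conj hbn (D.FW.pow_mem hF m)
    refine ⟨D.toSO ⟨_, D.FW_le hmem⟩, D.mem_F.mpr ⟨_, hmem, rfl⟩, ?_⟩
    rw [D.orbPt_toSO, D.act_mul, D.act_mul]
  -- they converge to `c'` and are different from it
  have hconv := D.par_tendsto h' 1 (D.v s + D.v t) hne
  intro hfin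
  set c' := kl (D.act 1 (D.v s' + D.v t')) with hc'
  have hclosed : IsClosed (Subtype.val '' limitSet D.F \ {c'} : Set V) :=
    ((hfin.image _).subset Set.sdiff_subset).isClosed
  have hnot : ∀ n : ℕ, kl (D.act (b ^ n) (D.v s + D.v t)) ≠ c' := by
    intro n hn
    have hb' : ∀ n : ℕ, D.act (b ^ n) (D.v s' + D.v t') = D.v s' + D.v t' := by
      intro n
      induction n with
      | zero => rw [pow_zero, D.act_one]
      | succ n ih => rw [pow_succ, D.act_mul, hb, D.act_st_N h', ← hb, ih]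
    have h1 : bil (kl (D.act (b ^ n) (D.v s + D.v t))) (D.v s' + D.v t') ≠ 0 := by
      unfold kl
      rw [bil_smul_left]
      refine mul_ne_zero (inv_ne_zero ?_) ?_
      · refine (D.act_pos _ (D.N_FC h) ?_).ne'
        rw [D.N_zero]; norm_num
      · conv_lhs => rw [← hb' n]
        rw [D.bil_act]
        exact hne
    apply h1
    rw [hn, hc', D.act_one, kl, bil_smul_left, hN h', mul_zero]
  have hmemc : c' ∈ (Subtype.val '' limitSet D.F \ {c'} : Set V) := by
    refine hclosed.mem_of_tendsto hconv (Eventually.of_forall fun n => ?_)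
    rw [D.act_one]
    exact ⟨⟨_, hlim n, rfl⟩, hnot n⟩
  exact hmemc.2 rfl

end KE

end Pool.Agent.helper75.KL
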