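import Pool.Agent.helper75.KL.Top

/-! The parity kernel is torsion-free. -/

namespace Pool.Agent.helper75.KL

namespace KD

variable {S I : Type} (D : KD S I)

/-- A time-like future vector can be moved into the chamber. -/
theorem timelike_to_P {x : V} (hx : FC x) (hxx : bil x x < 0) : ∃ u : D.W, D.act u x ∈ D.P := by
  obtain ⟨t, ht, hb⟩ := hx.quant hxx
  have hfin : {a : V | ∃ u ∈ (⊤ : Subgroup D.W), a = D.act u e0 ∧ -bil x a ≤ -bil x e0}.Finite := by
    refine (finite_int ((-bil x e0) / t)).subset ?_
    rintro a ⟨u, _, rfl, ha⟩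
    refine ⟨D.act_e0_int u, D.act_FC u FC_e0, ?_⟩
    rw [le_div_iff₀ ht]
    have := hb _ (D.act_FC u FC_e0)
    linarith
  obtain ⟨u, _, hmin⟩ := D.exists_min ⊤ x hfin
  refine ⟨u, D.act_FC u hx, fun s => ?_⟩
  apply D.wall_of_min
  rw [← act_mul]
  exact hmin _ (Subgroup.mem_top _)

end KD

namespace KE

variable {S I : Type} (D : KE S I)

theorem torsion_free {g : D.W} (hg : g ∈ D.GW) {n : ℕ} (hn : 0 < n) (h : g ^ n = 1) : g = 1 := by
  -- the barycentre of the orbit of `e0`
  set x : V := ∑ k ∈ Finset.range n, D.act (g ^ k) e0 with hx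
  have hsum : ∀ m : ℕ, 0 < m → FC (∑ k ∈ Finset.range m, D.act (g ^ k) e0) ∧
      bil (∑ k ∈ Finset.range m, D.act (g ^ k) e0) (∑ k ∈ Finset.range m, D.act (g ^ k) e0) < 0 := by
    intro m hm
    induction m with
    | zero => omega
    | succ m ih =>
      rw [Finset.sum_range_succ]
      rcases Nat.eq_zero_or_pos m with h0 | h0
      · subst h0
        simp only [Finset.range_zero, Finset.sum_empty, pow_zero, zero_add]
        rw [D.act_one]
        exact ⟨FC_e0, by rw [bil_e0_e0]; norm_num⟩
      · obtain ⟨h1, h2⟩ := ih h0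
        have h3 := D.act_FC (g ^ m) FC_e0
        refine ⟨h1.add h3, ?_⟩
        rw [bil_add_left, bil_add_right, bil_add_right, D.bil_act, bil_e0_e0,
          bil_comm (D.act (g ^ m) e0)]
        have h4 := h1.bil_le h3
        linarith
  obtain ⟨hFC, hneg⟩ := hsum n hn
  rw [← hx] at hFC hneg
  have hgx : D.act g x = x := by
    have h1 : D.act g x = ∑ k ∈ Finset.range n, D.act (g ^ (k + 1)) e0 := by
      rw [hx]
      have : ∀ T : Finset ℕ, D.act g (∑ k ∈ T, D.act (g ^ k) e0) =
          ∑ k ∈ T, D.act (g ^ (k + 1)) e0 := by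
        intro T
        classical
        induction T using Finset.induction_on with
        | empty =>
          simp only [Finset.sum_empty]
          unfold KD.act
          exact Matrix.mulVec_zero _
        | insert a T ha ih =>
          rw [Finset.sum_insert ha, Finset.sum_insert ha, D.act_add, ih, ← D.act_mul, ← pow_succ']
      exact this _
    rw [h1]
    have h2 := Finset.sum_range_succ' (fun k => D.act (g ^ k) e0) n
    have h3 := Finset.sum_range_succ (fun k => D.act (g ^ k) e0) n
    rw [h3, h, pow_zero] at h2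
    exact (add_right_cancel h2).symm
  obtain ⟨u, hu⟩ := D.timelike_to_P hFC hneg
  have hfix : D.act (u * g * u⁻¹) (D.act u x) = D.act u x := by
    rw [D.act_mul, D.act_mul, D.act_inv_act, hgx]
  obtain ⟨_, hcl⟩ := D.fund hu hu hfix
  have hT : ∀ s ∈ {s | bil (D.act u x) (D.v s) = 0}, ∀ t ∈ {s | bil (D.act u x) (D.v s) = 0},
      s ≠ t → D.com s t := by
    intro s hs t ht hst
    by_contra hc
    have hF := D.ncom s t hst hc
    have h1 : bil (D.act u x) (D.v s + D.v t) = 0 := by
      rw [bil_add_right, (hs : bil (D.act u x) (D.v s) = 0),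
        (ht : bil (D.act u x) (D.v t) = 0), add_zero]
    have h2 := hu.1.bil_neg (by rw [D.bil_act]; exact hneg) hF (by rw [D.N_zero]; norm_num)
    linarith
  have h1 : D.z (u * g * u⁻¹) = 1 := by
    rw [map_mul, map_mul, map_inv, (hg : D.z g = 1), mul_one, mul_inv_cancel]
  have h2 := D.commuting_trivial D.col D.com_col D.z D.z_simple hT hcl h1
  have h3 : g = u⁻¹ * (u * g * u⁻¹) * u := by group
  rw [h3, h2]
  group

end KE

end Pool.Agent.helper75.KL
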